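import Mathlib

/-!
First-order Koszul property of (weakly) regular sequences: the coefficients of a relation
lie in the ideal generated by the sequence.
-/

namespace Pool.Agent.Helper40.Licci

open RingTheory.Sequence

variable {R : Type*} [CommRing R]

/-- Each term is a nonzerodivisor modulo the previous ones. -/
def WReg {n : ℕ} (α : Fin n → R) : Prop :=
  ∀ (i : Fin n) (r : R), r * α i ∈ Ideal.span (α '' {j | j < i}) →
    r ∈ Ideal.span (α '' {j | j < i})

lemma image_lt_castSucc {n : ℕ} (α : Fin (n + 1) → R) (i : Fin n) :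
    (fun j : Fin n => α j.castSucc) '' {j | j < i} = α '' {j | j < i.castSucc} := by
  ext x
  constructor
  · rintro ⟨j, hj, rfl⟩
    exact ⟨j.castSucc, by simpa using hj, rfl⟩
  · rintro ⟨j, hj, rfl⟩
    have hj' : j < i.castSucc := hj
    have hne : j ≠ Fin.last n := by
      intro h
      rw [h] at hj'
      exact absurd hj' (not_lt.mpr (Fin.le_last _))
    refine ⟨j.castPred hne, ?_, by simp⟩
    change j.castPred hne < i
    rw [← Fin.castSucc_lt_castSucc_iff]
    simpa using hj'

lemma image_lt_last {n : ℕ} (α : Fin (n + 1) → R) :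
    α '' {j | j < Fin.last n} = Set.range (fun j : Fin n => α j.castSucc) := by
  ext x
  constructor
  · rintro ⟨j, hj, rfl⟩
    have hne : j ≠ Fin.last n := ne_of_lt hj
    exact ⟨j.castPred hne, by simp⟩
  · rintro ⟨j, rfl⟩
    exact ⟨j.castSucc, Fin.castSucc_lt_last j, rfl⟩

theorem WReg.coeff_mem : ∀ (n : ℕ) (α : Fin n → R), WReg α → ∀ f : Fin n → R,
    ∑ i, f i * α i = 0 → ∀ i, f i ∈ Ideal.span (Set.range α) := by
  intro n
  induction n with
  | zero => intro α _ f _ i; exact i.elim0
  | succ n ih =>
    intro α hα f hf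
    have hα' : WReg (fun j : Fin n => α j.castSucc) := by
      intro i r hr
      rw [image_lt_castSucc] at hr ⊢
      exact hα i.castSucc r hr
    have hle : Ideal.span (Set.range (fun j : Fin n => α j.castSucc))
        ≤ Ideal.span (Set.range α) := by
      apply Ideal.span_mono
      rintro x ⟨j, rfl⟩
      exact ⟨j.castSucc, rfl⟩
    rw [Fin.sum_univ_castSucc] at hf
    have h1 : f (Fin.last n) * α (Fin.last n) ∈
        Ideal.span (Set.range (fun j : Fin n => α j.castSucc)) := by
      have : f (Fin.last n) * α (Fin.last n)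
          = - ∑ i : Fin n, f i.castSucc * α i.castSucc := by
        linear_combination hf
      rw [this]
      apply Ideal.neg_mem_iff _ |>.mpr
      apply Ideal.sum_mem
      intro i _
      exact Ideal.mul_mem_left _ _ (Ideal.subset_span ⟨i, rfl⟩)
    have h2 : f (Fin.last n) ∈
        Ideal.span (Set.range (fun j : Fin n => α j.castSucc)) := by
      rw [← image_lt_last] at h1 ⊢
      exact hα (Fin.last n) _ h1
    obtain ⟨d, hd⟩ := (Ideal.mem_span_range_iff_exists_fun).mp h2
    have h3 : ∑ i : Fin n, (f i.castSucc + d i * α (Fin.last n)) * α i.castSucc = 0 := by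
      have : ∑ i : Fin n, (f i.castSucc + d i * α (Fin.last n)) * α i.castSucc
          = ∑ i : Fin n, f i.castSucc * α i.castSucc
            + (∑ i : Fin n, d i * α i.castSucc) * α (Fin.last n) := by
        rw [Finset.sum_mul, ← Finset.sum_add_distrib]
        apply Finset.sum_congr rfl
        intro i _
        ring
      rw [this, hd]
      exact hf
    have h4 := ih _ hα' _ h3
    intro i
    refine Fin.lastCases ?_ (fun i => ?_) i
    · exact hle h2
    · have h5 := hle (h4 i)
      have h6 : d i * α (Fin.last n) ∈ Ideal.span (Set.range α) :=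
        Ideal.mul_mem_left _ _ (Ideal.subset_span ⟨_, rfl⟩)
      have : f i.castSucc = (f i.castSucc + d i * α (Fin.last n)) - d i * α (Fin.last n) := by
        ring
      rw [this]
      exact Ideal.sub_mem _ h5 h6

lemma ofList_eq_span_range (rs : List R) :
    Ideal.ofList rs = Ideal.span (Set.range (fun i : Fin rs.length => rs.get i)) := by
  unfold Ideal.ofList
  congr 1
  ext x
  simp only [Set.mem_setOf_eq, Set.mem_range]
  exact List.mem_iff_get

lemma ofList_take_eq (rs : List R) (i : Fin rs.length) :
    Ideal.ofList (rs.take i) =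
      Ideal.span ((fun j : Fin rs.length => rs.get j) '' {j | j < i}) := by
  unfold Ideal.ofList
  congr 1
  ext x
  simp only [Set.mem_setOf_eq, Set.mem_image]
  rw [List.mem_take_iff_getElem]
  constructor
  · rintro ⟨j, hj, rfl⟩
    have hj' := lt_min_iff.mp hj
    exact ⟨⟨j, hj'.2⟩, hj'.1, rfl⟩
  · rintro ⟨j, hj, rfl⟩
    exact ⟨j, lt_min hj j.2, rfl⟩

lemma wreg_of_isWeaklyRegular (rs : List R) (h : IsWeaklyRegular R rs) :
    WReg (fun i : Fin rs.length => rs.get i) := by
  rw [isWeaklyRegular_iff_Fin] at h
  intro i r hr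
  have hi := h i
  rw [← ofList_take_eq] at hr ⊢
  have key : ∀ x : R, (Submodule.Quotient.mk x : R ⧸ (Ideal.ofList (rs.take i) • (⊤ : Ideal R)))
      = 0 ↔ x ∈ Ideal.ofList (rs.take i) := by
    intro x
    rw [Submodule.Quotient.mk_eq_zero]
    simp
  rw [← key]
  apply hi
  change rs[i] • (Submodule.Quotient.mk r : R ⧸ (Ideal.ofList (rs.take i) • (⊤ : Ideal R)))
    = rs[i] • 0
  rw [smul_zero, ← Submodule.Quotient.mk_smul, key, smul_eq_mul, mul_comm]
  exact hr

/-- Relations among the members of a weakly regular sequence have coefficients in the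
ideal they generate. -/
theorem coeff_mem_of_isWeaklyRegular (rs : List R) (h : IsWeaklyRegular R rs)
    (f : Fin rs.length → R) (hf : ∑ i, f i * rs.get i = 0) :
    ∀ i, f i ∈ Ideal.ofList rs := by
  rw [ofList_eq_span_range]
  exact WReg.coeff_mem _ _ (wreg_of_isWeaklyRegular rs h) f hf

end Pool.Agent.Helper40.Licci
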