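import Mathlib

/-!
Counting homomorphisms into a finite module with small socle over a local ring.
-/

namespace Pool.Agent.Helper40.Licci

open IsLocalRing Submodule

section Basic

variable {R : Type*} [CommRing R]
variable {M N : Type*} [AddCommGroup M] [Module R M] [AddCommGroup N] [Module R N]

/-- Lagrange for a submodule, with the quotient written first. -/
lemma card_quot_mul (N : Submodule R M) :
    Nat.card (M ⧸ N) * Nat.card N = Nat.card M := by
  rw [mul_comm]; exact (Submodule.card_eq_card_quotient_mul_card N).symm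

/-- kernel times range. -/
lemma card_ker_mul_card_range (f : M →ₗ[R] N) :
    Nat.card (LinearMap.ker f) * Nat.card (LinearMap.range f) = Nat.card M := by
  rw [← Nat.card_congr (f.quotKerEquivRange).toEquiv, mul_comm]
  exact card_quot_mul _

lemma card_ker_mul_card_of_surjective (f : M →ₗ[R] N) (hf : Function.Surjective f) :
    Nat.card (LinearMap.ker f) * Nat.card N = Nat.card M := by
  rw [← card_ker_mul_card_range f, LinearMap.range_eq_top.mpr hf]
  congr 1
  exact (Nat.card_congr (Submodule.topEquiv (R := R) (M := N)).toEquiv).symm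

instance finite_linearMap [Finite M] [Finite N] : Finite (M →ₗ[R] N) :=
  Finite.of_injective (fun f => (f : M → N)) DFunLike.coe_injective

end Basic

section Local

variable {R : Type*} [CommRing R]

/-- The socle of a module over a local ring. -/
abbrev soc (R : Type*) [CommRing R] [IsLocalRing R] (S : Type*) [AddCommGroup S] [Module R S] :
    Submodule R S :=
  Submodule.torsionBySet R S (maximalIdeal R : Set R)

/-- Homs out of a cyclic module are the elements killed by the ideal. -/
lemma card_hom_quot (I : Ideal R) (S : Type*) [AddCommGroup S] [Module R S] :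
    Nat.card ((R ⧸ I) →ₗ[R] S) = Nat.card (Submodule.torsionBySet R S (I : Set R)) := by
  refine Nat.card_congr
    { toFun := fun f => ⟨f 1, ?_⟩
      invFun := fun s => Submodule.liftQ _ (LinearMap.toSpanSingleton R S s.1) ?_
      left_inv := ?_
      right_inv := ?_ }
  · rw [Submodule.mem_torsionBySet_iff]
    rintro ⟨a, ha⟩
    have h1 : a • (1 : R ⧸ I) = 0 := by
      have : a • (1 : R ⧸ I) = Ideal.Quotient.mk _ a := by
        rw [Algebra.smul_def, mul_one]; rfl
      rw [this]; exact Ideal.Quotient.eq_zero_iff_mem.mpr ha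
    change a • f 1 = 0
    rw [← map_smul, h1, map_zero]
  · intro a ha
    rw [LinearMap.mem_ker, LinearMap.toSpanSingleton_apply]
    have := s.2
    rw [Submodule.mem_torsionBySet_iff] at this
    exact this ⟨a, ha⟩
  · intro f
    ext
    simp
  · intro s
    ext
    change (liftQ I (LinearMap.toSpanSingleton R S s.1) _)
      (Submodule.Quotient.mk (1 : R)) = s.1
    rw [Submodule.liftQ_apply]
    simp

lemma card_hom_residue [IsLocalRing R] (S : Type*) [AddCommGroup S] [Module R S] :
    Nat.card ((R ⧸ maximalIdeal R) →ₗ[R] S) = Nat.card (soc R S) :=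
  card_hom_quot _ _

/-- Homs out of a quotient are the homs killing the submodule. -/
lemma card_hom_le_mul {M S : Type*} [AddCommGroup M] [Module R M] [AddCommGroup S] [Module R S]
    [Finite M] [Finite S] (N : Submodule R M) :
    Nat.card (M →ₗ[R] S) ≤ Nat.card ((M ⧸ N) →ₗ[R] S) * Nat.card (N →ₗ[R] S) := by
  let rr : (M →ₗ[R] S) →ₗ[R] (N →ₗ[R] S) := LinearMap.lcomp R S N.subtype
  rw [← card_ker_mul_card_range rr]
  have : Finite (M ⧸ N) := Finite.of_surjective _ (Submodule.mkQ_surjective N)
  refine Nat.mul_le_mul ?_ ?_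
  · refine Nat.card_le_card_of_injective
      (fun f => Submodule.liftQ N f.1 ?_) ?_
    · intro x hx
      have h := LinearMap.mem_ker.mp f.2
      have h2 := LinearMap.congr_fun h ⟨x, hx⟩
      exact h2
    · intro f g hfg
      ext x
      have := LinearMap.congr_fun hfg (Submodule.Quotient.mk x)
      exact this
  · exact Nat.card_le_card_of_injective _ Subtype.val_injective

/-- In a nontrivial finite module over a local ring there is a submodule isomorphic to the
residue field. -/
lemma exists_residue_submodule [IsLocalRing R] {M : Type*} [AddCommGroup M] [Module R M] [Finite M]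
    [Nontrivial M] :
    ∃ N : Submodule R M, Nonempty (N ≃ₗ[R] (R ⧸ maximalIdeal R)) := by
  have : IsArtinian R M := inferInstance
  obtain ⟨N, hN⟩ := IsAtomic.exists_atom (Submodule R M)
  have hs : IsSimpleModule R N := by
    rw [isSimpleModule_iff_isAtom]; exact hN
  obtain ⟨I, hI, ⟨e⟩⟩ := isSimpleModule_iff_quot_maximal.mp hs
  have hIm : I = maximalIdeal R := IsLocalRing.eq_maximalIdeal hI
  subst hIm
  exact ⟨N, ⟨e⟩⟩

/-- The key inequality: a finite module `S` whose socle is at most as large as the residue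
field receives at most `|M|` homomorphisms from a finite module `M`. -/
theorem card_hom_le [IsLocalRing R] {S : Type*} [AddCommGroup S] [Module R S] [Finite S]
    (hS : Nat.card (soc R S) ≤ Nat.card (R ⧸ maximalIdeal R)) :
    ∀ (n : ℕ) (M : Type*) [AddCommGroup M] [Module R M] [Finite M], Nat.card M = n →
      Nat.card (M →ₗ[R] S) ≤ n := by
  intro n
  induction n using Nat.strong_induction_on with
  | _ n ih =>
    intro M _ _ _ hM
    rcases subsingleton_or_nontrivial M with hsub | hnt
    · have : Nat.card (M →ₗ[R] S) = 1 := Nat.card_unique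
      rw [this, ← hM]
      exact Nat.card_pos
    · obtain ⟨N, ⟨e⟩⟩ := exists_residue_submodule (R := R) (M := M)
      have : Finite (M ⧸ N) := Finite.of_surjective _ (Submodule.mkQ_surjective N)
      have hcN : Nat.card N = Nat.card (R ⧸ maximalIdeal R) := Nat.card_congr e.toEquiv
      have hNt : Nontrivial N := e.toEquiv.nontrivial
      have h1 : 1 < Nat.card N := Finite.one_lt_card
      have hprod := card_quot_mul N
      have hqpos : 0 < Nat.card (M ⧸ N) := Nat.card_pos
      have hlt : Nat.card (M ⧸ N) < n := by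
        rw [← hM, ← hprod]
        nlinarith
      have h2 := ih _ hlt (M ⧸ N) rfl
      have h3 : Nat.card (N →ₗ[R] S) ≤ Nat.card N := by
        rw [hcN, Nat.card_congr (LinearEquiv.congrLeft S R e).toEquiv]
        rw [card_hom_residue]
        exact hS
      calc Nat.card (M →ₗ[R] S) ≤ Nat.card ((M ⧸ N) →ₗ[R] S) * Nat.card (N →ₗ[R] S) :=
            card_hom_le_mul N
        _ ≤ Nat.card (M ⧸ N) * Nat.card N := Nat.mul_le_mul h2 h3
        _ = n := by rw [hprod, hM]

theorem card_torsion_le [IsLocalRing R] {S : Type*} [AddCommGroup S] [Module R S] [Finite S]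
    (hS : Nat.card (soc R S) ≤ Nat.card (R ⧸ maximalIdeal R)) (I : Ideal R) [Finite (R ⧸ I)] :
    Nat.card (Submodule.torsionBySet R S (I : Set R)) ≤ Nat.card (R ⧸ I) := by
  rw [← card_hom_quot]
  exact card_hom_le hS _ _ rfl

/-- The canonical map `R/J → R/I` for `J ≤ I`. -/
def fac {J I : Ideal R} (h : J ≤ I) : (R ⧸ J) →ₗ[R] (R ⧸ I) :=
  Submodule.liftQ J (Submodule.mkQ I) (by rw [Submodule.ker_mkQ]; exact h)

lemma fac_mk {J I : Ideal R} (h : J ≤ I) (x : R) :
    fac h (Submodule.Quotient.mk x) = Submodule.Quotient.mk x := rfl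

lemma fac_surjective {J I : Ideal R} (h : J ≤ I) : Function.Surjective (fac h) := by
  intro y
  obtain ⟨x, rfl⟩ := Submodule.Quotient.mk_surjective _ y
  exact ⟨Submodule.Quotient.mk x, rfl⟩

lemma ker_fac {J I : Ideal R} (h : J ≤ I) :
    LinearMap.ker (fac h) = Submodule.map (Submodule.mkQ J) I := by
  unfold fac
  rw [Submodule.ker_liftQ, Submodule.ker_mkQ]

lemma mk_mem_ker_fac {J I : Ideal R} (h : J ≤ I) {x : R} (hx : x ∈ I) :
    (Submodule.Quotient.mk x : R ⧸ J) ∈ LinearMap.ker (fac h) := by
  rw [LinearMap.mem_ker, fac_mk]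
  exact (Submodule.Quotient.mk_eq_zero _).mpr hx

lemma exists_of_mem_ker_fac {J I : Ideal R} (h : J ≤ I) {y : R ⧸ J}
    (hy : y ∈ LinearMap.ker (fac h)) : ∃ x ∈ I, (Submodule.Quotient.mk x : R ⧸ J) = y := by
  rw [ker_fac] at hy
  obtain ⟨x, hx, rfl⟩ := hy
  exact ⟨x, hx, rfl⟩

/-- Self-injectivity for ideals: a linear map from an ideal `I` to `R/J` killing `J` is
multiplication by an element of `R/J`. -/
theorem exists_eq_smul [IsLocalRing R] {J I : Ideal R} (h : J ≤ I) [Finite (R ⧸ J)]
    (hS : Nat.card (soc R (R ⧸ J)) ≤ Nat.card (R ⧸ maximalIdeal R))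
    (θ : I →ₗ[R] (R ⧸ J)) (hθ : ∀ (a : R) (ha : a ∈ J), θ ⟨a, h ha⟩ = 0) :
    ∃ z : R ⧸ J, ∀ a : I, θ a = (a : R) • z := by
  have : Finite (R ⧸ I) := Finite.of_surjective _ (fac_surjective h)
  let K : Submodule R (R ⧸ J) := LinearMap.ker (fac h)
  let T : (R ⧸ J) →ₗ[R] (K →ₗ[R] (R ⧸ J)) :=
    (LinearMap.lcomp R (R ⧸ J) K.subtype).comp (LinearMap.mul R (R ⧸ J))
  have hT : ∀ z (y : K), T z y = z * y.1 := fun z y => rfl
  have hker : Nat.card (LinearMap.ker T) ≤ Nat.card (R ⧸ I) := by
    refine le_trans ?_ (card_torsion_le hS I)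
    refine Nat.card_le_card_of_injective (fun z => ⟨z.1, ?_⟩) ?_
    · rw [Submodule.mem_torsionBySet_iff]
      rintro ⟨a, ha⟩
      have h1 := LinearMap.congr_fun (LinearMap.mem_ker.mp z.2)
        ⟨Submodule.Quotient.mk a, mk_mem_ker_fac h ha⟩
      rw [hT] at h1
      change a • z.1 = 0
      rw [Algebra.smul_def, mul_comm]
      exact h1
    · intro x y hxy
      have h1 : (x : R ⧸ J) = y := congrArg (fun w => w.1) hxy
      exact Subtype.ext h1
  have e1 := card_ker_mul_card_range T
  have e2 := card_ker_mul_card_of_surjective (fac h) (fac_surjective h)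
  have e3 : Nat.card (K →ₗ[R] (R ⧸ J)) ≤ Nat.card K := card_hom_le hS _ _ rfl
  have hpos : 0 < Nat.card (LinearMap.ker T) := Nat.card_pos
  have hle : Nat.card (K →ₗ[R] (R ⧸ J)) ≤ Nat.card (LinearMap.range T) := by
    by_contra hlt
    push Not at hlt
    have h1 : Nat.card (LinearMap.ker T) * Nat.card (LinearMap.range T)
        < Nat.card (LinearMap.ker T) * Nat.card K :=
      Nat.mul_lt_mul_of_pos_left (lt_of_lt_of_le hlt e3) hpos
    have h2 : Nat.card (LinearMap.ker T) * Nat.card K ≤ Nat.card (R ⧸ I) * Nat.card K :=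
      Nat.mul_le_mul_right _ hker
    have h3 : Nat.card K * Nat.card (R ⧸ I) = Nat.card (R ⧸ J) := e2
    rw [e1] at h1
    rw [mul_comm (Nat.card (R ⧸ I)), h3] at h2
    exact absurd (lt_of_lt_of_le h1 h2) (lt_irrefl _)
  have htop : LinearMap.range T = ⊤ := by
    have hfin : Finite (K →ₗ[R] (R ⧸ J)) := inferInstance
    have : (LinearMap.range T : Set (K →ₗ[R] (R ⧸ J))) = Set.univ := by
      apply Set.eq_of_subset_of_ncard_le (Set.subset_univ _)
      rw [Set.ncard_univ]
      exact hle
    exact SetLike.coe_injective this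
  -- descend θ to K
  let p : I →ₗ[R] K :=
    LinearMap.codRestrict K ((Submodule.mkQ J).comp I.subtype)
      (fun a => mk_mem_ker_fac h a.2)
  have hp : Function.Surjective p := by
    rintro ⟨y, hy⟩
    obtain ⟨x, hx, rfl⟩ := exists_of_mem_ker_fac h hy
    exact ⟨⟨x, hx⟩, rfl⟩
  have hkp : LinearMap.ker p ≤ LinearMap.ker θ := by
    intro a ha
    have h1 : (Submodule.Quotient.mk a.1 : R ⧸ J) = 0 :=
      congrArg Subtype.val (LinearMap.mem_ker.mp ha)
    rw [Submodule.Quotient.mk_eq_zero] at h1
    rw [LinearMap.mem_ker]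
    exact hθ a.1 h1
  let θ' : K →ₗ[R] (R ⧸ J) :=
    (Submodule.liftQ _ θ hkp).comp (p.quotKerEquivOfSurjective hp).symm.toLinearMap
  have hθ' : ∀ a, θ' (p a) = θ a := by
    intro a
    have h1 : (p.quotKerEquivOfSurjective hp).symm (p a) = Submodule.Quotient.mk a := by
      rw [LinearEquiv.symm_apply_eq]
      rfl
    change (Submodule.liftQ _ θ hkp) ((p.quotKerEquivOfSurjective hp).symm (p a)) = θ a
    rw [h1]
    rfl
  have hmem : θ' ∈ LinearMap.range T := by rw [htop]; trivial
  obtain ⟨z, hz⟩ := hmem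
  refine ⟨z, fun a => ?_⟩
  rw [← hθ' a, ← hz, hT, Algebra.smul_def, mul_comm]
  rfl

end Local

end Pool.Agent.Helper40.Licci
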