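import Mathlib
import Pool.Agent.Helper40.Licci.Count

/-!
Dimension shifting for `Ext^n(k, -)` over a local ring, by counting.
-/

namespace Pool.Agent.Helper40.Licci

open CategoryTheory Abelian IsLocalRing RingTheory.Sequence Pointwise

universe u

variable {R : Type u} [CommRing R]

section Shift

variable (X : ModuleCat.{u} R) {S : ShortComplex (ModuleCat.{u} R)} (hS : S.ShortExact) (n : ℕ)

/-- the connecting map -/
noncomputable def conn : Ext X S.X₃ n →+ Ext X S.X₁ (n + 1) :=
  hS.extClass.postcomp X rfl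

lemma conn_apply (x : Ext X S.X₃ n) : conn X hS n x = x.comp hS.extClass rfl := rfl

lemma conn_injective (h2 : Subsingleton (Ext X S.X₂ n)) :
    Function.Injective (conn X hS n) := by
  rw [injective_iff_map_eq_zero]
  intro x hx
  obtain ⟨x₂, hx₂⟩ := Ext.covariant_sequence_exact₃ X hS x rfl hx
  rw [← hx₂, Subsingleton.elim x₂ 0, Ext.zero_comp]

lemma conn_surjective
    (h1 : ∀ x₁ : Ext X S.X₁ (n + 1), x₁.comp (Ext.mk₀ S.f) (add_zero (n + 1)) = 0) :
    Function.Surjective (conn X hS n) := by
  intro x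
  obtain ⟨x₃, hx₃⟩ := Ext.covariant_sequence_exact₁ X hS x (h1 x) rfl
  exact ⟨x₃, hx₃⟩

include hS in
theorem card_ext_shift (h2 : Subsingleton (Ext X S.X₂ n))
    (h1 : ∀ x₁ : Ext X S.X₁ (n + 1), x₁.comp (Ext.mk₀ S.f) (add_zero (n + 1)) = 0) :
    Nat.card (Ext X S.X₃ n) = Nat.card (Ext X S.X₁ (n + 1)) :=
  Nat.card_congr (Equiv.ofBijective _ ⟨conn_injective X hS n h2, conn_surjective X hS n h1⟩)

include hS in
theorem subsingleton_ext_X3 (h2 : Subsingleton (Ext X S.X₂ n))
    (h1 : Subsingleton (Ext X S.X₁ (n + 1))) : Subsingleton (Ext X S.X₃ n) :=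
  (conn_injective X hS n h2).subsingleton

include hS in
theorem subsingleton_ext_X1
    (h1 : ∀ x₁ : Ext X S.X₁ (n + 1), x₁.comp (Ext.mk₀ S.f) (add_zero (n + 1)) = 0)
    (h3 : Subsingleton (Ext X S.X₃ n)) : Subsingleton (Ext X S.X₁ (n + 1)) :=
  (conn_surjective X hS n h1).subsingleton

end Shift

section Local

variable [IsLocalRing R]

/-- The residue field as an object of the module category. -/
abbrev kk (R : Type u) [CommRing R] [IsLocalRing R] : ModuleCat.{u} R :=
  ModuleCat.of R (R ⧸ maximalIdeal R)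

lemma smul_id_kk (r : R) (hr : r ∈ maximalIdeal R) : r • 𝟙 (kk R) = 0 := by
  ext
  change r • (Submodule.Quotient.mk (1 : R) : R ⧸ maximalIdeal R) = 0
  rw [← Submodule.Quotient.mk_smul, Submodule.Quotient.mk_eq_zero, smul_eq_mul, mul_one]
  exact hr

lemma ext_smul_zero (M : ModuleCat.{u} R) (n : ℕ) (r : R) (hr : r ∈ maximalIdeal R)
    (e : Ext (kk R) M n) : r • e = 0 := by
  have h : r • e = (Ext.mk₀ (r • 𝟙 (kk R))).comp e (zero_add n) := by simp [Ext.mk₀_smul]
  rw [h, smul_id_kk r hr]
  simp

lemma comp_smul_id (M : ModuleCat.{u} R) (n : ℕ) (x : R) (hx : x ∈ maximalIdeal R)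
    (e : Ext (kk R) M n) : e.comp (Ext.mk₀ (x • 𝟙 M)) (add_zero n) = 0 := by
  rw [Ext.mk₀_smul, Ext.comp_smul]
  exact ext_smul_zero _ _ _ hx _

/-- Vanishing below the length of a weakly regular sequence. -/
theorem subsingleton_ext_of_weaklyRegular (rs : List R) (hmem : ∀ r ∈ rs, r ∈ maximalIdeal R) :
    ∀ (M : ModuleCat.{u} R), IsWeaklyRegular M rs → ∀ i < rs.length,
      Subsingleton (Ext (kk R) M i) := by
  induction rs with
  | nil => intro M _ i hi; simp at hi
  | cons x rs ih =>
    intro M hM i hi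
    rw [isWeaklyRegular_cons_iff] at hM
    have hx : x ∈ maximalIdeal R := hmem x (by simp)
    have hS := hM.1.smulShortComplex_shortExact
    match i with
    | 0 =>
      have h0 : Subsingleton (kk R ⟶ M) := by
        refine ⟨fun f g => ?_⟩
        ext
        change f.hom (Submodule.Quotient.mk (1 : R)) = g.hom (Submodule.Quotient.mk (1 : R))
        apply hM.1
        change x • f.hom (Submodule.Quotient.mk (1 : R)) = x • g.hom (Submodule.Quotient.mk (1 : R))
        rw [← map_smul, ← map_smul]
        have h1 : x • (Submodule.Quotient.mk (1 : R) : R ⧸ maximalIdeal R) = 0 := by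
          rw [← Submodule.Quotient.mk_smul, Submodule.Quotient.mk_eq_zero, smul_eq_mul, mul_one]
          exact hx
        rw [h1, map_zero, map_zero]
      exact Ext.addEquiv₀.toEquiv.subsingleton
    | i + 1 =>
      have h3 := ih (fun r hr => hmem r (by simp [hr])) (ModuleCat.of R (QuotSMulTop x M)) hM.2 i
        (by simpa using hi)
      exact subsingleton_ext_X1 (kk R) hS i (fun x₁ => comp_smul_id M _ x hx x₁) h3

/-- Shifting along a weakly regular sequence. -/
theorem card_ext_weaklyRegular (rs : List R) (hmem : ∀ r ∈ rs, r ∈ maximalIdeal R) :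
    ∀ (M : ModuleCat.{u} R), IsWeaklyRegular M rs →
      Nat.card (Ext (kk R) M rs.length) =
        Nat.card (soc R (M ⧸ (Ideal.ofList rs • (⊤ : Submodule R M)))) := by
  induction rs with
  | nil =>
    intro M _
    have e1 : Nat.card (Ext (kk R) M 0) = Nat.card ((R ⧸ maximalIdeal R) →ₗ[R] M) :=
      Nat.card_congr (Ext.addEquiv₀.toEquiv.trans ModuleCat.homAddEquiv.toEquiv)
    change Nat.card (Ext (kk R) M 0) = _
    rw [e1]
    let e : M ≃ₗ[R] (M ⧸ (Ideal.ofList ([] : List R) • (⊤ : Submodule R M))) :=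
      (Submodule.quotEquivOfEqBot _ (by rw [Ideal.ofList_nil, Submodule.bot_smul])).symm
    rw [← card_hom_residue]
    exact Nat.card_congr (LinearEquiv.congrRight e).toEquiv
  | cons x rs ih =>
    intro M hM
    rw [isWeaklyRegular_cons_iff] at hM
    have hx : x ∈ maximalIdeal R := hmem x (by simp)
    have hS := hM.1.smulShortComplex_shortExact
    have h2 : Subsingleton (Ext (kk R) (M.smulShortComplex x).X₂ rs.length) := by
      apply subsingleton_ext_of_weaklyRegular (x :: rs) hmem M
      · rw [isWeaklyRegular_cons_iff]; exact hM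
      · simp
    have h4 := card_ext_shift (kk R) hS rs.length h2 (fun x₁ => comp_smul_id M _ x hx x₁)
    have h5 := ih (fun r hr => hmem r (by simp [hr])) (ModuleCat.of R (QuotSMulTop x M)) hM.2
    have h6 : Nat.card (Ext (kk R) M (rs.length + 1))
        = Nat.card (Ext (kk R) (ModuleCat.of R (QuotSMulTop x M)) rs.length) := h4.symm
    change Nat.card (Ext (kk R) M (rs.length + 1)) = _
    rw [h6, h5, ← card_hom_residue, ← card_hom_residue]
    exact Nat.card_congr (LinearEquiv.congrRight
      (Submodule.quotOfListConsSMulTopEquivQuotSMulTopInner M x rs).symm).toEquiv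

end Local

end Pool.Agent.Helper40.Licci
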