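import Mathlib

/-!
Explicit matrices over `ZMod 7` describing multiplication by a quadric and by a linear form on
the sixteen squarefree monomials in four variables.
-/

namespace Pool.Agent.Helper40.Licci

/-- matrix from a table of entries -/
def tab (l : List (List ℕ)) : Matrix (Fin 16) (Fin 16) (ZMod 7) :=
  fun i j => (((l.getD i.val []).getD j.val 0 : ℕ) : ZMod 7)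

/-- multiplication by the `i`-th variable on squarefree monomials (indexed by bit masks) -/
def eM (i : Fin 4) : Matrix (Fin 16) (Fin 16) (ZMod 7) :=
  fun s t => if s.val.testBit i.val ∧ t.val + 2 ^ i.val = s.val then 1 else 0

def qT : Matrix (Fin 16) (Fin 16) (ZMod 7) := tab
   [[0, 0, 0, 0, 0, 0, 0, 0, 0, 0, 0, 0, 0, 0, 0, 0],
    [0, 0, 0, 0, 0, 0, 0, 0, 0, 0, 0, 0, 0, 0, 0, 0],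
    [0, 0, 0, 0, 0, 0, 0, 0, 0, 0, 0, 0, 0, 0, 0, 0],
    [1, 0, 0, 0, 0, 0, 0, 0, 0, 0, 0, 0, 0, 0, 0, 0],
    [0, 0, 0, 0, 0, 0, 0, 0, 0, 0, 0, 0, 0, 0, 0, 0],
    [2, 0, 0, 0, 0, 0, 0, 0, 0, 0, 0, 0, 0, 0, 0, 0],
    [4, 0, 0, 0, 0, 0, 0, 0, 0, 0, 0, 0, 0, 0, 0, 0],
    [0, 4, 2, 0, 1, 0, 0, 0, 0, 0, 0, 0, 0, 0, 0, 0],
    [0, 0, 0, 0, 0, 0, 0, 0, 0, 0, 0, 0, 0, 0, 0, 0],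
    [4, 0, 0, 0, 0, 0, 0, 0, 0, 0, 0, 0, 0, 0, 0, 0],
    [2, 0, 0, 0, 0, 0, 0, 0, 0, 0, 0, 0, 0, 0, 0, 0],
    [0, 2, 4, 0, 0, 0, 0, 0, 1, 0, 0, 0, 0, 0, 0, 0],
    [1, 0, 0, 0, 0, 0, 0, 0, 0, 0, 0, 0, 0, 0, 0, 0],
    [0, 1, 0, 0, 4, 0, 0, 0, 2, 0, 0, 0, 0, 0, 0, 0],
    [0, 0, 1, 0, 2, 0, 0, 0, 4, 0, 0, 0, 0, 0, 0, 0],
    [0, 0, 0, 1, 0, 2, 4, 0, 0, 4, 2, 0, 1, 0, 0, 0]]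

def lT : Matrix (Fin 16) (Fin 16) (ZMod 7) := tab
   [[0, 0, 0, 0, 0, 0, 0, 0, 0, 0, 0, 0, 0, 0, 0, 0],
    [1, 0, 0, 0, 0, 0, 0, 0, 0, 0, 0, 0, 0, 0, 0, 0],
    [1, 0, 0, 0, 0, 0, 0, 0, 0, 0, 0, 0, 0, 0, 0, 0],
    [0, 1, 1, 0, 0, 0, 0, 0, 0, 0, 0, 0, 0, 0, 0, 0],
    [1, 0, 0, 0, 0, 0, 0, 0, 0, 0, 0, 0, 0, 0, 0, 0],
    [0, 1, 0, 0, 1, 0, 0, 0, 0, 0, 0, 0, 0, 0, 0, 0],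
    [0, 0, 1, 0, 1, 0, 0, 0, 0, 0, 0, 0, 0, 0, 0, 0],
    [0, 0, 0, 1, 0, 1, 1, 0, 0, 0, 0, 0, 0, 0, 0, 0],
    [1, 0, 0, 0, 0, 0, 0, 0, 0, 0, 0, 0, 0, 0, 0, 0],
    [0, 1, 0, 0, 0, 0, 0, 0, 1, 0, 0, 0, 0, 0, 0, 0],
    [0, 0, 1, 0, 0, 0, 0, 0, 1, 0, 0, 0, 0, 0, 0, 0],
    [0, 0, 0, 1, 0, 0, 0, 0, 0, 1, 1, 0, 0, 0, 0, 0],
    [0, 0, 0, 0, 1, 0, 0, 0, 1, 0, 0, 0, 0, 0, 0, 0],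
    [0, 0, 0, 0, 0, 1, 0, 0, 0, 1, 0, 0, 1, 0, 0, 0],
    [0, 0, 0, 0, 0, 0, 1, 0, 0, 0, 1, 0, 1, 0, 0, 0],
    [0, 0, 0, 0, 0, 0, 0, 1, 0, 0, 0, 1, 0, 1, 1, 0]]

def aT : Matrix (Fin 16) (Fin 16) (ZMod 7) := tab
   [[0, 0, 0, 0, 0, 5, 2, 0, 0, 2, 5, 0, 0, 0, 0, 0],
    [0, 0, 0, 0, 0, 0, 0, 6, 0, 0, 0, 1, 0, 3, 5, 0],
    [0, 0, 0, 0, 0, 0, 0, 3, 0, 0, 0, 4, 0, 1, 0, 0],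
    [0, 0, 0, 0, 0, 0, 0, 0, 0, 0, 0, 0, 0, 0, 0, 1],
    [0, 0, 0, 0, 0, 0, 0, 2, 0, 0, 0, 5, 0, 3, 4, 0],
    [0, 0, 0, 0, 0, 0, 0, 0, 0, 0, 0, 0, 0, 0, 0, 0],
    [0, 0, 0, 0, 0, 0, 0, 0, 0, 0, 0, 0, 0, 0, 0, 0],
    [0, 0, 0, 0, 0, 0, 0, 0, 0, 0, 0, 0, 0, 0, 0, 0],
    [0, 0, 0, 0, 0, 0, 0, 0, 0, 0, 0, 0, 0, 0, 0, 0],
    [0, 0, 0, 0, 0, 0, 0, 0, 0, 0, 0, 0, 0, 0, 0, 0],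
    [0, 0, 0, 0, 0, 0, 0, 0, 0, 0, 0, 0, 0, 0, 0, 0],
    [0, 0, 0, 0, 0, 0, 0, 0, 0, 0, 0, 0, 0, 0, 0, 0],
    [0, 0, 0, 0, 0, 0, 0, 0, 0, 0, 0, 0, 0, 0, 0, 0],
    [0, 0, 0, 0, 0, 0, 0, 0, 0, 0, 0, 0, 0, 0, 0, 0],
    [0, 0, 0, 0, 0, 0, 0, 0, 0, 0, 0, 0, 0, 0, 0, 0],
    [0, 0, 0, 0, 0, 0, 0, 0, 0, 0, 0, 0, 0, 0, 0, 0]]

def bT : Matrix (Fin 16) (Fin 16) (ZMod 7) := tab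
   [[0, 0, 0, 0, 0, 0, 0, 0, 1, 0, 0, 0, 0, 0, 0, 0],
    [0, 0, 0, 0, 0, 2, 2, 0, 0, 6, 5, 0, 3, 0, 0, 0],
    [0, 0, 0, 0, 0, 5, 6, 0, 0, 2, 2, 0, 3, 0, 0, 0],
    [0, 0, 0, 0, 0, 0, 0, 4, 0, 0, 0, 4, 0, 4, 4, 0],
    [0, 0, 0, 0, 0, 3, 1, 0, 0, 4, 6, 0, 4, 0, 0, 0],
    [0, 0, 0, 0, 0, 0, 0, 0, 0, 0, 0, 0, 0, 0, 0, 0],
    [0, 0, 0, 0, 0, 0, 0, 0, 0, 0, 0, 0, 0, 0, 0, 0],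
    [0, 0, 0, 0, 0, 0, 0, 0, 0, 0, 0, 0, 0, 0, 0, 0],
    [0, 0, 0, 0, 0, 6, 4, 0, 0, 1, 3, 0, 4, 0, 0, 0],
    [0, 0, 0, 0, 0, 0, 0, 0, 0, 0, 0, 0, 0, 0, 0, 0],
    [0, 0, 0, 0, 0, 0, 0, 0, 0, 0, 0, 0, 0, 0, 0, 0],
    [0, 0, 0, 0, 0, 0, 0, 0, 0, 0, 0, 0, 0, 0, 0, 0],
    [0, 0, 0, 0, 0, 0, 0, 0, 0, 0, 0, 0, 0, 0, 0, 0],
    [0, 0, 0, 0, 0, 0, 0, 0, 0, 0, 0, 0, 0, 0, 0, 0],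
    [0, 0, 0, 0, 0, 0, 0, 0, 0, 0, 0, 0, 0, 0, 0, 0],
    [0, 0, 0, 0, 0, 0, 0, 0, 0, 0, 0, 0, 0, 0, 0, 0]]

def cT : Matrix (Fin 16) (Fin 16) (ZMod 7) := tab
   [[0, 0, 0, 1, 0, 0, 0, 0, 0, 0, 0, 0, 0, 0, 0, 0],
    [0, 0, 0, 0, 0, 0, 0, 1, 0, 0, 0, 3, 0, 5, 0, 0],
    [0, 0, 0, 0, 0, 0, 0, 3, 0, 0, 0, 4, 0, 1, 0, 0],
    [0, 0, 0, 0, 0, 0, 0, 0, 0, 0, 0, 0, 0, 0, 0, 1],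
    [0, 0, 0, 0, 0, 0, 0, 5, 0, 0, 0, 1, 0, 6, 0, 0],
    [0, 0, 0, 0, 0, 0, 0, 0, 0, 0, 0, 0, 0, 0, 0, 0],
    [0, 0, 0, 0, 0, 0, 0, 0, 0, 0, 0, 0, 0, 0, 0, 0],
    [0, 0, 0, 0, 0, 0, 0, 0, 0, 0, 0, 0, 0, 0, 0, 0],
    [0, 0, 0, 0, 0, 0, 0, 0, 0, 0, 0, 0, 0, 0, 0, 0],
    [0, 0, 0, 0, 0, 0, 0, 0, 0, 0, 0, 0, 0, 0, 0, 0],
    [0, 0, 0, 0, 0, 0, 0, 0, 0, 0, 0, 0, 0, 0, 0, 0],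
    [0, 0, 0, 0, 0, 0, 0, 0, 0, 0, 0, 0, 0, 0, 0, 0],
    [0, 0, 0, 0, 0, 0, 0, 0, 0, 0, 0, 0, 0, 0, 0, 0],
    [0, 0, 0, 0, 0, 0, 0, 0, 0, 0, 0, 0, 0, 0, 0, 0],
    [0, 0, 0, 0, 0, 0, 0, 0, 0, 0, 0, 0, 0, 0, 0, 0],
    [0, 0, 0, 0, 0, 0, 0, 0, 0, 0, 0, 0, 0, 0, 0, 0]]


lemma qT_mul_qT : qT * qT = 0 := by
  have h : ∀ i j : Fin 16, (qT * qT) i j = (0 : ZMod 7) := by decide +kernel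
  ext i j; exact h i j

lemma qT_mul_lT : qT * lT = 0 := by
  have h : ∀ i j : Fin 16, (qT * lT) i j = (0 : ZMod 7) := by decide +kernel
  ext i j; exact h i j

lemma lT_mul_qT : lT * qT = 0 := by
  have h : ∀ i j : Fin 16, (lT * qT) i j = (0 : ZMod 7) := by decide +kernel
  ext i j; exact h i j

lemma one_eq : qT * aT + lT * bT + cT * qT = 1 := by
  have h : ∀ i j : Fin 16, (qT * aT) i j + (lT * bT) i j + (cT * qT) i j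
      = if i = j then (1 : ZMod 7) else 0 := by decide +kernel
  ext i j
  rw [Matrix.one_apply, ← h i j]
  rfl

lemma lT_eq : eM 0 + eM 1 + eM 2 + eM 3 = lT := by
  have h : ∀ i j : Fin 16, eM 0 i j + eM 1 i j + eM 2 i j + eM 3 i j - lT i j = (0 : ZMod 7) := by
    decide +kernel
  ext i j; exact sub_eq_zero.mp (h i j)

lemma qT_eq : (eM 0 * eM 1 + eM 2 * eM 3) + (2 : ZMod 7) • (eM 0 * eM 2 + eM 1 * eM 3)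
    + (4 : ZMod 7) • (eM 0 * eM 3 + eM 1 * eM 2) = qT := by
  have h : ∀ i j : Fin 16, ((eM 0 * eM 1) i j + (eM 2 * eM 3) i j)
      + 2 * ((eM 0 * eM 2) i j + (eM 1 * eM 3) i j)
      + 4 * ((eM 0 * eM 3) i j + (eM 1 * eM 2) i j) - qT i j = (0 : ZMod 7) := by
    decide +kernel
  ext i j; exact sub_eq_zero.mp (h i j)

end Pool.Agent.Helper40.Licci
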