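import Mathlib
import Pool.Agent.Helper40.Licci.Mats

/-!
The polynomial ring side of the example.
-/

namespace Pool.Agent.Helper40.Licci

open MvPolynomial

/-- A purely ring-theoretic computation. -/
lemma solve_ring {A : Type*} [Ring A] (Q L a b c R M a' b' c' u : A)
    (hQQ : Q * Q = 0) (hQL : Q * L = 0) (hRR : R * R = 0) (hMR : M * R = 0)
    (h1 : Q * a + L * b + c * Q = 1) (h2 : a' * R + b' * M + R * c' = 1)
    (hu : Q * u = u * R) : ∃ U V, u = Q * U + U * R + L * V * M := by
  have hQcQ : Q * (c * Q) = Q := by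
    have h3 : Q * (Q * a + L * b + c * Q) = Q := by rw [h1, mul_one]
    rw [mul_add, mul_add, ← mul_assoc Q Q a, hQQ, zero_mul, ← mul_assoc Q L b, hQL, zero_mul,
      zero_add, zero_add] at h3
    exact h3
  obtain ⟨z, hz⟩ : ∃ z, z = Q * ((a - c) * u) + L * (b * u) := ⟨_, rfl⟩
  have hu1 : u = Q * (c * u) + c * u * R + z := by
    have h3 : u = (Q * a + L * b + c * Q) * u := by rw [h1, one_mul]
    have h4 : c * u * R = c * (Q * u) := by rw [mul_assoc, hu]
    rw [h4, hz]
    conv_lhs => rw [h3]
    noncomm_ring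
  have hzR : z * R = 0 := by
    have h3 : z = u - Q * (c * u) - c * u * R := by
      have h4 : Q * (c * u) + c * u * R + z - Q * (c * u) - c * u * R = z := by abel
      rw [← hu1] at h4
      exact h4.symm
    have h4 : Q * (c * u) * R = Q * u := by
      calc Q * (c * u) * R = Q * (c * (u * R)) := by noncomm_ring
        _ = Q * (c * Q) * u := by rw [← hu]; noncomm_ring
        _ = Q * u := by rw [hQcQ]
    have h5 : c * u * R * R = 0 := by rw [mul_assoc, hRR, mul_zero]
    rw [h3, sub_mul, sub_mul, h4, h5, hu, sub_self, sub_zero]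
  have hz2 : z = z * a' * R + z * b' * M := by
    have h3 : z = z * (a' * R + b' * M + R * c') := by rw [h2, mul_one]
    have h4 : z * (R * c') = 0 := by rw [← mul_assoc, hzR, zero_mul]
    rw [mul_add, mul_add, h4, add_zero] at h3
    rw [mul_assoc, mul_assoc]
    exact h3
  refine ⟨c * u + Q * ((a - c) * u) * a' + (a - c) * u * b' * M + L * (b * u) * a',
    b * u * b', ?_⟩
  have e1 : Q * (Q * ((a - c) * u) * a') = 0 := by
    rw [mul_assoc Q, ← mul_assoc Q Q, hQQ, zero_mul]
  have e2 : Q * (L * (b * u) * a') = 0 := by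
    rw [mul_assoc L, ← mul_assoc Q L, hQL, zero_mul]
  have e3 : (a - c) * u * b' * M * R = 0 := by
    rw [mul_assoc _ M R, hMR, mul_zero]
  have e4 : z * a' * R = Q * ((a - c) * u) * a' * R + L * (b * u) * a' * R := by
    rw [hz, add_mul, add_mul]
  have e5 : z * b' * M = Q * ((a - c) * u * b' * M) + L * (b * u * b') * M := by
    rw [hz, add_mul, add_mul]
    simp only [mul_assoc]
  calc u = Q * (c * u) + c * u * R + z := hu1
    _ = Q * (c * u) + c * u * R + (Q * ((a - c) * u) * a' * R + L * (b * u) * a' * R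
        + (Q * ((a - c) * u * b' * M) + L * (b * u * b') * M)) := by
        conv_lhs => rw [hz2, e4, e5]
    _ = Q * (c * u) + Q * (Q * ((a - c) * u) * a') + Q * ((a - c) * u * b' * M)
        + Q * (L * (b * u) * a')
        + (c * u * R + Q * ((a - c) * u) * a' * R + (a - c) * u * b' * M * R
          + L * (b * u) * a' * R) + L * (b * u * b') * M := by
        rw [e1, e2, e3]; abel
    _ = _ := by
        rw [mul_add, mul_add, mul_add, add_mul, add_mul, add_mul]

lemma solve_mat (u : Matrix (Fin 16) (Fin 16) (ZMod 7))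
    (hu : qT * u = u * qT.transpose) :
    ∃ U V, u = qT * U + U * qT.transpose + lT * V * lT.transpose := by
  refine solve_ring qT lT aT bT cT qT.transpose lT.transpose aT.transpose bT.transpose
    cT.transpose u qT_mul_qT qT_mul_lT ?_ ?_ one_eq ?_ hu
  · rw [← Matrix.transpose_mul, qT_mul_qT, Matrix.transpose_zero]
  · rw [← Matrix.transpose_mul, qT_mul_lT, Matrix.transpose_zero]
  · rw [← Matrix.transpose_mul, ← Matrix.transpose_mul, ← Matrix.transpose_mul,
      ← Matrix.transpose_add, ← Matrix.transpose_add, one_eq, Matrix.transpose_one]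

section Coefficients

variable {c : ℕ}

/-- exponent vector of the squarefree monomial in the first eight variables with masks `s`, `t` -/
noncomputable def expo (c : ℕ) (s t : Fin 16) : Fin c →₀ ℕ :=
  Finsupp.equivFunOnFinite.symm (fun v =>
    if v.val < 4 then (s.val.testBit v.val).toNat
    else if v.val < 8 then (t.val.testBit (v.val - 4)).toNat else 0)

lemma expo_apply (s t : Fin 16) (v : Fin c) : expo c s t v =
    if v.val < 4 then (s.val.testBit v.val).toNat
    else if v.val < 8 then (t.val.testBit (v.val - 4)).toNat else 0 := rfl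

/-- the first four variables -/
def vx (hc : 8 ≤ c) (i : Fin 4) : Fin c := ⟨i.val, by omega⟩

/-- the next four variables -/
def vy (hc : 8 ≤ c) (i : Fin 4) : Fin c := ⟨4 + i.val, by omega⟩

lemma expo_vx (hc : 8 ≤ c) (s t : Fin 16) (i : Fin 4) :
    expo c s t (vx hc i) = (s.val.testBit i.val).toNat := by
  rw [expo_apply, if_pos]
  · rfl
  · exact i.2

lemma expo_vy (hc : 8 ≤ c) (s t : Fin 16) (i : Fin 4) :
    expo c s t (vy hc i) = (t.val.testBit i.val).toNat := by
  rw [expo_apply, if_neg, if_pos]
  · congr 2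
    change 4 + i.val - 4 = i.val
    omega
  · change 4 + i.val < 8
    omega
  · change ¬ (4 + i.val < 4)
    omega

lemma bits_inj : ∀ s s' : Fin 16, (∀ i : Fin 4, s.val.testBit i.val = s'.val.testBit i.val) →
    s = s' := by decide +kernel

lemma expo_inj (hc : 8 ≤ c) {s t s' t' : Fin 16} (h : expo c s t = expo c s' t') :
    s = s' ∧ t = t' := by
  constructor
  · apply bits_inj
    intro i
    have := DFunLike.congr_fun h (vx hc i)
    rw [expo_vx, expo_vx] at this
    cases h1 : s.val.testBit i.val <;> cases h2 : s'.val.testBit i.val <;> simp_all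
  · apply bits_inj
    intro i
    have := DFunLike.congr_fun h (vy hc i)
    rw [expo_vy, expo_vy] at this
    cases h1 : t.val.testBit i.val <;> cases h2 : t'.val.testBit i.val <;> simp_all

/-- coefficient matrix -/
noncomputable def cf (u : MvPolynomial (Fin c) (ZMod 7)) : Matrix (Fin 16) (Fin 16) (ZMod 7) :=
  fun s t => coeff (expo c s t) u

lemma cf_add (u v : MvPolynomial (Fin c) (ZMod 7)) : cf (u + v) = cf u + cf v := by
  ext s t; simp [cf]

lemma cf_sub (u v : MvPolynomial (Fin c) (ZMod 7)) : cf (u - v) = cf u - cf v := by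
  ext s t; simp [cf]

lemma cf_C_mul (a : ZMod 7) (u : MvPolynomial (Fin c) (ZMod 7)) : cf (C a * u) = a • cf u := by
  ext s t; simp [cf, coeff_C_mul]

lemma sub_bit : ∀ (s : Fin 16) (i : Fin 4), s.val.testBit i.val = true →
    ∃ s' : Fin 16, s'.val + 2 ^ i.val = s.val ∧ (∀ j : Fin 4, s'.val.testBit j.val
      = if j = i then false else s.val.testBit j.val) := by decide +kernel

lemma expo_sub_x (hc : 8 ≤ c) (s t s' : Fin 16) (i : Fin 4)
    (hs : s.val.testBit i.val = true)
    (h : ∀ j : Fin 4, s'.val.testBit j.val = if j = i then false else s.val.testBit j.val) :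
    expo c s t - Finsupp.single (vx hc i) 1 = expo c s' t := by
  ext v
  rw [Finsupp.tsub_apply, Finsupp.single_apply]
  by_cases hv : vx hc i = v
  · subst hv
    rw [if_pos rfl, expo_vx, expo_vx, h i, if_pos rfl, hs]
    rfl
  · rw [if_neg hv, expo_apply, expo_apply]
    by_cases h4 : v.val < 4
    · rw [if_pos h4, if_pos h4]
      have h5 := h ⟨v.val, h4⟩
      have hne : (⟨v.val, h4⟩ : Fin 4) ≠ i := by
        intro he
        apply hv
        rw [← he]
        rfl
      rw [if_neg hne] at h5
      change s'.val.testBit v.val = s.val.testBit v.val at h5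
      rw [h5]; rfl
    · rw [if_neg h4, if_neg h4]; rfl

lemma expo_sub_y (hc : 8 ≤ c) (s t t' : Fin 16) (i : Fin 4)
    (hs : t.val.testBit i.val = true)
    (h : ∀ j : Fin 4, t'.val.testBit j.val = if j = i then false else t.val.testBit j.val) :
    expo c s t - Finsupp.single (vy hc i) 1 = expo c s t' := by
  ext v
  rw [Finsupp.tsub_apply, Finsupp.single_apply]
  by_cases hv : vy hc i = v
  · subst hv
    rw [if_pos rfl, expo_vy, expo_vy, h i, if_pos rfl, hs]
    rfl
  · rw [if_neg hv, expo_apply, expo_apply]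
    by_cases h4 : v.val < 4
    · rw [if_pos h4, if_pos h4]; rfl
    · rw [if_neg h4, if_neg h4]
      by_cases h8 : v.val < 8
      · rw [if_pos h8, if_pos h8]
        have h5 := h ⟨v.val - 4, by omega⟩
        have hne : (⟨v.val - 4, by omega⟩ : Fin 4) ≠ i := by
          intro he
          apply hv
          rw [← he]
          apply Fin.ext
          change 4 + (v.val - 4) = v.val
          omega
        rw [if_neg hne] at h5
        change t'.val.testBit (v.val - 4) = t.val.testBit (v.val - 4) at h5
        rw [h5]; rfl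
      · rw [if_neg h8, if_neg h8]; rfl

lemma cf_X_x (hc : 8 ≤ c) (i : Fin 4) (u : MvPolynomial (Fin c) (ZMod 7)) :
    cf (X (vx hc i) * u) = eM i * cf u := by
  ext s t
  rw [Matrix.mul_apply]
  change coeff (expo c s t) (X (vx hc i) * u) = _
  rw [coeff_X_mul']
  by_cases hs : s.val.testBit i.val = true
  · obtain ⟨s', hs', hbits⟩ := sub_bit s i hs
    rw [if_pos (by
      rw [Finsupp.mem_support_iff, expo_vx, hs]; decide), expo_sub_x hc s t s' i hs hbits]
    rw [Finset.sum_eq_single s']
    · change _ = (if _ ∧ _ then (1 : ZMod 7) else 0) * _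
      rw [if_pos ⟨hs, hs'⟩, one_mul]; rfl
    · intro b _ hb
      change (if _ ∧ _ then (1 : ZMod 7) else 0) * _ = 0
      rw [if_neg, zero_mul]
      rintro ⟨_, hb'⟩
      apply hb
      apply Fin.ext
      omega
    · intro h; exact absurd (Finset.mem_univ _) h
  · rw [if_neg (by
      rw [Finsupp.mem_support_iff, expo_vx]
      simp [hs])]
    symm
    apply Finset.sum_eq_zero
    intro b _
    change (if _ ∧ _ then (1 : ZMod 7) else 0) * _ = 0
    rw [if_neg, zero_mul]
    rintro ⟨hb, _⟩
    exact hs hb

lemma cf_X_y (hc : 8 ≤ c) (i : Fin 4) (u : MvPolynomial (Fin c) (ZMod 7)) :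
    cf (X (vy hc i) * u) = cf u * (eM i).transpose := by
  ext s t
  rw [Matrix.mul_apply]
  change coeff (expo c s t) (X (vy hc i) * u) = _
  rw [coeff_X_mul']
  by_cases hs : t.val.testBit i.val = true
  · obtain ⟨t', hs', hbits⟩ := sub_bit t i hs
    rw [if_pos (by
      rw [Finsupp.mem_support_iff, expo_vy, hs]; decide), expo_sub_y hc s t t' i hs hbits]
    rw [Finset.sum_eq_single t']
    · change _ = _ * (if _ ∧ _ then (1 : ZMod 7) else 0)
      rw [if_pos ⟨hs, hs'⟩, mul_one]; rfl
    · intro b _ hb
      change _ * (if _ ∧ _ then (1 : ZMod 7) else 0) = 0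
      rw [if_neg, mul_zero]
      rintro ⟨_, hb'⟩
      apply hb
      apply Fin.ext
      omega
    · intro h; exact absurd (Finset.mem_univ _) h
  · rw [if_neg (by
      rw [Finsupp.mem_support_iff, expo_vy]
      simp [hs])]
    symm
    apply Finset.sum_eq_zero
    intro b _
    change _ * (if _ ∧ _ then (1 : ZMod 7) else 0) = 0
    rw [if_neg, mul_zero]
    rintro ⟨hb, _⟩
    exact hs hb

end Coefficients

end Pool.Agent.Helper40.Licci
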