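import Mathlib
import Pool.Agent.Helper40.Licci.Poly

/-!
The annihilator of `q(x) - q(y)` modulo the monomial complete intersection.
-/

namespace Pool.Agent.Helper40.Licci

open MvPolynomial

/-- the quadric (with `ω = 2`, `ω² = 4` in characteristic `7`) -/
def quad {A : Type*} [CommRing A] (x : Fin 4 → A) : A :=
  (x 0 * x 1 + x 2 * x 3) + 2 * (x 0 * x 2 + x 1 * x 3) + 4 * (x 0 * x 3 + x 1 * x 2)

/-- the linear form -/
def lin {A : Type*} [CommRing A] (x : Fin 4 → A) : A := x 0 + x 1 + x 2 + x 3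

variable {c : ℕ}

/-- exponents of the complete intersection -/
def eexp (v : Fin c) : ℕ := if v.val < 8 then 2 else 1

/-- the complete intersection -/
noncomputable def alp (v : Fin c) : MvPolynomial (Fin c) (ZMod 7) := X v ^ eexp v

lemma range_alp : Set.range (alp (c := c)) =
    (fun s => monomial s (1 : ZMod 7)) '' (Set.range (fun v : Fin c => Finsupp.single v (eexp v))) := by
  rw [← Set.range_comp]
  congr 1
  funext v
  simp [alp, X_pow_eq_monomial]

lemma bits_surj : ∀ f : Fin 4 → Bool, ∃ s : Fin 16, ∀ j : Fin 4, s.val.testBit j.val = f j := by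
  decide +kernel

lemma expo_lt (s t : Fin 16) (v : Fin c) : expo c s t v < eexp v := by
  rw [expo_apply]
  unfold eexp
  by_cases h4 : v.val < 4
  · rw [if_pos h4, if_pos (by omega)]
    exact lt_of_le_of_lt (Bool.toNat_le _) (by omega)
  · rw [if_neg h4]
    by_cases h8 : v.val < 8
    · rw [if_pos h8, if_pos h8]
      exact lt_of_le_of_lt (Bool.toNat_le _) (by omega)
    · rw [if_neg h8, if_neg h8]; omega

lemma exists_expo (hc : 8 ≤ c) (m : Fin c →₀ ℕ) (hm : ∀ v, m v < eexp v) :
    ∃ s t, m = expo c s t := by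
  obtain ⟨s, hs⟩ := bits_surj (fun j => decide (m (vx hc j) = 1))
  obtain ⟨t, ht⟩ := bits_surj (fun j => decide (m (vy hc j) = 1))
  refine ⟨s, t, ?_⟩
  ext v
  have hmv := hm v
  unfold eexp at hmv
  rw [expo_apply]
  by_cases h4 : v.val < 4
  · rw [if_pos h4]
    rw [if_pos (by omega)] at hmv
    have h1 := hs ⟨v.val, h4⟩
    have h2 : vx hc ⟨v.val, h4⟩ = v := rfl
    rw [h2] at h1
    change s.val.testBit v.val = _ at h1
    rw [h1]
    have h3 : m v = 0 ∨ m v = 1 := by omega
    rcases h3 with h3 | h3 <;> simp [h3]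
  · rw [if_neg h4]
    by_cases h8 : v.val < 8
    · rw [if_pos h8]
      rw [if_pos h8] at hmv
      have h1 := ht ⟨v.val - 4, by omega⟩
      have h2 : vy hc ⟨v.val - 4, by omega⟩ = v := by
        apply Fin.ext
        change 4 + (v.val - 4) = v.val
        omega
      rw [h2] at h1
      change t.val.testBit (v.val - 4) = _ at h1
      rw [h1]
      have h3 : m v = 0 ∨ m v = 1 := by omega
      rcases h3 with h3 | h3 <;> simp [h3]
    · rw [if_neg h8]
      rw [if_neg h8] at hmv
      omega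

lemma mem_alp_iff (u : MvPolynomial (Fin c) (ZMod 7)) :
    u ∈ Ideal.span (Set.range (alp (c := c))) ↔ ∀ m ∈ u.support, ∃ v, eexp v ≤ m v := by
  rw [range_alp, mem_ideal_span_monomial_image]
  apply forall₂_congr
  intro m _
  constructor
  · rintro ⟨_, ⟨v, rfl⟩, h⟩
    refine ⟨v, ?_⟩
    have := h v
    simpa using this
  · rintro ⟨v, hv⟩
    refine ⟨_, ⟨v, rfl⟩, ?_⟩
    exact Finsupp.single_le_iff.mpr hv

lemma mem_alp_iff_cf (hc : 8 ≤ c) (u : MvPolynomial (Fin c) (ZMod 7)) :
    u ∈ Ideal.span (Set.range (alp (c := c))) ↔ cf u = 0 := by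
  rw [mem_alp_iff]
  constructor
  · intro h
    ext s t
    by_contra hne
    obtain ⟨v, hv⟩ := h (expo c s t) (by rw [mem_support_iff]; exact hne)
    exact absurd hv (not_le.mpr (expo_lt s t v))
  · intro h m hm
    by_contra hcon
    push Not at hcon
    obtain ⟨s, t, rfl⟩ := exists_expo hc m hcon
    rw [mem_support_iff] at hm
    apply hm
    exact congrFun (congrFun h s) t

/-- polynomial with prescribed coefficient matrix -/
noncomputable def pm (U : Matrix (Fin 16) (Fin 16) (ZMod 7)) : MvPolynomial (Fin c) (ZMod 7) :=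
  ∑ s, ∑ t, monomial (expo c s t) (U s t)

lemma cf_pm (hc : 8 ≤ c) (U : Matrix (Fin 16) (Fin 16) (ZMod 7)) :
    cf (pm (c := c) U) = U := by
  ext s t
  change coeff (expo c s t) (∑ s', ∑ t', monomial (expo c s' t') (U s' t')) = U s t
  rw [coeff_sum, Finset.sum_eq_single s]
  · rw [coeff_sum, Finset.sum_eq_single t]
    · rw [coeff_monomial, if_pos rfl]
    · intro t' _ ht'
      rw [coeff_monomial, if_neg]
      intro h
      exact ht' (expo_inj hc h).2
    · intro h; exact absurd (Finset.mem_univ _) h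
  · intro s' _ hs'
    rw [coeff_sum]
    apply Finset.sum_eq_zero
    intro t' _
    rw [coeff_monomial, if_neg]
    intro h
    exact hs' (expo_inj hc h).1
  · intro h; exact absurd (Finset.mem_univ _) h

lemma cf_quad_x (hc : 8 ≤ c) (u : MvPolynomial (Fin c) (ZMod 7)) :
    cf (quad (fun i => X (vx hc i)) * u) = qT * cf u := by
  have h : quad (fun i => X (vx hc i)) * u
      = (X (vx hc 0) * (X (vx hc 1) * u) + X (vx hc 2) * (X (vx hc 3) * u))
      + C 2 * (X (vx hc 0) * (X (vx hc 2) * u) + X (vx hc 1) * (X (vx hc 3) * u))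
      + C 4 * (X (vx hc 0) * (X (vx hc 3) * u) + X (vx hc 1) * (X (vx hc 2) * u)) := by
    have e2 : (C 2 : MvPolynomial (Fin c) (ZMod 7)) = 2 := map_ofNat C 2
    have e4 : (C 4 : MvPolynomial (Fin c) (ZMod 7)) = 4 := map_ofNat C 4
    rw [e2, e4]
    unfold quad
    ring
  rw [h, ← qT_eq]
  simp only [cf_add, cf_C_mul, cf_X_x, Matrix.add_mul, Matrix.smul_mul, Matrix.mul_assoc]

lemma cf_quad_y (hc : 8 ≤ c) (u : MvPolynomial (Fin c) (ZMod 7)) :
    cf (quad (fun i => X (vy hc i)) * u) = cf u * qT.transpose := by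
  have h : quad (fun i => X (vy hc i)) * u
      = (X (vy hc 0) * (X (vy hc 1) * u) + X (vy hc 2) * (X (vy hc 3) * u))
      + C 2 * (X (vy hc 0) * (X (vy hc 2) * u) + X (vy hc 1) * (X (vy hc 3) * u))
      + C 4 * (X (vy hc 0) * (X (vy hc 3) * u) + X (vy hc 1) * (X (vy hc 2) * u)) := by
    have e2 : (C 2 : MvPolynomial (Fin c) (ZMod 7)) = 2 := map_ofNat C 2
    have e4 : (C 4 : MvPolynomial (Fin c) (ZMod 7)) = 4 := map_ofNat C 4
    rw [e2, e4]
    unfold quad
    ring
  rw [h, ← qT_eq]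
  simp only [cf_add, cf_C_mul, cf_X_y, Matrix.transpose_add, Matrix.transpose_smul,
    Matrix.transpose_mul, Matrix.mul_add, Matrix.mul_smul, Matrix.mul_assoc]

lemma cf_lin_x (hc : 8 ≤ c) (u : MvPolynomial (Fin c) (ZMod 7)) :
    cf (lin (fun i => X (vx hc i)) * u) = lT * cf u := by
  rw [← lT_eq]
  simp only [lin, add_mul, cf_add, cf_X_x, Matrix.add_mul]

lemma cf_lin_y (hc : 8 ≤ c) (u : MvPolynomial (Fin c) (ZMod 7)) :
    cf (lin (fun i => X (vy hc i)) * u) = cf u * lT.transpose := by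
  rw [← lT_eq]
  simp only [lin, add_mul, cf_add, cf_X_y, Matrix.transpose_add, Matrix.mul_add]

/-- The annihilator computation. -/
theorem ann_poly (hc : 8 ≤ c) (u : MvPolynomial (Fin c) (ZMod 7))
    (hu : (quad (fun i => X (vx hc i)) - quad (fun i => X (vy hc i))) * u
      ∈ Ideal.span (Set.range (alp (c := c)))) :
    ∃ U V, u - (quad (fun i => X (vx hc i)) + quad (fun i => X (vy hc i))) * U
      - lin (fun i => X (vx hc i)) * lin (fun i => X (vy hc i)) * V
      ∈ Ideal.span (Set.range (alp (c := c))) := by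
  rw [mem_alp_iff_cf hc, sub_mul, cf_sub, cf_quad_x, cf_quad_y, sub_eq_zero] at hu
  obtain ⟨U, V, h⟩ := solve_mat _ hu
  refine ⟨pm U, pm V, ?_⟩
  rw [mem_alp_iff_cf hc, cf_sub, cf_sub, add_mul, cf_add, cf_quad_x, cf_quad_y, mul_assoc,
    cf_lin_x, cf_lin_y, cf_pm hc, cf_pm hc]
  rw [← Matrix.mul_assoc]
  rw [sub_sub, sub_eq_zero]
  exact h

end Pool.Agent.Helper40.Licci
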