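import Mathlib

/-!
Definitions for linkage of perfect ideals in local rings: grade, perfect ideals of given
codimension, minimal free resolutions (as lists of Betti numbers), deviation and type,
direct links and the linkage class of a complete intersection.
-/

namespace Pool.Agent.Helper40.Licci

open RingTheory.Sequence IsLocalRing CategoryTheory

universe u

/-- The ideal `I` has grade `c`: it is proper, it contains an `R`-regular sequence of length `c`,
and no `R`-regular sequence contained in `I` is longer. -/
def HasGrade {R : Type u} [CommRing R] (I : Ideal R) (c : ℕ) : Prop :=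
  I ≠ ⊤ ∧
  (∃ rs : List R, rs.length = c ∧ IsRegular R rs ∧ Ideal.ofList rs ≤ I) ∧
  ∀ rs : List R, IsRegular R rs → Ideal.ofList rs ≤ I → rs.length ≤ c

/-- The ideal `I` is perfect of codimension `c`: `grade I = pd R/I = c`. -/
def IsPerfectOfCodim {R : Type u} [CommRing R] (I : Ideal R) (c : ℕ) : Prop :=
  HasGrade I c ∧ projectiveDimension (ModuleCat.of R (R ⧸ I)) = c

/-- `MinimalResolution R [b₀, b₁, …, bₙ] M` says that the module `M` over the local ring `R` has a
minimal free resolution `0 → R^{bₙ} → ⋯ → R^{b₁} → R^{b₀} → M → 0`: there is a surjection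
`f : R^{b₀} → M` whose kernel lies in `𝔪 R^{b₀}`, and that kernel has a minimal free resolution
with ranks `[b₁, …, bₙ]`; the empty list stands for the zero module. -/
def MinimalResolution (R : Type u) [CommRing R] [IsLocalRing R] :
    List ℕ → (M : Type u) → [AddCommGroup M] → [Module R M] → Prop
  | [], M, _, _ => Subsingleton M
  | b :: bs, M, _, _ => ∃ f : (Fin b → R) →ₗ[R] M, Function.Surjective f ∧
      LinearMap.ker f ≤ maximalIdeal R • (⊤ : Submodule R (Fin b → R)) ∧
      MinimalResolution R bs (LinearMap.ker f)

/-- The ideal `I`, perfect of codimension `c`, has type `t`: `R/I` has a minimal free resolution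
`0 → F_c → ⋯ → F_0 → R/I → 0` with `F_c` of rank `t`. -/
def HasType {R : Type u} [CommRing R] [IsLocalRing R] (I : Ideal R) (c t : ℕ) : Prop :=
  ∃ bs : List ℕ, bs.length = c ∧ MinimalResolution R (bs ++ [t]) (R ⧸ I)

/-- `I` and `J` are ideals of grade `c` which are directly linked: there is a regular sequence
`α = α₁, …, α_c` in `I ∩ J` with `J = (α) : I` and `I = (α) : J`. -/
def DirectlyLinked {R : Type u} [CommRing R] (c : ℕ) (I J : Ideal R) : Prop :=
  HasGrade I c ∧ HasGrade J c ∧
  ∃ rs : List R, rs.length = c ∧ IsRegular R rs ∧ Ideal.ofList rs ≤ I ⊓ J ∧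
    J = (Ideal.ofList rs).colon (I : Set R) ∧ I = (Ideal.ofList rs).colon (J : Set R)

/-- The ideal `I` (of grade `c`) is in the linkage class of a complete intersection: a finite
chain of direct links connects `I` to an ideal generated by a regular sequence of length `c`. -/
def IsLicci {R : Type u} [CommRing R] (c : ℕ) (I : Ideal R) : Prop :=
  ∃ rs : List R, rs.length = c ∧ IsRegular R rs ∧
    Relation.ReflTransGen (DirectlyLinked c) I (Ideal.ofList rs)

/-- The triplet `(c, d, t)` admits a non-licci perfect ideal: some regular local ring contains a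
perfect ideal of codimension `c`, deviation `d` (it is minimally generated by `c + d` elements)
and type `t` that is not licci. -/
def AdmitsNonLicci (c d t : ℕ) : Prop :=
  ∃ (R : Type) (_ : CommRing R) (_ : IsRegularLocalRing R) (I : Ideal R),
    IsPerfectOfCodim I c ∧ I.spanFinrank = c + d ∧ HasType I c t ∧ ¬ IsLicci c I

end Pool.Agent.Helper40.Licci
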