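import Mathlib
import Pool.Agent.Helper40.Licci.Count
import Pool.Agent.Helper40.Licci.Koszul

/-!
Linkage invariance of the number of homomorphisms `I → R/I`.
-/

namespace Pool.Agent.Helper40.Licci

open IsLocalRing Submodule

section General

variable {R : Type*} [CommRing R]

/-- descent of a linear map along a surjection -/
lemma exists_descend {M N Q : Type*} [AddCommGroup M] [Module R M] [AddCommGroup N] [Module R N]
    [AddCommGroup Q] [Module R Q] (p : M →ₗ[R] N) (hp : Function.Surjective p) (f : M →ₗ[R] Q)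
    (hk : LinearMap.ker p ≤ LinearMap.ker f) : ∃ g : N →ₗ[R] Q, ∀ x, g (p x) = f x := by
  refine ⟨(Submodule.liftQ _ f hk).comp (p.quotKerEquivOfSurjective hp).symm.toLinearMap, ?_⟩
  intro a
  have h1 : (p.quotKerEquivOfSurjective hp).symm (p a) = Submodule.Quotient.mk a := by
    rw [LinearEquiv.symm_apply_eq]
    rfl
  change (Submodule.liftQ _ f hk) ((p.quotKerEquivOfSurjective hp).symm (p a)) = f a
  rw [h1]
  rfl

/-- The coefficient property. -/
def CoeffMem {n : ℕ} (α : Fin n → R) : Prop :=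
  ∀ f : Fin n → R, ∑ i, f i * α i = 0 → ∀ i, f i ∈ Ideal.span (Set.range α)

variable {n : ℕ} {α : Fin n → R}

lemma mem_span_range (α : Fin n → R) (i : Fin n) : α i ∈ Ideal.span (Set.range α) :=
  Ideal.subset_span ⟨i, rfl⟩

/-- A map on the generators extends to the ideal generated by a sequence with the
coefficient property, as a map to a module killed by this ideal. -/
lemma exists_hbar (hα : CoeffMem α) {Q : Type*} [AddCommGroup Q] [Module R Q]
    (hQ : ∀ a ∈ Ideal.span (Set.range α), ∀ q : Q, a • q = 0) (h : Fin n → Q) :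
    ∃ g : (Ideal.span (Set.range α)) →ₗ[R] Q,
      ∀ i, g ⟨α i, mem_span_range α i⟩ = h i := by
  let L : (Fin n → R) →ₗ[R] (Ideal.span (Set.range α)) :=
    LinearMap.codRestrict _ (Fintype.linearCombination R α) (by
      intro f
      rw [Fintype.linearCombination_apply]
      apply Ideal.sum_mem
      intro i _
      exact Ideal.mul_mem_left _ _ (mem_span_range α i))
  have hL : Function.Surjective L := by
    rintro ⟨x, hx⟩
    obtain ⟨f, hf⟩ := Ideal.mem_span_range_iff_exists_fun.mp hx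
    refine ⟨f, Subtype.ext ?_⟩
    change Fintype.linearCombination R α f = x
    rw [Fintype.linearCombination_apply, ← hf]
    rfl
  have hk : LinearMap.ker L ≤ LinearMap.ker (Fintype.linearCombination R h) := by
    intro f hf
    have h1 : Fintype.linearCombination R α f = 0 := congrArg Subtype.val (LinearMap.mem_ker.mp hf)
    rw [Fintype.linearCombination_apply] at h1
    have h2 := hα f h1
    rw [LinearMap.mem_ker, Fintype.linearCombination_apply]
    apply Finset.sum_eq_zero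
    intro i _
    exact hQ _ (h2 i) _
  obtain ⟨g, hg⟩ := exists_descend L hL _ hk
  refine ⟨g, fun i => ?_⟩
  have h1 : L (Pi.single i 1) = ⟨α i, mem_span_range α i⟩ := by
    apply Subtype.ext
    change Fintype.linearCombination R α (Pi.single i 1) = α i
    rw [Fintype.linearCombination_apply_single, one_smul]
  rw [← h1, hg, Fintype.linearCombination_apply_single, one_smul]

lemma hom_span_ext {Q : Type*} [AddCommGroup Q] [Module R Q]
    (g g' : (Ideal.span (Set.range α)) →ₗ[R] Q)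
    (h : ∀ i, g ⟨α i, mem_span_range α i⟩ = g' ⟨α i, mem_span_range α i⟩) : g = g' := by
  ext ⟨x, hx⟩
  obtain ⟨f, hf⟩ := Ideal.mem_span_range_iff_exists_fun.mp hx
  have h1 : (⟨x, hx⟩ : Ideal.span (Set.range α)) = ∑ i, f i • ⟨α i, mem_span_range α i⟩ := by
    apply Subtype.ext
    subst hf
    simp
  rw [h1, map_sum, map_sum]
  apply Finset.sum_congr rfl
  intro i _
  rw [map_smul, map_smul, h i]

lemma smul_quot_eq_zero {I : Ideal R} {a : R} (ha : a ∈ I) (q : R ⧸ I) : a • q = 0 := by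
  obtain ⟨x, rfl⟩ := Submodule.Quotient.mk_surjective _ q
  rw [← Submodule.Quotient.mk_smul, Submodule.Quotient.mk_eq_zero, smul_eq_mul]
  exact Ideal.mul_mem_right _ _ ha

/-- multiplication by `b` as a map `R/I → R/K` when `b I ⊆ K` -/
def mulQ {I K : Ideal R} (b : R) (hb : ∀ x ∈ I, b * x ∈ K) : (R ⧸ I) →ₗ[R] (R ⧸ K) :=
  Submodule.mapQ I K (b • LinearMap.id) (by
    intro x hx
    exact hb x hx)

lemma mulQ_mk {I K : Ideal R} (b : R) (hb : ∀ x ∈ I, b * x ∈ K) (x : R) :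
    mulQ b hb (Submodule.Quotient.mk x) = Submodule.Quotient.mk (b * x) := rfl

lemma mulQ_fac {I K : Ideal R} (b : R) (hb : ∀ x ∈ I, b * x ∈ K) (h : K ≤ I) (z : R ⧸ K) :
    mulQ b hb (fac h z) = b • z := by
  obtain ⟨x, rfl⟩ := Submodule.Quotient.mk_surjective _ z
  rw [fac_mk, mulQ_mk, ← Submodule.Quotient.mk_smul, smul_eq_mul]

lemma mulQ_add {I K : Ideal R} (b b' : R) (hb : ∀ x ∈ I, b * x ∈ K) (hb' : ∀ x ∈ I, b' * x ∈ K)
    (hbb : ∀ x ∈ I, (b + b') * x ∈ K) (z : R ⧸ I) :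
    mulQ (b + b') hbb z = mulQ b hb z + mulQ b' hb' z := by
  obtain ⟨x, rfl⟩ := Submodule.Quotient.mk_surjective _ z
  rw [mulQ_mk, mulQ_mk, mulQ_mk, add_mul]
  rfl

lemma mulQ_smul {I K : Ideal R} (r b : R) (hb : ∀ x ∈ I, b * x ∈ K)
    (hrb : ∀ x ∈ I, (r * b) * x ∈ K) (z : R ⧸ I) :
    mulQ (r * b) hrb z = r • mulQ b hb z := by
  obtain ⟨x, rfl⟩ := Submodule.Quotient.mk_surjective _ z
  rw [mulQ_mk, mulQ_mk, mul_assoc]
  rfl

end General

section LinkPair

variable {R : Type*} [CommRing R] {n : ℕ} {α : Fin n → R}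

/-- The set of compatible pairs `(h, φ)`. -/
def Comp (α : Fin n → R) (I : Ideal R) (hI : Ideal.span (Set.range α) ≤ I) : Type _ :=
  {p : (Fin n → R ⧸ Ideal.span (Set.range α)) × (I →ₗ[R] (R ⧸ I)) //
    ∀ i, p.2 ⟨α i, hI (mem_span_range α i)⟩ = fac hI (p.1 i)}

lemma card_comp (I : Ideal R) (hI : Ideal.span (Set.range α) ≤ I) :
    Nat.card (Comp α I hI)
      = Nat.card (I →ₗ[R] (R ⧸ I)) * Nat.card (LinearMap.ker (fac hI)) ^ n := by
  have hsec := Function.surjInv_eq (fac_surjective hI)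
  let s : (R ⧸ I) → (R ⧸ Ideal.span (Set.range α)) := Function.surjInv (fac_surjective hI)
  have e : Comp α I hI ≃ (I →ₗ[R] (R ⧸ I)) × (Fin n → LinearMap.ker (fac hI)) :=
    { toFun := fun p => (p.1.2, fun i =>
        ⟨p.1.1 i - s (p.1.2 ⟨α i, hI (mem_span_range α i)⟩), by
          rw [LinearMap.mem_ker, map_sub, sub_eq_zero]
          have h1 := p.2 i
          have h2 : fac hI (s (p.1.2 ⟨α i, hI (mem_span_range α i)⟩))
            = p.1.2 ⟨α i, hI (mem_span_range α i)⟩ := hsec _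
          rw [h2, h1]⟩)
      invFun := fun q => ⟨(fun i => (q.2 i).1 + s (q.1 ⟨α i, hI (mem_span_range α i)⟩), q.1), by
        intro i
        have h2 : fac hI (s (q.1 ⟨α i, hI (mem_span_range α i)⟩))
            = q.1 ⟨α i, hI (mem_span_range α i)⟩ := hsec _
        have h3 : fac hI (q.2 i).1 = 0 := LinearMap.mem_ker.mp (q.2 i).2
        change q.1 ⟨α i, hI (mem_span_range α i)⟩
          = fac hI ((q.2 i).1 + s (q.1 ⟨α i, hI (mem_span_range α i)⟩))
        rw [map_add, h2, h3, zero_add]⟩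
      left_inv := by
        rintro ⟨⟨h, φ⟩, hp⟩
        apply Subtype.ext
        refine Prod.ext ?_ rfl
        funext i
        simp
      right_inv := by
        rintro ⟨φ, k⟩
        refine Prod.ext rfl ?_
        funext i
        apply Subtype.ext
        simp }
  rw [Nat.card_congr e, Nat.card_prod, Nat.card_fun, Nat.card_fin]

variable (I J : Ideal R) (hI : Ideal.span (Set.range α) ≤ I) (hJ : Ideal.span (Set.range α) ≤ J)
  (hJI : ∀ x, x ∈ J ↔ ∀ y ∈ I, x * y ∈ Ideal.span (Set.range α))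
  (hIJ : ∀ x, x ∈ I ↔ ∀ y ∈ J, x * y ∈ Ideal.span (Set.range α))

include hJI in
lemma mulQ_inj (w w' : R ⧸ J)
    (h : ∀ (a : R) (ha : a ∈ I),
      mulQ (K := Ideal.span (Set.range α)) a (fun x hx => by
          rw [mul_comm]; exact (hJI x).mp hx a ha) w
      = mulQ a (fun x hx => by rw [mul_comm]; exact (hJI x).mp hx a ha) w') : w = w' := by
  obtain ⟨x, rfl⟩ := Submodule.Quotient.mk_surjective _ w
  obtain ⟨x', rfl⟩ := Submodule.Quotient.mk_surjective _ w'
  rw [Submodule.Quotient.eq, hJI]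
  intro y hy
  have h1 := h y hy
  rw [mulQ_mk, mulQ_mk, Submodule.Quotient.eq] at h1
  have h2 : (x - x') * y = y * x - y * x' := by ring
  rw [h2]
  exact h1

lemma mul_mem_of_link (b : R) (hb : b ∈ J)
    (hJI : ∀ x, x ∈ J ↔ ∀ y ∈ I, x * y ∈ Ideal.span (Set.range α)) :
    ∀ x ∈ I, b * x ∈ Ideal.span (Set.range α) :=
  fun x hx => (hJI b).mp hb x hx

lemma mul_mem_of_link' (a : R) (ha : a ∈ I)
    (hJI : ∀ x, x ∈ J ↔ ∀ y ∈ I, x * y ∈ Ideal.span (Set.range α)) :
    ∀ x ∈ J, a * x ∈ Ideal.span (Set.range α) :=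
  fun x hx => by rw [mul_comm]; exact (hJI x).mp hx a ha

include hJ in
/-- Given a compatible pair `(h, φ)` for `I` there is a linear `ψ : J → R/J` with
`h(ba) = b φ(a) + a ψ(b)`. -/
theorem exists_psi [IsLocalRing R] [Finite (R ⧸ Ideal.span (Set.range α))]
    (hS : Nat.card (soc R (R ⧸ Ideal.span (Set.range α))) ≤ Nat.card (R ⧸ maximalIdeal R))
    (g : (Ideal.span (Set.range α)) →ₗ[R] (R ⧸ Ideal.span (Set.range α)))
    (φ : I →ₗ[R] (R ⧸ I))
    (hφ : ∀ x (hx : x ∈ Ideal.span (Set.range α)), φ ⟨x, hI hx⟩ = fac hI (g ⟨x, hx⟩)) :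
    ∃ ψ : J →ₗ[R] (R ⧸ J), ∀ (a : I) (b : J),
      g ⟨b.1 * a.1, mul_mem_of_link I J b.1 b.2 hJI a.1 a.2⟩
        = mulQ b.1 (mul_mem_of_link I J b.1 b.2 hJI) (φ a)
          + mulQ a.1 (mul_mem_of_link' I J a.1 a.2 hJI) (ψ b) := by
  -- for each b there is a unique w
  have hex : ∀ b : J, ∃ w : R ⧸ J, ∀ a : I,
      g ⟨b.1 * a.1, mul_mem_of_link I J b.1 b.2 hJI a.1 a.2⟩
        = mulQ b.1 (mul_mem_of_link I J b.1 b.2 hJI) (φ a)
          + mulQ a.1 (mul_mem_of_link' I J a.1 a.2 hJI) w := by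
    intro b
    let θ : I →ₗ[R] (R ⧸ Ideal.span (Set.range α)) :=
      { toFun := fun a => g ⟨b.1 * a.1, mul_mem_of_link I J b.1 b.2 hJI a.1 a.2⟩
          - mulQ b.1 (mul_mem_of_link I J b.1 b.2 hJI) (φ a)
        map_add' := by
          intro a a'
          have h1 : (⟨b.1 * (a + a').1, mul_mem_of_link I J b.1 b.2 hJI (a + a').1 (a + a').2⟩ :
              Ideal.span (Set.range α)) = ⟨b.1 * a.1, mul_mem_of_link I J b.1 b.2 hJI a.1 a.2⟩
                + ⟨b.1 * a'.1, mul_mem_of_link I J b.1 b.2 hJI a'.1 a'.2⟩ := by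
            apply Subtype.ext
            simp [mul_add]
          rw [h1, map_add, map_add, map_add]
          abel
        map_smul' := by
          intro r a
          have h1 : (⟨b.1 * (r • a).1, mul_mem_of_link I J b.1 b.2 hJI (r • a).1 (r • a).2⟩ :
              Ideal.span (Set.range α))
              = r • ⟨b.1 * a.1, mul_mem_of_link I J b.1 b.2 hJI a.1 a.2⟩ := by
            apply Subtype.ext
            simp only [SetLike.val_smul, smul_eq_mul]
            ring
          rw [h1, map_smul, map_smul, map_smul, RingHom.id_apply, smul_sub] }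
    obtain ⟨z, hz⟩ := exists_eq_smul hI hS θ (by
      intro a ha
      change g ⟨b.1 * a, _⟩ - mulQ b.1 (mul_mem_of_link I J b.1 b.2 hJI) (φ ⟨a, hI ha⟩) = 0
      rw [hφ a ha, mulQ_fac]
      have h1 : (⟨b.1 * a, mul_mem_of_link I J b.1 b.2 hJI a (hI ha)⟩ :
          Ideal.span (Set.range α)) = b.1 • ⟨a, ha⟩ := by
        apply Subtype.ext
        simp
      rw [h1, map_smul, sub_self])
    refine ⟨fac hJ z, fun a => ?_⟩
    have h2 : g ⟨b.1 * a.1, mul_mem_of_link I J b.1 b.2 hJI a.1 a.2⟩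
          - mulQ b.1 (mul_mem_of_link I J b.1 b.2 hJI) (φ a) = a.1 • z := hz a
    rw [mulQ_fac, ← h2]
    abel
  choose w hw using hex
  have huniq : ∀ (b : J) (v : R ⧸ J), (∀ a : I,
      g ⟨b.1 * a.1, mul_mem_of_link I J b.1 b.2 hJI a.1 a.2⟩
        = mulQ b.1 (mul_mem_of_link I J b.1 b.2 hJI) (φ a)
          + mulQ a.1 (mul_mem_of_link' I J a.1 a.2 hJI) v) → w b = v := by
    intro b v hv
    refine mulQ_inj I J hJI _ _ ?_
    intro a ha
    have h1 := hv ⟨a, ha⟩
    rw [hw b ⟨a, ha⟩] at h1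
    exact add_left_cancel h1
  refine ⟨{ toFun := w, map_add' := ?_, map_smul' := ?_ }, fun a b => hw b a⟩
  · intro b b'
    apply huniq
    intro a
    have h1 : (⟨(b + b').1 * a.1, mul_mem_of_link I J (b + b').1 (b + b').2 hJI a.1 a.2⟩ :
        Ideal.span (Set.range α)) = ⟨b.1 * a.1, mul_mem_of_link I J b.1 b.2 hJI a.1 a.2⟩
          + ⟨b'.1 * a.1, mul_mem_of_link I J b'.1 b'.2 hJI a.1 a.2⟩ := by
      apply Subtype.ext
      simp [add_mul]
    have h2 := mulQ_add b.1 b'.1 (mul_mem_of_link I J b.1 b.2 hJI)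
      (mul_mem_of_link I J b'.1 b'.2 hJI) (mul_mem_of_link I J (b + b').1 (b + b').2 hJI) (φ a)
    have h3 : mulQ (b + b').1 (mul_mem_of_link I J (b + b').1 (b + b').2 hJI) (φ a)
      = mulQ b.1 (mul_mem_of_link I J b.1 b.2 hJI) (φ a)
        + mulQ b'.1 (mul_mem_of_link I J b'.1 b'.2 hJI) (φ a) := h2
    rw [h1, map_add, h3, map_add, hw b a, hw b' a]
    abel
  · intro r b
    apply huniq
    intro a
    have h1 : (⟨(r • b).1 * a.1, mul_mem_of_link I J (r • b).1 (r • b).2 hJI a.1 a.2⟩ :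
        Ideal.span (Set.range α)) = r • ⟨b.1 * a.1, mul_mem_of_link I J b.1 b.2 hJI a.1 a.2⟩ := by
      apply Subtype.ext
      simp only [SetLike.val_smul, smul_eq_mul]
      ring
    have h3 : mulQ (r • b).1 (mul_mem_of_link I J (r • b).1 (r • b).2 hJI) (φ a)
      = r • mulQ b.1 (mul_mem_of_link I J b.1 b.2 hJI) (φ a) :=
      mulQ_smul r b.1 (mul_mem_of_link I J b.1 b.2 hJI)
        (mul_mem_of_link I J (r • b).1 (r • b).2 hJI) (φ a)
    rw [h1, map_smul, h3, RingHom.id_apply, map_smul, hw b a, smul_add]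

include hI hJ hJI hIJ in
/-- One inequality of the linkage comparison. -/
theorem card_comp_le [IsLocalRing R] [Finite (R ⧸ Ideal.span (Set.range α))]
    (hα : CoeffMem α)
    (hS : Nat.card (soc R (R ⧸ Ideal.span (Set.range α))) ≤ Nat.card (R ⧸ maximalIdeal R))
    (hfin : Finite (Comp α J hJ)) :
    Nat.card (Comp α I hI) ≤ Nat.card (Comp α J hJ) := by
  have hQ : ∀ a ∈ Ideal.span (Set.range α), ∀ q : R ⧸ Ideal.span (Set.range α), a • q = 0 :=
    fun a ha q => smul_quot_eq_zero ha q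
  have key : ∀ p : Comp α I hI, ∃ q : Comp α J hJ, q.1.1 = p.1.1 ∧
      ∃ g : (Ideal.span (Set.range α)) →ₗ[R] (R ⧸ Ideal.span (Set.range α)),
        (∀ i, g ⟨α i, mem_span_range α i⟩ = p.1.1 i) ∧
        ∀ (a : I) (b : J),
      g ⟨b.1 * a.1, mul_mem_of_link I J b.1 b.2 hJI a.1 a.2⟩
        = mulQ b.1 (mul_mem_of_link I J b.1 b.2 hJI) (p.1.2 a)
          + mulQ a.1 (mul_mem_of_link' I J a.1 a.2 hJI) (q.1.2 b) := by
    rintro ⟨⟨h, φ⟩, hp⟩
    obtain ⟨g, hg⟩ := exists_hbar hα hQ h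
    have hφ : ∀ x (hx : x ∈ Ideal.span (Set.range α)),
        φ ⟨x, hI hx⟩ = fac hI (g ⟨x, hx⟩) := by
      have h1 : φ.comp (Submodule.inclusion hI) = (fac hI).comp g := by
        apply hom_span_ext
        intro i
        change φ ⟨α i, _⟩ = fac hI (g ⟨α i, _⟩)
        rw [hg i]
        exact hp i
      intro x hx
      exact LinearMap.congr_fun h1 ⟨x, hx⟩
    obtain ⟨ψ, hψ⟩ := exists_psi I J hI hJ hJI hS g φ hφ
    refine ⟨⟨(h, ψ), ?_⟩, rfl, g, hg, hψ⟩
    intro i
    change ψ ⟨α i, _⟩ = fac hJ (h i)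
    refine mulQ_inj I J hJI _ _ ?_
    intro a ha
    rw [mulQ_fac]
    have h2 := hψ ⟨a, ha⟩ ⟨α i, hJ (mem_span_range α i)⟩
    have h3 : (⟨α i * a, mul_mem_of_link I J (α i) (hJ (mem_span_range α i)) hJI a ha⟩ :
        Ideal.span (Set.range α)) = a • ⟨α i, mem_span_range α i⟩ := by
      apply Subtype.ext
      simp only [SetLike.mk_smul_mk, smul_eq_mul]
      ring
    have h4 : mulQ (α i) (mul_mem_of_link I J (α i) (hJ (mem_span_range α i)) hJI)
        (φ ⟨a, ha⟩) = 0 := by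
      obtain ⟨y, hy⟩ := Submodule.Quotient.mk_surjective _ (φ ⟨a, ha⟩)
      rw [← hy, mulQ_mk, Submodule.Quotient.mk_eq_zero]
      exact Ideal.mul_mem_right _ _ (mem_span_range α i)
    change g ⟨α i * a, _⟩ = mulQ (α i) _ (φ ⟨a, ha⟩) + mulQ a _ (ψ ⟨α i, _⟩) at h2
    rw [h3, map_smul, hg i, h4, zero_add] at h2
    exact h2.symm
  choose F hF1 hF2 using key
  refine Nat.card_le_card_of_injective F ?_
  intro p p' hpp
  obtain ⟨g, hg1, hg2⟩ := hF2 p
  obtain ⟨g', hg1', hg2'⟩ := hF2 p'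
  have hh : p.1.1 = p'.1.1 := by rw [← hF1 p, ← hF1 p', hpp]
  have hgg : g = g' := by
    apply hom_span_ext
    intro i
    rw [hg1, hg1', hh]
  subst hgg
  apply Subtype.ext
  refine Prod.ext hh ?_
  ext a
  refine mulQ_inj J I hIJ _ _ ?_
  intro b hb
  have h1 := hg2 a ⟨b, hb⟩
  rw [hg2' a ⟨b, hb⟩, hpp] at h1
  exact (add_right_cancel h1).symm

include hI hJ hJI hIJ in
/-- The comparison along a link. -/
theorem card_hom_link [IsLocalRing R] [Finite (R ⧸ Ideal.span (Set.range α))]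
    (hα : CoeffMem α)
    (hS : Nat.card (soc R (R ⧸ Ideal.span (Set.range α))) ≤ Nat.card (R ⧸ maximalIdeal R))
    (hfI : Finite (I →ₗ[R] (R ⧸ I))) (hfJ : Finite (J →ₗ[R] (R ⧸ J))) :
    Nat.card (I →ₗ[R] (R ⧸ I)) * Nat.card (R ⧸ J) ^ n
      = Nat.card (J →ₗ[R] (R ⧸ J)) * Nat.card (R ⧸ I) ^ n := by
  have hCI : Finite (Comp α I hI) := by
    unfold Comp; infer_instance
  have hCJ : Finite (Comp α J hJ) := by
    unfold Comp; infer_instance
  have h1 := card_comp_le I J hI hJ hJI hIJ hα hS hCJ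
  have h2 := card_comp_le J I hJ hI hIJ hJI hα hS hCI
  have h3 := le_antisymm h1 h2
  rw [card_comp, card_comp] at h3
  have e1 := card_ker_mul_card_of_surjective (fac hI) (fac_surjective hI)
  have e2 := card_ker_mul_card_of_surjective (fac hJ) (fac_surjective hJ)
  have hApos : 0 < Nat.card (R ⧸ Ideal.span (Set.range α)) := Nat.card_pos
  have hfRI : Finite (R ⧸ I) := Finite.of_surjective _ (fac_surjective hI)
  have hfRJ : Finite (R ⧸ J) := Finite.of_surjective _ (fac_surjective hJ)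
  have hkI : 0 < Nat.card (LinearMap.ker (fac hI)) := Nat.card_pos
  have hkJ : 0 < Nat.card (LinearMap.ker (fac hJ)) := Nat.card_pos
  have hpow : 0 < Nat.card (R ⧸ Ideal.span (Set.range α)) ^ n := Nat.pow_pos hApos
  apply Nat.eq_of_mul_eq_mul_right hpow
  calc Nat.card (I →ₗ[R] (R ⧸ I)) * Nat.card (R ⧸ J) ^ n
        * Nat.card (R ⧸ Ideal.span (Set.range α)) ^ n
      = Nat.card (I →ₗ[R] (R ⧸ I)) * Nat.card (R ⧸ J) ^ n
        * (Nat.card (LinearMap.ker (fac hI)) * Nat.card (R ⧸ I)) ^ n := by rw [e1]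
    _ = (Nat.card (I →ₗ[R] (R ⧸ I)) * Nat.card (LinearMap.ker (fac hI)) ^ n)
        * (Nat.card (R ⧸ I) ^ n * Nat.card (R ⧸ J) ^ n) := by
          rw [mul_pow]; ring
    _ = (Nat.card (J →ₗ[R] (R ⧸ J)) * Nat.card (LinearMap.ker (fac hJ)) ^ n)
        * (Nat.card (R ⧸ I) ^ n * Nat.card (R ⧸ J) ^ n) := by rw [h3]
    _ = Nat.card (J →ₗ[R] (R ⧸ J)) * Nat.card (R ⧸ I) ^ n
        * (Nat.card (LinearMap.ker (fac hJ)) * Nat.card (R ⧸ J)) ^ n := by
          rw [mul_pow]; ring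
    _ = Nat.card (J →ₗ[R] (R ⧸ J)) * Nat.card (R ⧸ I) ^ n
        * Nat.card (R ⧸ Ideal.span (Set.range α)) ^ n := by rw [e2]

end LinkPair

end Pool.Agent.Helper40.Licci
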