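import Mathlib
import Pool.Agent.Helper40.Licci.Defs
import Pool.Agent.Helper40.Licci.Link

/-!
For a licci ideal `I` the number of homomorphisms `I → R/I` is `|R/I|^c`.
-/

namespace Pool.Agent.Helper40.Licci

open IsLocalRing Submodule RingTheory.Sequence

variable {R : Type*} [CommRing R]

lemma finite_hom_of_fg {M Q : Type*} [AddCommGroup M] [Module R M] [Module.Finite R M]
    [AddCommGroup Q] [Module R Q] [Finite Q] : Finite (M →ₗ[R] Q) := by
  obtain ⟨s, hs⟩ := (Module.finite_def.mp (inferInstance : Module.Finite R M))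
  refine Finite.of_injective (fun (f : M →ₗ[R] Q) (x : s) => f x.1) ?_
  intro f g hfg
  refine LinearMap.ext_on hs ?_
  intro x hx
  exact congrFun hfg ⟨x, hx⟩

variable {n : ℕ} {α : Fin n → R}

/-- The count for a complete intersection. -/
lemma card_hom_ci (hα : CoeffMem α) :
    Nat.card ((Ideal.span (Set.range α)) →ₗ[R] (R ⧸ Ideal.span (Set.range α)))
      = Nat.card (R ⧸ Ideal.span (Set.range α)) ^ n := by
  have hQ : ∀ a ∈ Ideal.span (Set.range α), ∀ q : R ⧸ Ideal.span (Set.range α), a • q = 0 :=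
    fun a ha q => smul_quot_eq_zero ha q
  have e : ((Ideal.span (Set.range α)) →ₗ[R] (R ⧸ Ideal.span (Set.range α)))
      ≃ (Fin n → (R ⧸ Ideal.span (Set.range α))) :=
    Equiv.ofBijective (fun g i => g ⟨α i, mem_span_range α i⟩)
      ⟨fun g g' h => hom_span_ext g g' (fun i => congrFun h i),
       fun h => by
        obtain ⟨g, hg⟩ := exists_hbar hα hQ h
        exact ⟨g, funext hg⟩⟩
  rw [Nat.card_congr e, Nat.card_fun, Nat.card_fin]

lemma coeffMem_of_isRegular (rs : List R) (h : IsRegular R rs) :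
    CoeffMem (fun i : Fin rs.length => rs.get i) := by
  intro f hf
  have := coeff_mem_of_isWeaklyRegular rs h.toIsWeaklyRegular f hf
  rw [ofList_eq_span_range] at this
  exact this

/-- Hypothesis on the local ring: quotients by regular sequences of length `c` are finite with
small socle. -/
def GoodRing (R : Type*) [CommRing R] [IsLocalRing R] (c : ℕ) : Prop :=
  ∀ rs : List R, rs.length = c → IsRegular R rs →
    Finite (R ⧸ Ideal.ofList rs) ∧
      Nat.card (soc R (R ⧸ Ideal.ofList rs)) ≤ Nat.card (R ⧸ maximalIdeal R)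

theorem card_hom_of_isLicci [IsLocalRing R] [IsNoetherianRing R] {c : ℕ} (hR : GoodRing R c)
    {I : Ideal R} (h : IsLicci c I) :
    Nat.card (I →ₗ[R] (R ⧸ I)) = Nat.card (R ⧸ I) ^ c := by
  obtain ⟨rs, hlen, hreg, hchain⟩ := h
  induction hchain using Relation.ReflTransGen.head_induction_on with
  | refl =>
    have h1 := card_hom_ci (coeffMem_of_isRegular rs hreg)
    rw [← ofList_eq_span_range, hlen] at h1
    exact h1
  | @head I J hIJ _ ih =>
    obtain ⟨_, _, as, halen, hareg, hle, hJI, hIJ'⟩ := hIJ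
    obtain ⟨hfin, hsoc⟩ := hR as halen hareg
    have hα := coeffMem_of_isRegular as hareg
    have hspan := ofList_eq_span_range as
    have hJ2 : ∀ x, x ∈ J ↔ ∀ y ∈ I, x * y ∈ Ideal.ofList as := by
      intro x
      conv_lhs => rw [hJI]
      rw [Submodule.mem_colon]
      rfl
    have hI2 : ∀ x, x ∈ I ↔ ∀ y ∈ J, x * y ∈ Ideal.ofList as := by
      intro x
      conv_lhs => rw [hIJ']
      rw [Submodule.mem_colon]
      rfl
    have hleI : Ideal.ofList as ≤ I := le_trans hle inf_le_left
    have hleJ : Ideal.ofList as ≤ J := le_trans hle inf_le_right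
    have hfRI : Finite (R ⧸ I) := Finite.of_surjective _ (fac_surjective hleI)
    have hfRJ : Finite (R ⧸ J) := Finite.of_surjective _ (fac_surjective hleJ)
    have hfI : Finite (I →ₗ[R] (R ⧸ I)) := finite_hom_of_fg
    have hfJ : Finite (J →ₗ[R] (R ⧸ J)) := finite_hom_of_fg
    rw [hspan] at hfin hsoc hJ2 hI2 hleI hleJ
    have key := card_hom_link I J hleI hleJ hJ2 hI2 hα hsoc hfI hfJ
    rw [halen, ih] at key
    have hpos : 0 < Nat.card (R ⧸ J) ^ c := Nat.pow_pos Nat.card_pos
    apply Nat.eq_of_mul_eq_mul_right hpos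
    rw [key]
    ring

end Pool.Agent.Helper40.Licci
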