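import Mathlib
import Pool.Agent.Helper40.Licci.LicciCount

/-!
A Gorenstein ideal of deviation two that is not syzygetic has too many homomorphisms
to `R/I`.
-/

namespace Pool.Agent.Helper40.Licci

open IsLocalRing Submodule RingTheory.Sequence

variable {R : Type*} [CommRing R]

/-- the pairing of two tuples over a commutative ring, linear in both -/
def pair (n : ℕ) (S : Type*) [CommRing S] [Algebra R S] :
    ((Fin n → S) × S × S) →ₗ[R] ((Fin n → S) × S × S) →ₗ[R] S :=
  LinearMap.mk₂ R (fun z w => (∑ i, z.1 i * w.1 i) + z.2.1 * w.2.1 + z.2.2 * w.2.2)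
    (by
      intro z z' w
      simp only [Prod.fst_add, Prod.snd_add, Pi.add_apply, add_mul, Finset.sum_add_distrib]
      ring)
    (by
      intro r z w
      simp only [Prod.smul_fst, Prod.smul_snd, Pi.smul_apply, Algebra.smul_mul_assoc, smul_add,
        Finset.smul_sum])
    (by
      intro z w w'
      simp only [Prod.fst_add, Prod.snd_add, Pi.add_apply, mul_add, Finset.sum_add_distrib]
      ring)
    (by
      intro r z w
      simp only [Prod.smul_fst, Prod.smul_snd, Pi.smul_apply, Algebra.mul_smul_comm, smul_add,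
        Finset.smul_sum])

lemma pair_apply (n : ℕ) (S : Type*) [CommRing S] [Algebra R S] (z w : (Fin n → S) × S × S) :
    pair (R := R) n S z w = (∑ i, z.1 i * w.1 i) + z.2.1 * w.2.1 + z.2.2 * w.2.2 := rfl

theorem card_pow_lt [IsLocalRing R] {n : ℕ} {α : Fin n → R} (hα : CoeffMem α) (g1 g2 : R)
    (I : Ideal R) (hI : I = Ideal.span (Set.range α) ⊔ Ideal.span {g1, g2})
    [Finite (R ⧸ Ideal.span (Set.range α))]
    (hSA : Nat.card (soc R (R ⧸ Ideal.span (Set.range α))) ≤ Nat.card (R ⧸ maximalIdeal R))
    (hSS : Nat.card (soc R (R ⧸ I)) ≤ Nat.card (R ⧸ maximalIdeal R))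
    (hfH : Finite (I →ₗ[R] (R ⧸ I)))
    (f : Fin n → R) (a b : R) (hrel : ∑ i, f i * α i + a * g1 + b * g2 = 0)
    (hf : ∀ i, f i ∈ I) (ha : a ∈ I) (hb : b ∈ I)
    (hnt : ¬ ∃ t : R, a - t * g2 ∈ Ideal.span (Set.range α) ∧
      b + t * g1 ∈ Ideal.span (Set.range α)) :
    Nat.card (R ⧸ I) ^ n < Nat.card (I →ₗ[R] (R ⧸ I)) := by
  classical
  have hAI : Ideal.span (Set.range α) ≤ I := by rw [hI]; exact le_sup_left
  have hg1 : g1 ∈ I := by
    rw [hI]; exact Ideal.mem_sup_right (Ideal.subset_span (by simp))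
  have hg2 : g2 ∈ I := by
    rw [hI]; exact Ideal.mem_sup_right (Ideal.subset_span (by simp))
  have hfS : Finite (R ⧸ I) := Finite.of_surjective _ (fac_surjective hAI)
  -- the presentation
  let p : ((Fin n → R) × R × R) →ₗ[R] R :=
    (Fintype.linearCombination R α).coprod
      ((LinearMap.toSpanSingleton R R g1).coprod (LinearMap.toSpanSingleton R R g2))
  have hp : ∀ v, p v = (∑ i, v.1 i * α i) + (v.2.1 * g1 + v.2.2 * g2) := by
    intro v
    change Fintype.linearCombination R α v.1 + (v.2.1 • g1 + v.2.2 • g2) = _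
    rw [Fintype.linearCombination_apply]
    rfl
  have hpI : ∀ v, p v ∈ I := by
    intro v
    rw [hp]
    refine I.add_mem (hAI ?_) (I.add_mem (I.mul_mem_left _ hg1) (I.mul_mem_left _ hg2))
    exact Ideal.sum_mem _ (fun i _ => Ideal.mul_mem_left _ _ (mem_span_range α i))
  have hpsurj : ∀ x ∈ I, ∃ v, p v = x := by
    intro x hx
    rw [hI] at hx
    obtain ⟨y, hy, z, hz, rfl⟩ := Submodule.mem_sup.mp hx
    obtain ⟨u, hu⟩ := Ideal.mem_span_range_iff_exists_fun.mp hy
    obtain ⟨c, d, hcd⟩ := Ideal.mem_span_pair.mp hz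
    refine ⟨(u, c, d), ?_⟩
    rw [hp]
    change (∑ i, u i * α i) + (c * g1 + d * g2) = y + z
    rw [hu, hcd]
  let S := R ⧸ I
  let A := R ⧸ Ideal.span (Set.range α)
  let K : Submodule R ((Fin n → R) × R × R) := LinearMap.ker p
  -- reductions
  let mkS : R →ₗ[R] S := Submodule.mkQ I
  let mkA : R →ₗ[R] A := Submodule.mkQ (Ideal.span (Set.range α))
  let piS : (Fin n → R) →ₗ[R] (Fin n → S) := LinearMap.compLeft mkS (Fin n)
  let redS : ((Fin n → R) × R × R) →ₗ[R] ((Fin n → S) × S × S) :=
    piS.prodMap (mkS.prodMap mkS)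
  let redM : ((Fin n → R) × R × R) →ₗ[R] ((Fin n → S) × A × A) :=
    piS.prodMap (mkA.prodMap mkA)
  let q : ((Fin n → S) × A × A) →ₗ[R] ((Fin n → S) × S × S) :=
    (LinearMap.id).prodMap ((fac hAI).prodMap (fac hAI))
  have hq : ∀ v, q (redM v) = redS v := fun v => rfl
  let N : Submodule R ((Fin n → S) × S × S) := Submodule.map redS K
  let Kt : Submodule R ((Fin n → S) × A × A) := Submodule.map redM K
  have hfA : Finite A := inferInstanceAs (Finite (R ⧸ Ideal.span (Set.range α)))
  have hfSS : Finite S := hfS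
  -- (1)
  have step1 : Nat.card S ^ (n + 2) ≤ Nat.card (I →ₗ[R] (R ⧸ I)) * Nat.card N := by
    let T : ((Fin n → S) × S × S) →ₗ[R] (N →ₗ[R] S) :=
      (LinearMap.lcomp R S N.subtype).comp (pair (R := R) n S)
    have hT : ∀ z (w : N), T z w = pair (R := R) n S z w.1 := fun z w => rfl
    have e1 := card_ker_mul_card_range T
    have e2 : Nat.card ((Fin n → S) × S × S) = Nat.card S ^ (n + 2) := by
      rw [Nat.card_prod, Nat.card_prod, Nat.card_fun, Nat.card_fin]
      ring
    have e3 : Nat.card (LinearMap.range T) ≤ Nat.card N := by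
      refine le_trans ?_ (card_hom_le hSS _ N rfl)
      exact Nat.card_le_card_of_injective _ Subtype.val_injective
    have e4 : Nat.card (LinearMap.ker T) ≤ Nat.card (I →ₗ[R] (R ⧸ I)) := by
      let pI : ((Fin n → R) × R × R) →ₗ[R] I := LinearMap.codRestrict I p hpI
      have hpIs : Function.Surjective pI := by
        rintro ⟨x, hx⟩
        obtain ⟨v, hv⟩ := hpsurj x hx
        exact ⟨v, Subtype.ext hv⟩
      have hex : ∀ z : LinearMap.ker T, ∃ φ : I →ₗ[R] S,
          ∀ v, φ (pI v) = (pair (R := R) n S z.1).comp redS v := by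
        intro z
        apply exists_descend pI hpIs
        intro v hv
        have hvK : v ∈ K := by
          have := congrArg Subtype.val (LinearMap.mem_ker.mp hv)
          exact LinearMap.mem_ker.mpr this
        have h1 := LinearMap.congr_fun (LinearMap.mem_ker.mp z.2)
          ⟨redS v, Submodule.mem_map_of_mem hvK⟩
        rw [LinearMap.mem_ker]
        exact h1
      choose F hF using hex
      refine Nat.card_le_card_of_injective F ?_
      intro z z' hzz
      have h2 : ∀ v, pair (R := R) n S z.1 (redS v) = pair (R := R) n S z'.1 (redS v) := by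
        intro v
        have h3 := hF z v
        rw [hzz, hF z' v] at h3
        exact h3.symm
      apply Subtype.ext
      refine Prod.ext ?_ (Prod.ext ?_ ?_)
      · funext i
        have h3 := h2 (Pi.single i 1, 0, 0)
        rw [pair_apply, pair_apply] at h3
        have h4 : redS (Pi.single i 1, 0, 0) = (Pi.single i 1, 0, 0) := by
          refine Prod.ext ?_ (Prod.ext (map_zero mkS) (map_zero mkS))
          funext j
          change mkS ((Pi.single i 1 : Fin n → R) j) = (Pi.single i 1 : Fin n → S) j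
          by_cases hij : j = i
          · subst hij
            rw [Pi.single_eq_same, Pi.single_eq_same]; rfl
          · rw [Pi.single_eq_of_ne hij, Pi.single_eq_of_ne hij, map_zero]
        rw [h4] at h3
        simpa [Pi.single_apply] using h3
      · have h3 := h2 (0, 1, 0)
        rw [pair_apply, pair_apply] at h3
        have h4 : redS (0, 1, 0) = (0, 1, 0) := by
          refine Prod.ext ?_ (Prod.ext rfl (map_zero mkS))
          funext j
          exact map_zero mkS
        rw [h4] at h3
        simpa using h3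
      · have h3 := h2 (0, 0, 1)
        rw [pair_apply, pair_apply] at h3
        have h4 : redS (0, 0, 1) = (0, 0, 1) := by
          refine Prod.ext ?_ (Prod.ext (map_zero mkS) rfl)
          funext j
          exact map_zero mkS
        rw [h4] at h3
        simpa using h3
    rw [e2] at e1
    rw [← e1]
    exact Nat.mul_le_mul e4 e3
  -- (2)
  let pbar : (A × A) →ₗ[R] A := (g1 • LinearMap.id).coprod (g2 • LinearMap.id)
  have hpbar : ∀ x, pbar x = g1 • x.1 + g2 • x.2 := fun x => rfl
  have hrange : LinearMap.range pbar = LinearMap.ker (fac hAI) := by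
    apply le_antisymm
    · rintro _ ⟨⟨x, y⟩, rfl⟩
      obtain ⟨x, rfl⟩ := Submodule.Quotient.mk_surjective _ x
      obtain ⟨y, rfl⟩ := Submodule.Quotient.mk_surjective _ y
      rw [hpbar, LinearMap.mem_ker, map_add, map_smul, map_smul, smul_quot_eq_zero hg1,
        smul_quot_eq_zero hg2, add_zero]
    · intro y hy
      obtain ⟨x, hx, rfl⟩ := exists_of_mem_ker_fac hAI hy
      obtain ⟨v, hv⟩ := hpsurj x hx
      refine ⟨(mkA v.2.1, mkA v.2.2), ?_⟩
      rw [hpbar]
      change g1 • mkA v.2.1 + g2 • mkA v.2.2 = mkA x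
      rw [← map_smul, ← map_smul, ← map_add, ← hv, hp]
      change Submodule.Quotient.mk _ = Submodule.Quotient.mk _
      rw [Submodule.Quotient.eq]
      have h1 : g1 • v.2.1 + g2 • v.2.2 - ((∑ i, v.1 i * α i) + (v.2.1 * g1 + v.2.2 * g2))
          = - ∑ i, v.1 i * α i := by
        simp only [smul_eq_mul]; ring
      rw [h1]
      exact (Ideal.neg_mem_iff _).mpr
        (Ideal.sum_mem _ (fun i _ => Ideal.mul_mem_left _ _ (mem_span_range α i)))
  let pr : Kt →ₗ[R] (LinearMap.ker pbar) :=
    LinearMap.codRestrict (LinearMap.ker pbar) ((LinearMap.snd R (Fin n → S) (A × A)).comp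
      Kt.subtype) (by
        rintro ⟨_, v, hv, rfl⟩
        have hv' : p v = 0 := LinearMap.mem_ker.mp hv
        rw [hp] at hv'
        rw [LinearMap.mem_ker]
        change g1 • mkA v.2.1 + g2 • mkA v.2.2 = 0
        rw [← map_smul, ← map_smul, ← map_add]
        change Submodule.Quotient.mk _ = (0 : A)
        rw [Submodule.Quotient.mk_eq_zero]
        have h1 : g1 • v.2.1 + g2 • v.2.2 = - ∑ i, v.1 i * α i := by
          simp only [smul_eq_mul]; linear_combination hv'
        rw [h1]
        exact (Ideal.neg_mem_iff _).mpr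
          (Ideal.sum_mem _ (fun i _ => Ideal.mul_mem_left _ _ (mem_span_range α i))))
  have hprsurj : Function.Surjective pr := by
    rintro ⟨⟨x, y⟩, hxy⟩
    obtain ⟨x, rfl⟩ := Submodule.Quotient.mk_surjective _ x
    obtain ⟨y, rfl⟩ := Submodule.Quotient.mk_surjective _ y
    rw [LinearMap.mem_ker, hpbar] at hxy
    change g1 • mkA x + g2 • mkA y = 0 at hxy
    rw [← map_smul, ← map_smul, ← map_add] at hxy
    change Submodule.Quotient.mk _ = (0 : A) at hxy
    rw [Submodule.Quotient.mk_eq_zero] at hxy
    obtain ⟨u, hu⟩ := Ideal.mem_span_range_iff_exists_fun.mp hxy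
    have hK : ((fun i => - u i, x, y) : (Fin n → R) × R × R) ∈ K := by
      rw [LinearMap.mem_ker, hp]
      change (∑ i, (- u i) * α i) + (x * g1 + y * g2) = 0
      have h1 : (∑ i, (- u i) * α i) = - ∑ i, u i * α i := by
        rw [← Finset.sum_neg_distrib]
        exact Finset.sum_congr rfl (fun i _ => by ring)
      rw [h1, hu]
      simp only [smul_eq_mul]; ring
    refine ⟨⟨redM (fun i => - u i, x, y), Submodule.mem_map_of_mem hK⟩, ?_⟩
    apply Subtype.ext
    rfl
  have hprinj : Function.Injective pr := by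
    rw [← LinearMap.ker_eq_bot, LinearMap.ker_eq_bot']
    rintro ⟨_, v, hv, rfl⟩ h0
    have h1 : ((mkA v.2.1, mkA v.2.2) : A × A) = 0 := congrArg Subtype.val h0
    have h2 : v.2.1 ∈ Ideal.span (Set.range α) :=
      (Submodule.Quotient.mk_eq_zero _).mp (congrArg Prod.fst h1)
    have h3 : v.2.2 ∈ Ideal.span (Set.range α) :=
      (Submodule.Quotient.mk_eq_zero _).mp (congrArg Prod.snd h1)
    obtain ⟨c, hc⟩ := Ideal.mem_span_range_iff_exists_fun.mp h2
    obtain ⟨d, hd⟩ := Ideal.mem_span_range_iff_exists_fun.mp h3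
    have hv' : p v = 0 := LinearMap.mem_ker.mp hv
    rw [hp] at hv'
    have h4 : ∑ i, (v.1 i + c i * g1 + d i * g2) * α i = 0 := by
      have : ∑ i, (v.1 i + c i * g1 + d i * g2) * α i
        = (∑ i, v.1 i * α i) + (∑ i, c i * α i) * g1 + (∑ i, d i * α i) * g2 := by
        rw [Finset.sum_mul, Finset.sum_mul, ← Finset.sum_add_distrib, ← Finset.sum_add_distrib]
        exact Finset.sum_congr rfl (fun i _ => by ring)
      rw [this, hc, hd]
      linear_combination hv'
    have h5 := hα _ h4
    apply Subtype.ext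
    refine Prod.ext ?_ h1
    funext i
    change mkS (v.1 i) = 0
    change Submodule.Quotient.mk _ = (0 : S)
    rw [Submodule.Quotient.mk_eq_zero]
    have h6 : v.1 i = (v.1 i + c i * g1 + d i * g2) - c i * g1 - d i * g2 := by ring
    rw [h6]
    exact I.sub_mem (I.sub_mem (hAI (h5 i)) (I.mul_mem_left _ hg1)) (I.mul_mem_left _ hg2)
  have hKt : Nat.card Kt = Nat.card (LinearMap.ker pbar) :=
    Nat.card_congr (Equiv.ofBijective pr ⟨hprinj, hprsurj⟩)
  have e5 := card_ker_mul_card_range pbar
  rw [hrange, Nat.card_prod] at e5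
  have e6 : Nat.card (LinearMap.ker (fac hAI)) * Nat.card S = Nat.card A :=
    card_ker_mul_card_of_surjective (fac hAI) (fac_surjective hAI)
  -- |Kt| * |ker fac| = |A|^2, |ker fac| * |S| = |A|
  have hkpos : 0 < Nat.card (LinearMap.ker (fac hAI)) := Nat.card_pos
  have hApos : 0 < Nat.card A := Nat.card_pos
  have hSpos : 0 < Nat.card S := Nat.card_pos
  have step2 : Nat.card Kt = Nat.card A * Nat.card S := by
    have h1 : Nat.card Kt * Nat.card (LinearMap.ker (fac hAI))
        = (Nat.card A * Nat.card S) * Nat.card (LinearMap.ker (fac hAI)) := by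
      rw [hKt]
      calc Nat.card (LinearMap.ker pbar) * Nat.card (LinearMap.ker (fac hAI))
          = Nat.card A * Nat.card A := e5
        _ = Nat.card A * (Nat.card (LinearMap.ker (fac hAI)) * Nat.card S) := by rw [e6]
        _ = _ := by ring
    exact Nat.eq_of_mul_eq_mul_right hkpos h1
  -- (3)
  let qK : Kt →ₗ[R] N := LinearMap.codRestrict N (q.comp Kt.subtype) (by
    rintro ⟨_, v, hv, rfl⟩
    exact ⟨v, hv, rfl⟩)
  have hqK : Function.Surjective qK := by
    rintro ⟨_, v, hv, rfl⟩
    exact ⟨⟨redM v, Submodule.mem_map_of_mem hv⟩, rfl⟩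
  have step3 := card_ker_mul_card_of_surjective qK hqK
  -- (4)
  let τ0 : A →ₗ[R] ((Fin n → S) × A × A) :=
    LinearMap.prod 0 (LinearMap.prod (g2 • LinearMap.id) (-(g1 • LinearMap.id)))
  have hτ0 : ∀ t, τ0 t = (0, g2 • t, -(g1 • t)) := fun t => rfl
  let τ : A →ₗ[R] (LinearMap.ker qK) :=
    LinearMap.codRestrict (LinearMap.ker qK) (LinearMap.codRestrict Kt τ0 (by
      intro t
      obtain ⟨t, rfl⟩ := Submodule.Quotient.mk_surjective _ t
      refine ⟨(0, g2 * t, - (g1 * t)), ?_, ?_⟩
      · change p _ = 0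
        rw [hp]
        change (∑ i, (0 : Fin n → R) i * α i) + (g2 * t * g1 + - (g1 * t) * g2) = 0
        simp only [Pi.zero_apply, zero_mul, Finset.sum_const_zero]
        ring
      · refine Prod.ext ?_ (Prod.ext rfl rfl)
        funext i
        exact map_zero mkS)) (by
      intro t
      rw [LinearMap.mem_ker]
      apply Subtype.ext
      refine Prod.ext rfl (Prod.ext ?_ ?_)
      · change fac hAI (g2 • t) = 0
        rw [map_smul, smul_quot_eq_zero hg2]
      · change fac hAI (-(g1 • t)) = 0
        rw [map_neg, map_smul, smul_quot_eq_zero hg1, neg_zero])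
  have hτ : ∀ t, ((τ t).1.1) = (0, g2 • t, -(g1 • t)) := fun t => rfl
  have e7 := card_ker_mul_card_range (R := R) (M := A) (N := LinearMap.ker qK) τ
  have e8 : Nat.card (LinearMap.ker τ) ≤ Nat.card S := by
    refine le_trans ?_ (card_torsion_le hSA I)
    refine Nat.card_le_card_of_injective (fun t => ⟨t.1, ?_⟩) ?_
    · have h0 : ((τ t.1).1.1) = (0, 0, 0) := by
        rw [LinearMap.mem_ker.mp t.2]; rfl
      rw [hτ] at h0
      have h2 : g2 • t.1 = 0 := congrArg (fun w => w.2.1) h0
      have h1 : g1 • t.1 = 0 := by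
        have : -(g1 • t.1) = 0 := congrArg (fun w => w.2.2) h0
        exact neg_eq_zero.mp this
      rw [Submodule.mem_torsionBySet_iff]
      rintro ⟨x, hx⟩
      obtain ⟨v, hv⟩ := hpsurj x hx
      change x • t.1 = 0
      rw [← hv, hp, add_smul, add_smul, mul_smul, mul_smul, h1, h2, smul_zero, smul_zero,
        add_zero, add_zero]
      exact smul_quot_eq_zero
        (Ideal.sum_mem _ (fun i _ => Ideal.mul_mem_left _ _ (mem_span_range α i))) _
    · intro x y hxy
      have h1 : (x : A) = y := congrArg (fun w => w.1) hxy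
      exact Subtype.ext h1
  have hspecial : Nat.card (LinearMap.range τ) < Nat.card (LinearMap.ker qK) := by
    have hne : (LinearMap.range τ) ≠ ⊤ := by
      intro htop
      have hK : ((f, a, b) : (Fin n → R) × R × R) ∈ K := by
        rw [LinearMap.mem_ker, hp]
        change (∑ i, f i * α i) + (a * g1 + b * g2) = 0
        linear_combination hrel
      have hqz : (⟨redM (f, a, b), Submodule.mem_map_of_mem hK⟩ : Kt) ∈ LinearMap.ker qK := by
        rw [LinearMap.mem_ker]
        apply Subtype.ext
        refine Prod.ext ?_ (Prod.ext ?_ ?_)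
        · funext i
          exact (Submodule.Quotient.mk_eq_zero _).mpr (hf i)
        · exact (Submodule.Quotient.mk_eq_zero _).mpr ha
        · exact (Submodule.Quotient.mk_eq_zero _).mpr hb
      have hmem : (⟨⟨redM (f, a, b), Submodule.mem_map_of_mem hK⟩, hqz⟩ : LinearMap.ker qK)
          ∈ LinearMap.range τ := by rw [htop]; trivial
      obtain ⟨t, ht⟩ := hmem
      have h0 : ((τ t).1.1) = redM (f, a, b) := by rw [ht]
      rw [hτ] at h0
      obtain ⟨t, rfl⟩ := Submodule.Quotient.mk_surjective _ t
      apply hnt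
      refine ⟨t, ?_, ?_⟩
      · have h1 : g2 • mkA t = mkA a := congrArg (fun w => w.2.1) h0
        rw [← map_smul] at h1
        have h2 : (g2 • t) - a ∈ Ideal.span (Set.range α) := (Submodule.Quotient.eq _).mp h1
        have h3 : a - t * g2 = - ((g2 • t) - a) := by simp only [smul_eq_mul]; ring
        rw [h3]
        exact (Ideal.neg_mem_iff _).mpr h2
      · have h1 : -(g1 • mkA t) = mkA b := congrArg (fun w => w.2.2) h0
        rw [← map_smul, ← map_neg] at h1
        have h2 : -(g1 • t) - b ∈ Ideal.span (Set.range α) := (Submodule.Quotient.eq _).mp h1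
        have h3 : b + t * g1 = - (-(g1 • t) - b) := by simp only [smul_eq_mul]; ring
        rw [h3]
        exact (Ideal.neg_mem_iff _).mpr h2
    by_contra hge
    push Not at hge
    apply hne
    have : (LinearMap.range τ : Set (LinearMap.ker qK)) = Set.univ := by
      apply Set.eq_of_subset_of_ncard_le (Set.subset_univ _)
      rw [Set.ncard_univ]
      exact hge
    exact SetLike.coe_injective this
  -- conclusion
  by_contra hcon
  push Not at hcon
  have hNge : Nat.card S ^ 2 ≤ Nat.card N := by
    have h1 : Nat.card S ^ n * Nat.card S ^ 2 ≤ Nat.card S ^ n * Nat.card N := by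
      rw [← pow_add]
      exact le_trans step1 (Nat.mul_le_mul_right _ hcon)
    exact Nat.le_of_mul_le_mul_left h1 (Nat.pow_pos hSpos)
  rw [step2] at step3
  have h1 : Nat.card A ≤ Nat.card S * Nat.card (LinearMap.range τ) := by
    rw [← e7]
    exact Nat.mul_le_mul_right _ e8
  have h2 : Nat.card S * Nat.card A ≤ Nat.card S ^ 2 * Nat.card (LinearMap.range τ) := by
    calc Nat.card S * Nat.card A ≤ Nat.card S * (Nat.card S * Nat.card (LinearMap.range τ)) :=
          Nat.mul_le_mul_left _ h1
      _ = _ := by ring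
  have h3 : Nat.card S ^ 2 * Nat.card (LinearMap.range τ)
      < Nat.card S ^ 2 * Nat.card (LinearMap.ker qK) :=
    Nat.mul_lt_mul_of_pos_left hspecial (Nat.pow_pos hSpos)
  have h4 : Nat.card S ^ 2 * Nat.card (LinearMap.ker qK)
      ≤ Nat.card N * Nat.card (LinearMap.ker qK) := Nat.mul_le_mul_right _ hNge
  have h5 : Nat.card N * Nat.card (LinearMap.ker qK) = Nat.card A * Nat.card S := by
    rw [mul_comm]; exact step3
  have h6 : Nat.card S * Nat.card A < Nat.card A * Nat.card S := by
    calc _ ≤ _ := h2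
      _ < _ := h3
      _ ≤ _ := h4
      _ = _ := h5
  rw [mul_comm] at h6
  exact lt_irrefl _ h6

end Pool.Agent.Helper40.Licci
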