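import Mathlib
import Pool.Agent.Helper40.Licci.ExtShift
import Pool.Agent.Helper40.Licci.LicciCount

/-!
Local rings with finite residue field whose maximal ideal is generated by a regular sequence.
-/

namespace Pool.Agent.Helper40.Licci

open CategoryTheory Abelian IsLocalRing RingTheory.Sequence Pointwise

universe u

variable {R : Type u} [CommRing R] [IsLocalRing R]

/-- The maximal ideal is generated by the regular sequence `xs` (of length `c`). -/
structure Params (R : Type u) [CommRing R] [IsLocalRing R] (c : ℕ) (xs : List R) : Prop where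
  reg : IsRegular R xs
  span : Ideal.ofList xs = maximalIdeal R
  len : xs.length = c

lemma mem_max_of_isRegular (rs : List R) (h : IsRegular R rs) : ∀ r ∈ rs, r ∈ maximalIdeal R := by
  intro r hr
  have h1 : Ideal.ofList rs ≠ ⊤ := by
    have := h.top_ne_smul
    rw [smul_eq_mul, Ideal.mul_top] at this
    exact this.symm
  exact le_maximalIdeal h1 (Ideal.subset_span hr)

lemma ofList_ne_top (rs : List R) (h : IsRegular R rs) : Ideal.ofList rs ≠ ⊤ := by
  have := h.top_ne_smul
  rw [smul_eq_mul, Ideal.mul_top] at this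
  exact this.symm

lemma Params.mem {c : ℕ} {xs : List R} (hx : Params R c xs) : ∀ r ∈ xs, r ∈ maximalIdeal R :=
  mem_max_of_isRegular xs hx.reg

lemma card_soc_quot_eq (rs : List R) (h : IsRegular R rs) :
    Nat.card (Ext (kk R) (ModuleCat.of R R) rs.length)
      = Nat.card (soc R (R ⧸ Ideal.ofList rs)) := by
  have h1 := card_ext_weaklyRegular rs (mem_max_of_isRegular rs h) (ModuleCat.of R R)
    h.toIsWeaklyRegular
  rw [h1, ← card_hom_residue, ← card_hom_residue]
  exact Nat.card_congr (LinearEquiv.congrRight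
    (Submodule.quotEquivOfEq _ _ (by
      change Ideal.ofList rs • (⊤ : Ideal R) = Ideal.ofList rs
      rw [smul_eq_mul, Ideal.mul_top]))).toEquiv

lemma soc_residue : soc R (R ⧸ maximalIdeal R) = ⊤ := by
  rw [eq_top_iff]
  intro x _
  rw [Submodule.mem_torsionBySet_iff]
  rintro ⟨a, ha⟩
  exact smul_quot_eq_zero ha x

lemma Params.card_soc {c : ℕ} {xs : List R} (hx : Params R c xs) (rs : List R)
    (hl : rs.length = c) (h : IsRegular R rs) :
    Nat.card (soc R (R ⧸ Ideal.ofList rs)) = Nat.card (R ⧸ maximalIdeal R) := by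
  have h1 := card_soc_quot_eq rs h
  have h2 := card_soc_quot_eq xs hx.reg
  rw [hl] at h1
  rw [hx.len, h1, hx.span, soc_residue] at h2
  rw [h2]
  exact Nat.card_congr (Submodule.topEquiv).toEquiv

section Dim

variable [IsNoetherianRing R]

lemma Params.dim {c : ℕ} {xs : List R} (hx : Params R c xs) : ringKrullDim R = c := by
  have h := ringKrullDim_add_length_eq_ringKrullDim_of_isRegular xs hx.reg
  have h0 : ringKrullDim (R ⧸ Ideal.ofList xs) = 0 := by
    apply ringKrullDim_eq_zero_of_isField
    rw [← Ideal.Quotient.maximal_ideal_iff_isField_quotient, hx.span]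
    exact maximalIdeal.isMaximal R
  rw [h0, zero_add, hx.len] at h
  exact h.symm

lemma Params.length_le {c : ℕ} {xs : List R} (hx : Params R c xs) (rs : List R)
    (h : IsRegular R rs) : rs.length ≤ c := by
  have h1 := ringKrullDim_add_length_eq_ringKrullDim_of_isRegular rs h
  rw [hx.dim] at h1
  have hn : Nontrivial (R ⧸ Ideal.ofList rs) :=
    Ideal.Quotient.nontrivial_iff.mpr (ofList_ne_top rs h)
  have h2 : (0 : WithBot ℕ∞) ≤ ringKrullDim (R ⧸ Ideal.ofList rs) := ringKrullDim_nonneg_of_nontrivial
  have h3 : ((rs.length : ℕ) : WithBot ℕ∞) ≤ c := by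
    calc ((rs.length : ℕ) : WithBot ℕ∞) = 0 + rs.length := (zero_add _).symm
      _ ≤ ringKrullDim (R ⧸ Ideal.ofList rs) + rs.length := by gcongr
      _ = c := h1
  exact_mod_cast h3

lemma Params.finite {c : ℕ} {xs : List R} (hx : Params R c xs) [Finite (ResidueField R)]
    (rs : List R) (hl : rs.length = c) (h : IsRegular R rs) :
    Finite (R ⧸ Ideal.ofList rs) := by
  have h1 := ringKrullDim_add_length_eq_ringKrullDim_of_isRegular rs h
  rw [hx.dim, hl] at h1
  have hn : Nontrivial (R ⧸ Ideal.ofList rs) :=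
    Ideal.Quotient.nontrivial_iff.mpr (ofList_ne_top rs h)
  have h0 : ringKrullDim (R ⧸ Ideal.ofList rs) = 0 := by
    have h2 : ringKrullDim (R ⧸ Ideal.ofList rs) + (c : WithBot ℕ∞) = 0 + c := by
      rw [h1, zero_add]
    exact (ENat.WithBot.add_natCast_cancel).mp h2
  have h3 : Ring.KrullDimLE 0 (R ⧸ Ideal.ofList rs) := by
    rw [ringKrullDimZero_iff_ringKrullDim_eq_zero]
    exact h0
  have h4 : IsArtinianRing (R ⧸ Ideal.ofList rs) :=
    isArtinianRing_iff_krullDimLE_zero.mpr h3
  exact finite_quotient_iff.mpr (exists_maximalIdeal_pow_le_of_isArtinianRing_quotient _)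

theorem Params.goodRing {c : ℕ} {xs : List R} (hx : Params R c xs) [Finite (ResidueField R)] :
    GoodRing R c := by
  intro rs hl h
  exact ⟨hx.finite rs hl h, le_of_eq (hx.card_soc rs hl h)⟩

end Dim

section Free

lemma mem_smul_top_pi (I : Ideal R) (b : ℕ) (v : Fin b → R) :
    v ∈ I • (⊤ : Submodule R (Fin b → R)) ↔ ∀ i, v i ∈ I := by
  constructor
  · intro h i
    refine Submodule.smul_induction_on h ?_ ?_
    · intro r hr n _
      exact I.mul_mem_right _ hr
    · intro x y hx hy
      exact I.add_mem hx hy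
  · intro h
    have : v = ∑ i, v i • (Pi.single i 1 : Fin b → R) := by
      funext j
      simp [Finset.sum_apply, Pi.single_apply]
    rw [this]
    exact Submodule.sum_mem _ (fun i _ => Submodule.smul_mem_smul (h i) trivial)

lemma card_quot_free (I : Ideal R) (b : ℕ) :
    Nat.card ((Fin b → R) ⧸ (I • (⊤ : Submodule R (Fin b → R)))) = Nat.card (R ⧸ I) ^ b := by
  let g : (Fin b → R) →ₗ[R] (Fin b → (R ⧸ I)) := LinearMap.compLeft (Submodule.mkQ I) (Fin b)
  have hg : Function.Surjective g := by
    intro w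
    choose v hv using fun i => Submodule.Quotient.mk_surjective I (w i)
    exact ⟨v, funext hv⟩
  have hk : LinearMap.ker g = I • (⊤ : Submodule R (Fin b → R)) := by
    ext v
    rw [LinearMap.mem_ker, mem_smul_top_pi]
    constructor
    · intro h i
      exact (Submodule.Quotient.mk_eq_zero _).mp (congrFun h i)
    · intro h
      funext i
      exact (Submodule.Quotient.mk_eq_zero _).mpr (h i)
  rw [← hk, Nat.card_congr (g.quotKerEquivOfSurjective hg).toEquiv, Nat.card_fun, Nat.card_fin]

lemma isWeaklyRegular_free (rs : List R) (h : IsWeaklyRegular R rs) (M : Type u)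
    [AddCommGroup M] [Module R M] [Module.Free R M] : IsWeaklyRegular M rs :=
  ((TensorProduct.rid R M).isWeaklyRegular_congr rs).mp
    (h.isWeaklyRegular_lTensor (M₂ := M))

lemma Params.subsingleton_ext_free {c : ℕ} {xs : List R} (hx : Params R c xs) (M : ModuleCat.{u} R)
    [Module.Free R M] (i : ℕ) (hi : i < c) : Subsingleton (Ext (kk R) M i) :=
  subsingleton_ext_of_weaklyRegular xs hx.mem M
    (isWeaklyRegular_free xs hx.reg.toIsWeaklyRegular M) i (by rw [hx.len]; exact hi)

lemma Params.card_ext_free {c : ℕ} {xs : List R} (hx : Params R c xs) (M : ModuleCat.{u} R)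
    (b : ℕ) (e : M ≃ₗ[R] (Fin b → R)) :
    Nat.card (Ext (kk R) M c) = Nat.card (R ⧸ maximalIdeal R) ^ b := by
  have hf : Module.Free R M := Module.Free.of_equiv e.symm
  have h1 := card_ext_weaklyRegular xs hx.mem M
    (isWeaklyRegular_free xs hx.reg.toIsWeaklyRegular M)
  rw [hx.len, hx.span] at h1
  rw [h1]
  have h2 : soc R (M ⧸ (maximalIdeal R • (⊤ : Submodule R M))) = ⊤ := by
    rw [eq_top_iff]
    intro x _
    rw [Submodule.mem_torsionBySet_iff]
    rintro ⟨a, ha⟩
    obtain ⟨y, rfl⟩ := Submodule.Quotient.mk_surjective _ x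
    change a • (Submodule.Quotient.mk y : M ⧸ (maximalIdeal R • (⊤ : Submodule R M))) = 0
    rw [← Submodule.Quotient.mk_smul, Submodule.Quotient.mk_eq_zero]
    exact Submodule.smul_mem_smul ha trivial
  rw [h2, Nat.card_congr (Submodule.topEquiv).toEquiv, ← card_quot_free]
  refine Nat.card_congr (Submodule.Quotient.equiv _ _ e ?_).toEquiv
  rw [Submodule.map_smul'', Submodule.map_top, LinearMap.range_eq_top.mpr e.surjective]

end Free

end Pool.Agent.Helper40.Licci
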