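import Mathlib
import Pool.Agent.Helper40.Licci.Params

/-!
Minimal free resolutions over a local ring: existence, length, last rank.
-/

namespace Pool.Agent.Helper40.Licci

open CategoryTheory Abelian IsLocalRing RingTheory.Sequence Pointwise

universe u

variable {R : Type u} [CommRing R] [IsLocalRing R]

/-- Every finite module has a minimal cover by a free module. -/
theorem exists_minimal_cover (M : Type u) [AddCommGroup M] [Module R M] [Module.Finite R M] :
    ∃ (b : ℕ) (f : (Fin b → R) →ₗ[R] M), Function.Surjective f ∧
      LinearMap.ker f ≤ maximalIdeal R • (⊤ : Submodule R (Fin b → R)) := by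
  classical
  have hex : ∃ n : ℕ, ∃ s : Finset M, s.card = n ∧ Submodule.span R (s : Set M) = ⊤ := by
    obtain ⟨s, hs⟩ := (Module.finite_def.mp (inferInstance : Module.Finite R M))
    exact ⟨s.card, s, rfl, hs⟩
  obtain ⟨s, hcard, hs⟩ := Nat.find_spec hex
  have hmin : ∀ t : Finset M, Submodule.span R (t : Set M) = ⊤ → s.card ≤ t.card := by
    intro t ht
    rw [hcard]
    exact Nat.find_min' hex ⟨t, rfl, ht⟩
  let e : Fin s.card ≃ s := s.equivFin.symm
  let v : Fin s.card → M := fun i => (e i : M)
  have hv : Function.Injective v := by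
    intro i j hij
    exact e.injective (Subtype.ext hij)
  have hrange : Set.range v = (s : Set M) := by
    ext x
    constructor
    · rintro ⟨i, rfl⟩; exact (e i).2
    · intro hx
      exact ⟨e.symm ⟨x, hx⟩, by simp [v]⟩
  refine ⟨s.card, Fintype.linearCombination R v, ?_, ?_⟩
  · rw [← LinearMap.range_eq_top, Fintype.range_linearCombination, hrange, hs]
  · intro w hw
    rw [mem_smul_top_pi]
    intro i
    by_contra hi
    have hu : IsUnit (w i) := by
      by_contra hnu
      exact hi ((mem_maximalIdeal _).mpr hnu)
    obtain ⟨u, hu⟩ := hu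
    have hsum : ∑ j, w j • v j = 0 := by
      have := LinearMap.mem_ker.mp hw
      rwa [Fintype.linearCombination_apply] at this
    have hlt : (s.erase (v i)).card < s.card := by
      apply Finset.card_erase_lt_of_mem
      exact (e i).2
    have hspan : Submodule.span R ((s.erase (v i) : Finset M) : Set M) = ⊤ := by
      rw [eq_top_iff, ← hs, Submodule.span_le]
      intro x hx
      by_cases hxi : x = v i
      · have h1 : w i • v i = - ∑ j ∈ Finset.univ.erase i, w j • v j := by
          rw [eq_neg_iff_add_eq_zero,
            Finset.add_sum_erase Finset.univ (fun j => w j • v j) (Finset.mem_univ i)]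
          exact hsum
        have h2 : v i = (↑u⁻¹ : R) • (w i • v i) := by
          rw [smul_smul, ← hu, Units.inv_mul, one_smul]
        have h3 : (↑u⁻¹ : R) • (w i • v i) ∈
            Submodule.span R ((s.erase (v i) : Finset M) : Set M) := by
          rw [h1]
          apply Submodule.smul_mem
          apply Submodule.neg_mem
          apply Submodule.sum_mem
          intro j hj
          apply Submodule.smul_mem
          apply Submodule.subset_span
          rw [Finset.coe_erase]
          exact ⟨(e j).2, fun h => (Finset.ne_of_mem_erase hj) (hv h)⟩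
        rw [← h2] at h3
        rw [hxi]
        exact h3
      · apply Submodule.subset_span
        rw [Finset.coe_erase]
        exact ⟨hx, hxi⟩
    exact absurd (hmin _ hspan) (not_le.mpr hlt)

/-- Transfer along linear equivalences. -/
theorem MinimalResolution.congr {M N : Type u} [AddCommGroup M] [Module R M] [AddCommGroup N]
    [Module R N] (e : M ≃ₗ[R] N) : ∀ (l : List ℕ), MinimalResolution R l M →
      MinimalResolution R l N := by
  intro l h
  cases l with
  | nil =>
    have : Subsingleton M := h
    exact e.symm.toEquiv.subsingleton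
  | cons b bs =>
    obtain ⟨f, hf, hk, hres⟩ := h
    have hker : LinearMap.ker (e.toLinearMap.comp f) = LinearMap.ker f := by
      rw [LinearEquiv.ker_comp]
    refine ⟨e.toLinearMap.comp f, e.surjective.comp hf, ?_, ?_⟩
    · rw [hker]; exact hk
    · rw [hker]; exact hres

/-- Existence of minimal resolutions of modules of finite projective dimension. -/
theorem exists_minimalResolution [IsNoetherianRing R] : ∀ (n : ℕ) (M : Type u) [AddCommGroup M]
    [Module R M] [Module.Finite R M], HasProjectiveDimensionLT (ModuleCat.of R M) (n + 1) →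
      ∃ l : List ℕ, l.length = n + 1 ∧ MinimalResolution R l M := by
  intro n
  induction n with
  | zero =>
    intro M _ _ _ h
    have h1 : Projective (ModuleCat.of R M) := projective_iff_hasProjectiveDimensionLT_one.mpr h
    have h2 : Module.Projective R M := (IsProjective.iff_projective _).mpr h1
    have h3 : Module.Free R M := Module.free_of_flat_of_isLocalRing
    let e : M ≃ₗ[R] (Fin (Module.finrank R M) → R) := (Module.finBasis R M).equivFun
    refine ⟨[Module.finrank R M], rfl, e.symm.toLinearMap, e.symm.surjective, ?_, ?_⟩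
    · rw [LinearEquiv.ker]; exact bot_le
    · change Subsingleton (LinearMap.ker e.symm.toLinearMap)
      rw [LinearEquiv.ker]
      infer_instance
  | succ n ih =>
    intro M _ _ _ h
    obtain ⟨b, f, hf, hk⟩ := exists_minimal_cover (R := R) M
    have hS := LinearMap.shortExact_shortComplexKer hf
    have hproj : Projective (ModuleCat.of R (Fin b → R)) :=
      (IsProjective.iff_projective _).mp inferInstance
    have h1 : HasProjectiveDimensionLT (ModuleCat.of R (LinearMap.ker f)) (n + 1) :=
      (hS.hasProjectiveDimensionLT_X₃_iff n hproj).mp h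
    obtain ⟨l, hl, hres⟩ := ih (LinearMap.ker f) h1
    exact ⟨b :: l, by simp [hl], f, hf, hk, hres⟩

/-- Maps from a free module with image in `𝔪 F` induce zero on `Ext(k, -)`. -/
theorem comp_eq_zero_of_free {K F : Type u} [AddCommGroup K] [Module R K] [AddCommGroup F]
    [Module R F] {t : ℕ} (e : K ≃ₗ[R] (Fin t → R)) (ι : K →ₗ[R] F)
    (hι : ∀ z, ι z ∈ maximalIdeal R • (⊤ : Submodule R F)) (n : ℕ)
    (x : Ext (kk R) (ModuleCat.of R K) n) :
    x.comp (Ext.mk₀ (ModuleCat.ofHom ι)) (add_zero n) = 0 := by
  classical
  have key : ∀ (π : K →ₗ[R] R) (y : F), y ∈ maximalIdeal R • (⊤ : Submodule R F) →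
      x.comp (Ext.mk₀ (ModuleCat.ofHom (π.smulRight y))) (add_zero n) = 0 := by
    intro π y hy
    refine Submodule.smul_induction_on hy ?_ ?_
    · intro r hr y' _
      have h1 : ModuleCat.ofHom (π.smulRight (r • y')) = r • ModuleCat.ofHom (π.smulRight y') := by
        ext z
        change π z • r • y' = r • π z • y'
        rw [smul_smul, smul_smul, mul_comm]
      rw [h1, Ext.mk₀_smul, Ext.comp_smul]
      exact ext_smul_zero _ _ _ hr _
    · intro y₁ y₂ h₁ h₂
      have h1 : ModuleCat.ofHom (π.smulRight (y₁ + y₂))
          = ModuleCat.ofHom (π.smulRight y₁) + ModuleCat.ofHom (π.smulRight y₂) := by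
        ext z
        change π z • (y₁ + y₂) = π z • y₁ + π z • y₂
        rw [smul_add]
      rw [h1, Ext.mk₀_add, Ext.comp_add, h₁, h₂, add_zero]
  have hsum : ∀ s : Finset (Fin t), x.comp (Ext.mk₀ (ModuleCat.ofHom
      (∑ j ∈ s, ((LinearMap.proj j).comp e.toLinearMap).smulRight
        (ι (e.symm (Pi.single j 1)))))) (add_zero n) = 0 := by
    intro s
    induction s using Finset.induction_on with
    | empty =>
      have : ModuleCat.ofHom (∑ j ∈ (∅ : Finset (Fin t)),
          ((LinearMap.proj j).comp e.toLinearMap).smulRight (ι (e.symm (Pi.single j 1))))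
          = (0 : ModuleCat.of R K ⟶ ModuleCat.of R F) := by
        rw [Finset.sum_empty]; rfl
      rw [this, Ext.mk₀_zero, Ext.comp_zero]
    | insert a s ha ih =>
      have : ModuleCat.ofHom (∑ j ∈ insert a s,
          ((LinearMap.proj j).comp e.toLinearMap).smulRight (ι (e.symm (Pi.single j 1))))
          = (ModuleCat.ofHom (((LinearMap.proj a).comp e.toLinearMap).smulRight
              (ι (e.symm (Pi.single a 1)))) : ModuleCat.of R K ⟶ ModuleCat.of R F)
            + ModuleCat.ofHom (∑ j ∈ s, ((LinearMap.proj j).comp e.toLinearMap).smulRight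
              (ι (e.symm (Pi.single j 1)))) := by
        rw [Finset.sum_insert ha]; rfl
      rw [this, Ext.mk₀_add, Ext.comp_add, ih, key _ _ (hι _), add_zero]
  have hι2 : ι = ∑ j, ((LinearMap.proj j).comp e.toLinearMap).smulRight
      (ι (e.symm (Pi.single j 1))) := by
    ext z
    rw [LinearMap.sum_apply]
    change ι z = ∑ j, (e z) j • ι (e.symm (Pi.single j 1))
    have h1 : z = e.symm (∑ j, (e z) j • (Pi.single j 1 : Fin t → R)) := by
      rw [LinearEquiv.eq_symm_apply]
      funext i
      simp [Finset.sum_apply, Pi.single_apply]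
    conv_lhs => rw [h1]
    rw [map_sum, map_sum]
    simp only [map_smul]
  have := hsum Finset.univ
  rw [← hι2] at this
  exact this

variable {c : ℕ} {xs : List R}

/-- Vanishing of `Ext^j(k, M)` for modules with short resolutions. -/
theorem subsingleton_ext_of_resolution (hx : Params R c xs) : ∀ (l : List ℕ) (j : ℕ),
    j + l.length ≤ c → ∀ (M : Type u) [AddCommGroup M] [Module R M], MinimalResolution R l M →
      Subsingleton (Ext (kk R) (ModuleCat.of R M) j) := by
  intro l
  induction l with
  | nil =>
    intro j _ M _ _ h
    have h0 : Subsingleton M := h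
    have hz : Limits.IsZero (ModuleCat.of R M) := ModuleCat.isZero_of_subsingleton _
    refine ⟨fun a b => ?_⟩
    have h1 : ∀ a : Ext (kk R) (ModuleCat.of R M) j, a = 0 := by
      intro a
      have h2 : a = a.comp (Ext.mk₀ (𝟙 (ModuleCat.of R M))) (add_zero j) := by simp
      rw [h2, (Limits.IsZero.iff_id_eq_zero _).mp hz]
      simp
    rw [h1 a, h1 b]
  | cons b bs ih =>
    intro j hj M _ _ h
    obtain ⟨f, hf, hk, hres⟩ := h
    have hS := LinearMap.shortExact_shortComplexKer hf
    have hj' : j + 1 + bs.length ≤ c := by
      simp only [List.length_cons] at hj; omega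
    have h1 := ih (j + 1) hj' (LinearMap.ker f) hres
    have h2 : Subsingleton (Ext (kk R) (ModuleCat.of R (Fin b → R)) j) :=
      hx.subsingleton_ext_free _ j (by omega)
    exact subsingleton_ext_X3 (kk R) hS j h2 h1

/-- The last rank of a minimal resolution is visible on `Ext(k, M)`. -/
theorem card_ext_of_resolution (hx : Params R c xs) (t : ℕ) : ∀ (bs : List ℕ) (j : ℕ),
    j + bs.length = c → ∀ (M : Type u) [AddCommGroup M] [Module R M],
      MinimalResolution R (bs ++ [t]) M →
      Nat.card (Ext (kk R) (ModuleCat.of R M) j) = Nat.card (R ⧸ maximalIdeal R) ^ t := by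
  intro bs
  induction bs with
  | nil =>
    intro j hj M _ _ h
    obtain ⟨f, hf, _, hres⟩ := h
    have h0 : Subsingleton (LinearMap.ker f) := hres
    have hbot : LinearMap.ker f = ⊥ := (Submodule.subsingleton_iff_eq_bot).mp h0
    have hinj : Function.Injective f := LinearMap.ker_eq_bot.mp hbot
    let e : (Fin t → R) ≃ₗ[R] M := LinearEquiv.ofBijective f ⟨hinj, hf⟩
    have hjc : j = c := by simpa using hj
    subst hjc
    exact hx.card_ext_free (ModuleCat.of R M) t e.symm
  | cons b bs ih =>
    intro j hj M _ _ h
    obtain ⟨f, hf, hk, hres⟩ := h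
    have hS := LinearMap.shortExact_shortComplexKer hf
    have hj' : j + 1 + bs.length = c := by
      simp only [List.length_cons] at hj; omega
    have h1 := ih (j + 1) hj' (LinearMap.ker f) hres
    have h2 : Subsingleton (Ext (kk R) (ModuleCat.of R (Fin b → R)) j) :=
      hx.subsingleton_ext_free _ j (by omega)
    rw [← h1]
    refine card_ext_shift (kk R) hS j h2 ?_
    intro x₁
    rcases Nat.eq_zero_or_pos bs.length with hb0 | hbpos
    · -- the kernel is free
      have hbs : bs = [] := List.length_eq_zero_iff.mp hb0
      subst hbs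
      obtain ⟨g, hg, _, hres'⟩ := hres
      have h0 : Subsingleton (LinearMap.ker g) := hres'
      have hbot : LinearMap.ker g = ⊥ := (Submodule.subsingleton_iff_eq_bot).mp h0
      have hinj : Function.Injective g := LinearMap.ker_eq_bot.mp hbot
      let e : (Fin t → R) ≃ₗ[R] (LinearMap.ker f) := LinearEquiv.ofBijective g ⟨hinj, hg⟩
      exact comp_eq_zero_of_free e.symm (LinearMap.ker f).subtype (fun z => hk z.2) (j + 1) x₁
    · have h3 : Subsingleton (Ext (kk R) (ModuleCat.of R (Fin b → R)) (j + 1)) :=
        hx.subsingleton_ext_free _ (j + 1) (by omega)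
      exact Subsingleton.elim (α := Ext (kk R) (ModuleCat.of R (Fin b → R)) (j + 1)) _ _

end Pool.Agent.Helper40.Licci
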