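import Mathlib
import Pool.Agent.Helper40.Licci.Res
import Pool.Agent.Helper40.Licci.NonSyz

/-!
Assembly: perfection, type, deviation and non-licciness from explicit data.
-/

namespace Pool.Agent.Helper40.Licci

open CategoryTheory Abelian IsLocalRing RingTheory.Sequence Pointwise

universe u

variable {R : Type u} [CommRing R] [IsLocalRing R] {c : ℕ} {xs : List R}

lemma card_ext_zero (M : Type u) [AddCommGroup M] [Module R M] :
    Nat.card (Ext (kk R) (ModuleCat.of R M) 0) = Nat.card (soc R M) := by
  rw [← card_hom_residue]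
  exact Nat.card_congr (Ext.addEquiv₀.toEquiv.trans ModuleCat.homAddEquiv.toEquiv)

section PD

variable [IsNoetherianRing R]

lemma Params.pd_residue (hx : Params R c xs) :
    HasProjectiveDimensionLT (ModuleCat.of R (R ⧸ maximalIdeal R)) (c + 1) := by
  have h := ModuleCat.projectiveDimension_quotient_eq_add_length_of_isWeaklyRegular
    (ModuleCat.of R R) xs hx.reg.toIsWeaklyRegular hx.mem
  have h0 : projectiveDimension (ModuleCat.of R R) ≤ (0 : ℕ) := by
    rw [projectiveDimension_le_iff]
    have : Projective (ModuleCat.of R R) := (IsProjective.iff_projective _).mp inferInstance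
    exact (projective_iff_hasProjectiveDimensionLE_zero _).mp this
  let e : (R ⧸ (Ideal.ofList xs • (⊤ : Submodule R R))) ≃ₗ[R] (R ⧸ maximalIdeal R) :=
    Submodule.quotEquivOfEq _ _ (by
      change Ideal.ofList xs • (⊤ : Ideal R) = maximalIdeal R
      rw [smul_eq_mul, Ideal.mul_top, hx.span])
  have h2 : projectiveDimension (ModuleCat.of R (R ⧸ maximalIdeal R)) ≤ (c : ℕ) := by
    rw [← projectiveDimension_eq_of_iso e.toModuleIso]
    refine le_trans (le_of_eq h) ?_
    rw [hx.len]
    calc projectiveDimension (ModuleCat.of R R) + (c : WithBot ℕ∞) ≤ ((0 : ℕ) : WithBot ℕ∞) + c := by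
          gcongr
      _ = c := by simp
  rw [projectiveDimension_le_iff] at h2
  exact h2

/-- Every finite (cardinality) module has projective dimension at most `c`. -/
theorem Params.pd_finite (hx : Params R c xs) : ∀ (n : ℕ) (M : Type u) [AddCommGroup M]
    [Module R M] [Finite M], Nat.card M = n →
      HasProjectiveDimensionLT (ModuleCat.of R M) (c + 1) := by
  intro n
  induction n using Nat.strong_induction_on with
  | _ n ih =>
    intro M _ _ _ hM
    rcases subsingleton_or_nontrivial M with hsub | hnt
    · have hz : Limits.IsZero (ModuleCat.of R M) := ModuleCat.isZero_of_subsingleton _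
      have := hz.hasProjectiveDimensionLT_zero
      exact hasProjectiveDimensionLT_of_ge _ 0 _ (by simp)
    · obtain ⟨N, ⟨e⟩⟩ := exists_residue_submodule (R := R) (M := M)
      have : Finite (M ⧸ N) := Finite.of_surjective _ (Submodule.mkQ_surjective N)
      have hNt : Nontrivial N := e.toEquiv.nontrivial
      have h1 : 1 < Nat.card N := Finite.one_lt_card
      have hprod := card_quot_mul N
      have hqpos : 0 < Nat.card (M ⧸ N) := Nat.card_pos
      have hlt : Nat.card (M ⧸ N) < n := by
        rw [← hM, ← hprod]
        nlinarith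
      have h2 := ih _ hlt (M ⧸ N) rfl
      have hS := LinearMap.shortExact_shortComplexKer (Submodule.mkQ_surjective N)
      let e' : (R ⧸ maximalIdeal R) ≃ₗ[R] (LinearMap.ker (Submodule.mkQ N)) :=
        e.symm.trans (LinearEquiv.ofEq _ _ (Submodule.ker_mkQ N).symm)
      have h3 : HasProjectiveDimensionLT
          (ModuleCat.of R (LinearMap.ker (Submodule.mkQ N))) (c + 1) := by
        have := hx.pd_residue
        exact hasProjectiveDimensionLT_of_iso e'.toModuleIso (c + 1)
      exact hS.hasProjectiveDimensionLT_X₂ _ h3 h2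

theorem Params.not_pd_lt (hx : Params R c xs) (hc : 0 < c) (M : Type u) [AddCommGroup M]
    [Module R M] [Finite M] (hs : 1 < Nat.card (soc R M)) :
    ¬ HasProjectiveDimensionLT (ModuleCat.of R M) c := by
  intro h
  obtain ⟨n, rfl⟩ := Nat.exists_eq_succ_of_ne_zero hc.ne'
  obtain ⟨l, hl, hres⟩ := exists_minimalResolution n M h
  have h1 := subsingleton_ext_of_resolution hx l 0 (by omega) M hres
  have h2 := card_ext_zero (R := R) M
  rw [Nat.card_of_subsingleton (0 : Ext (kk R) (ModuleCat.of R M) 0)] at h2
  omega

theorem Params.pd_eq (hx : Params R c xs) (hc : 0 < c) (M : Type u) [AddCommGroup M]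
    [Module R M] [Finite M] (hs : 1 < Nat.card (soc R M)) :
    projectiveDimension (ModuleCat.of R M) = c := by
  apply le_antisymm
  · rw [projectiveDimension_le_iff]
    exact hx.pd_finite _ M rfl
  · rw [projectiveDimension_ge_iff]
    exact hx.not_pd_lt hc M hs

/-- type one from a one-dimensional socle -/
theorem Params.hasType_one (hx : Params R c xs) (I : Ideal R) [Finite (R ⧸ I)]
    (hk : 1 < Nat.card (R ⧸ maximalIdeal R))
    (hs : Nat.card (soc R (R ⧸ I)) = Nat.card (R ⧸ maximalIdeal R)) : HasType I c 1 := by
  obtain ⟨l, hl, hres⟩ := exists_minimalResolution c (R ⧸ I) (hx.pd_finite _ (R ⧸ I) rfl)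
  have hne : l ≠ [] := by
    intro h; rw [h] at hl; simp at hl
  have hsplit := List.dropLast_append_getLast hne
  rw [← hsplit] at hres
  have hlen : l.dropLast.length = c := by
    rw [List.length_dropLast, hl]; rfl
  have h1 := card_ext_of_resolution hx _ l.dropLast 0 (by omega) (R ⧸ I) hres
  rw [card_ext_zero, hs] at h1
  have h2 : Nat.card (R ⧸ maximalIdeal R) ^ 1 = Nat.card (R ⧸ maximalIdeal R) ^ (l.getLast hne) := by
    rw [pow_one]; exact h1
  have h3 : 1 = l.getLast hne := Nat.pow_right_injective hk h2
  rw [← h3] at hres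
  exact ⟨l.dropLast, hlen, hres⟩

end PD

/-- The minimal number of generators from a minimal cover (finite residue field). -/
theorem spanFinrank_of_cover [Finite (R ⧸ maximalIdeal R)] (I : Ideal R) (hfg : I.FG) (b : ℕ)
    (f : (Fin b → R) →ₗ[R] I) (hf : Function.Surjective f)
    (hk : LinearMap.ker f ≤ maximalIdeal R • (⊤ : Submodule R (Fin b → R))) :
    I.spanFinrank = b := by
  rw [IsLocalRing.spanFinrank_eq_finrank_quotient I hfg]
  have hcard : Nat.card (I ⧸ (maximalIdeal R • (⊤ : Submodule R I)))
      = Nat.card (R ⧸ maximalIdeal R) ^ b := by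
    rw [← card_quot_free]
    let g : (Fin b → R) →ₗ[R] (I ⧸ (maximalIdeal R • (⊤ : Submodule R I))) :=
      (Submodule.mkQ _).comp f
    have hg : Function.Surjective g := (Submodule.mkQ_surjective _).comp hf
    have hkg : LinearMap.ker g = maximalIdeal R • (⊤ : Submodule R (Fin b → R)) := by
      rw [LinearMap.ker_comp, Submodule.ker_mkQ, Submodule.comap_smul_top_of_surjective _ _ hf]
      exact sup_eq_left.mpr hk
    rw [← hkg]
    exact (Nat.card_congr (g.quotKerEquivOfSurjective hg).toEquiv).symm
  let : Field (R ⧸ maximalIdeal R) := Ideal.Quotient.field _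
  have hpos : 0 < Nat.card (I ⧸ (maximalIdeal R • (⊤ : Submodule R I))) := by
    rw [hcard]; exact Nat.pow_pos Nat.card_pos
  have hfin : Finite (I ⧸ (maximalIdeal R • (⊤ : Submodule R I))) :=
    (Nat.card_pos_iff.mp hpos).2
  have h1 : Nat.card (I ⧸ (maximalIdeal R • (⊤ : Submodule R I)))
      = Nat.card (R ⧸ maximalIdeal R) ^
        Module.finrank (R ⧸ maximalIdeal R) (I ⧸ (maximalIdeal R • (⊤ : Submodule R I))) := by
    exact Module.natCard_eq_pow_finrank
  rw [hcard] at h1
  exact (Nat.pow_right_injective Finite.one_lt_card h1).symm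

end Pool.Agent.Helper40.Licci
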