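import Mathlib
import Pool.Agent.Helper40.Licci.Ann

/-!
The special syzygy with coefficients in the ideal.
-/

namespace Pool.Agent.Helper40.Licci

section Ring

variable {A : Type*} [CommRing A]

/-- the conjugate quadric -/
def qbar (x : Fin 4 → A) : A :=
  (x 0 * x 1 + x 2 * x 3) + 4 * (x 0 * x 2 + x 1 * x 3) + 2 * (x 0 * x 3 + x 1 * x 2)

/-- second elementary symmetric function -/
def el2 (x : Fin 4 → A) : A :=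
  x 0 * x 1 + x 0 * x 2 + x 0 * x 3 + x 1 * x 2 + x 1 * x 3 + x 2 * x 3

/-- power sum of cubes -/
def p3 (x : Fin 4 → A) : A := x 0 ^ 2 * x 0 + x 1 ^ 2 * x 1 + x 2 ^ 2 * x 2 + x 3 ^ 2 * x 3

/-- power sum of fourth powers -/
def p4 (x : Fin 4 → A) : A :=
  x 0 ^ 2 * x 0 ^ 2 + x 1 ^ 2 * x 1 ^ 2 + x 2 ^ 2 * x 2 ^ 2 + x 3 ^ 2 * x 3 ^ 2

lemma p3_mem (x : Fin 4 → A) (K : Ideal A) (hK : ∀ i, x i ^ 2 ∈ K) : p3 x ∈ K := by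
  unfold p3
  exact K.add_mem (K.add_mem (K.add_mem (K.mul_mem_right _ (hK 0)) (K.mul_mem_right _ (hK 1)))
    (K.mul_mem_right _ (hK 2))) (K.mul_mem_right _ (hK 3))

lemma p4_mem (x : Fin 4 → A) (K : Ideal A) (hK : ∀ i, x i ^ 2 ∈ K) : p4 x ∈ K * K := by
  unfold p4
  exact (K * K).add_mem ((K * K).add_mem ((K * K).add_mem (Ideal.mul_mem_mul (hK 0) (hK 0))
    (Ideal.mul_mem_mul (hK 1) (hK 1))) (Ideal.mul_mem_mul (hK 2) (hK 2)))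
    (Ideal.mul_mem_mul (hK 3) (hK 3))

lemma two_quad_qbar (h7 : (7 : A) = 0) (x : Fin 4 → A) :
    2 * (quad x * qbar x) = el2 x * lin x ^ 2 + (- (lin x * p3 x) + p4 x) := by
  unfold quad qbar el2 lin p3 p4
  linear_combination (x 0 ^ 2 * x 1 * x 2 + x 0 ^ 2 * x 1 * x 3 + 2 * x 0 ^ 2 * x 2 ^ 2 + 5 * x 0 ^ 2 * x 2 * x 3 + 2 * x 0 ^ 2 * x 3 ^ 2 + x 0 * x 1 ^ 2 * x 2 + x 0 * x 1 ^ 2 * x 3 + 5 * x 0 * x 1 * x 2 ^ 2 + 8 * x 0 * x 1 * x 2 * x 3 + 5 * x 0 * x 1 * x 3 ^ 2 + x 0 * x 2 ^ 2 * x 3 + x 0 * x 2 * x 3 ^ 2 + 2 * x 1 ^ 2 * x 2 ^ 2 + 5 * x 1 ^ 2 * x 2 * x 3 + 2 * x 1 ^ 2 * x 3 ^ 2 + x 1 * x 2 ^ 2 * x 3 + x 1 * x 2 * x 3 ^ 2) * h7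

lemma qbar_quad_sq_mem (h7 : (7 : A) = 0) (x : Fin 4 → A) (K : Ideal A)
    (hK : ∀ i, x i ^ 2 ∈ K) : qbar x * quad x ^ 2 ∈ K * K := by
  have h : qbar x * quad x ^ 2 =
      (x 0 ^ 2 * x 1 ^ 2) * (x 0 * x 1 + 8 * x 0 * x 2 + 10 * x 0 * x 3 + 10 * x 1 * x 2 + 8 * x 1 * x 3 + 56 * x 2 ^ 2 + 107 * x 2 * x 3 + 56 * x 3 ^ 2)
      + (x 0 ^ 2 * x 2 ^ 2) * (20 * x 0 * x 1 + 16 * x 0 * x 2 + 72 * x 0 * x 3 + 72 * x 1 * x 2 + 256 * x 1 * x 3 + 20 * x 2 * x 3 + 56 * x 3 ^ 2)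
      + (x 0 ^ 2 * x 3 ^ 2) * (32 * x 0 * x 1 + 96 * x 0 * x 2 + 32 * x 0 * x 3 + 260 * x 1 * x 2 + 96 * x 1 * x 3 + 32 * x 2 * x 3)
      + (x 1 ^ 2 * x 2 ^ 2) * (32 * x 0 * x 1 + 96 * x 0 * x 2 + 260 * x 0 * x 3 + 32 * x 1 * x 2 + 96 * x 1 * x 3 + 32 * x 2 * x 3 + 56 * x 3 ^ 2)
      + (x 1 ^ 2 * x 3 ^ 2) * (20 * x 0 * x 1 + 256 * x 0 * x 2 + 72 * x 0 * x 3 + 72 * x 1 * x 2 + 16 * x 1 * x 3 + 20 * x 2 * x 3)
      + (x 2 ^ 2 * x 3 ^ 2) * (107 * x 0 * x 1 + 8 * x 0 * x 2 + 10 * x 0 * x 3 + 10 * x 1 * x 2 + 8 * x 1 * x 3 + x 2 * x 3) := by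
    unfold quad qbar
    linear_combination (8 * x 0 ^ 3 * x 1 * x 2 * x 3 + 8 * x 0 * x 1 ^ 3 * x 2 * x 3 + 8 * x 0 * x 1 * x 2 ^ 3 * x 3 + 8 * x 0 * x 1 * x 2 * x 3 ^ 3) * h7
  rw [h]
  have hm : ∀ i j (z : A), (x i ^ 2 * x j ^ 2) * z ∈ K * K := fun i j z =>
    (K * K).mul_mem_right _ (Ideal.mul_mem_mul (hK i) (hK j))
  exact (K * K).add_mem ((K * K).add_mem ((K * K).add_mem ((K * K).add_mem ((K * K).add_mem
    (hm 0 1 _) (hm 0 2 _)) (hm 0 3 _)) (hm 1 2 _)) (hm 1 3 _)) (hm 2 3 _)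

/-- `q ℓ` lies in the ideal of squares. -/
lemma quad_lin_mem (h7 : (7 : A) = 0) (x : Fin 4 → A) (K : Ideal A)
    (hK : ∀ i, x i ^ 2 ∈ K) : quad x * lin x ∈ K := by
  have h : quad x * lin x =
      x 0 ^ 2 * (x 1 + 2 * x 2 + 4 * x 3) + x 1 ^ 2 * (x 0 + 4 * x 2 + 2 * x 3)
      + x 2 ^ 2 * (2 * x 0 + 4 * x 1 + x 3) + x 3 ^ 2 * (4 * x 0 + 2 * x 1 + x 2) := by
    unfold quad lin
    linear_combination (x 0 * x 1 * x 2 + x 0 * x 1 * x 3 + x 0 * x 2 * x 3 + x 1 * x 2 * x 3) * h7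
  rw [h]
  exact K.add_mem (K.add_mem (K.add_mem (K.mul_mem_right _ (hK 0)) (K.mul_mem_right _ (hK 1)))
    (K.mul_mem_right _ (hK 2))) (K.mul_mem_right _ (hK 3))

/-- `q²` lies in the ideal of squares. -/
lemma quad_sq_mem (h7 : (7 : A) = 0) (x : Fin 4 → A) (K : Ideal A)
    (hK : ∀ i, x i ^ 2 ∈ K) : quad x ^ 2 ∈ K := by
  have h : quad x ^ 2 =
      x 0 ^ 2 * (x 1 ^ 2 + 4 * x 1 * x 2 + 8 * x 1 * x 3 + 4 * x 2 ^ 2 + 16 * x 2 * x 3 + 16 * x 3 ^ 2)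
      + x 1 ^ 2 * (8 * x 0 * x 2 + 4 * x 0 * x 3 + 16 * x 2 ^ 2 + 16 * x 2 * x 3 + 4 * x 3 ^ 2)
      + x 2 ^ 2 * (16 * x 0 * x 1 + 4 * x 0 * x 3 + 8 * x 1 * x 3 + x 3 ^ 2)
      + x 3 ^ 2 * (16 * x 0 * x 1 + 8 * x 0 * x 2 + 4 * x 1 * x 2) := by
    unfold quad
    linear_combination (6 * (x 0 * x 1 * x 2 * x 3)) * h7
  rw [h]
  exact K.add_mem (K.add_mem (K.add_mem (K.mul_mem_right _ (hK 0)) (K.mul_mem_right _ (hK 1)))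
    (K.mul_mem_right _ (hK 2))) (K.mul_mem_right _ (hK 3))

/-- `q q̄` is `6 e₄` modulo squares. -/
lemma quad_qbar_sub_mem (h7 : (7 : A) = 0) (x : Fin 4 → A) (K : Ideal A)
    (hK : ∀ i, x i ^ 2 ∈ K) : quad x * qbar x + x 0 * x 1 * x 2 * x 3 ∈ K := by
  have h : quad x * qbar x + x 0 * x 1 * x 2 * x 3 =
      x 0 ^ 2 * (x 1 ^ 2 + 6 * x 1 * x 2 + 6 * x 1 * x 3 + 8 * x 2 ^ 2 + 20 * x 2 * x 3 + 8 * x 3 ^ 2)
      + x 1 ^ 2 * (6 * x 0 * x 2 + 6 * x 0 * x 3 + 8 * x 2 ^ 2 + 20 * x 2 * x 3 + 8 * x 3 ^ 2)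
      + x 2 ^ 2 * (20 * x 0 * x 1 + 6 * x 0 * x 3 + 6 * x 1 * x 3 + x 3 ^ 2)
      + x 3 ^ 2 * (20 * x 0 * x 1 + 6 * x 0 * x 2 + 6 * x 1 * x 2) := by
    unfold quad qbar
    linear_combination (5 * (x 0 * x 1 * x 2 * x 3)) * h7
  rw [h]
  exact K.add_mem (K.add_mem (K.add_mem (K.mul_mem_right _ (hK 0)) (K.mul_mem_right _ (hK 1)))
    (K.mul_mem_right _ (hK 2))) (K.mul_mem_right _ (hK 3))

/-- The special relation lies in `I 𝔞`. -/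
theorem special_mem (h7 : (7 : A) = 0) (x y : Fin 4 → A) (K I : Ideal A)
    (hx : ∀ i, x i ^ 2 ∈ K) (hy : ∀ i, y i ^ 2 ∈ K) (hKI : K ≤ I)
    (hg : lin x * lin y ∈ I) :
    (- (qbar x * qbar y * (quad x + quad y))) * (quad x + quad y)
      + (4 * (el2 x * el2 y * (lin x * lin y))) * (lin x * lin y) ∈ I * K := by
  have hKK : K * K ≤ I * K := Ideal.mul_mono_left hKI
  have h1x := qbar_quad_sq_mem h7 x K hx
  have h1y := qbar_quad_sq_mem h7 y K hy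
  have h2x := two_quad_qbar h7 x
  have h2y := two_quad_qbar h7 y
  have hDx : - (lin x * p3 x) + p4 x ∈ K :=
    K.add_mem (K.neg_mem (K.mul_mem_left _ (p3_mem x K hx))) (Ideal.mul_le_left (p4_mem x K hx))
  have hDy : - (lin y * p3 y) + p4 y ∈ K :=
    K.add_mem (K.neg_mem (K.mul_mem_left _ (p3_mem y K hy))) (Ideal.mul_le_left (p4_mem y K hy))
  have hUD : (el2 x * lin x ^ 2) * (- (lin y * p3 y) + p4 y) ∈ I * K := by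
    have e : (el2 x * lin x ^ 2) * (- (lin y * p3 y) + p4 y)
      = (- (el2 x * lin x)) * ((lin x * lin y) * p3 y) + (el2 x * lin x ^ 2) * p4 y := by ring
    rw [e]
    exact (I * K).add_mem ((I * K).mul_mem_left _ (Ideal.mul_mem_mul hg (p3_mem y K hy)))
      ((I * K).mul_mem_left _ (hKK (p4_mem y K hy)))
  have hDU : (- (lin x * p3 x) + p4 x) * (el2 y * lin y ^ 2) ∈ I * K := by
    have e : (- (lin x * p3 x) + p4 x) * (el2 y * lin y ^ 2)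
      = (- (el2 y * lin y)) * ((lin x * lin y) * p3 x) + (el2 y * lin y ^ 2) * p4 x := by ring
    rw [e]
    exact (I * K).add_mem ((I * K).mul_mem_left _ (Ideal.mul_mem_mul hg (p3_mem x K hx)))
      ((I * K).mul_mem_left _ (hKK (p4_mem x K hx)))
  have hDD : (- (lin x * p3 x) + p4 x) * (- (lin y * p3 y) + p4 y) ∈ I * K :=
    hKK (Ideal.mul_mem_mul hDx hDy)
  have key : (- (qbar x * qbar y * (quad x + quad y))) * (quad x + quad y)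
      + (4 * (el2 x * el2 y * (lin x * lin y))) * (lin x * lin y)
      = (- qbar y) * (qbar x * quad x ^ 2) + (- qbar x) * (qbar y * quad y ^ 2)
        + 3 * ((el2 x * lin x ^ 2) * (- (lin y * p3 y) + p4 y))
        + 3 * ((- (lin x * p3 x) + p4 x) * (el2 y * lin y ^ 2))
        + 3 * ((- (lin x * p3 x) + p4 x) * (- (lin y * p3 y) + p4 y)) := by
    linear_combination (el2 x * lin x ^ 2 * (el2 y * lin y ^ 2)
      - 2 * (quad x * qbar x) * (quad y * qbar y)) * h7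
      + 3 * (2 * (quad y * qbar y)) * h2x
      + 3 * (el2 x * lin x ^ 2 + (- (lin x * p3 x) + p4 x)) * h2y
  rw [key]
  exact (I * K).add_mem ((I * K).add_mem ((I * K).add_mem ((I * K).add_mem
    ((I * K).mul_mem_left _ (hKK h1x)) ((I * K).mul_mem_left _ (hKK h1y)))
    ((I * K).mul_mem_left _ hUD)) ((I * K).mul_mem_left _ hDU)) ((I * K).mul_mem_left _ hDD)

end Ring

end Pool.Agent.Helper40.Licci
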