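import Mathlib
import Pool.Agent.Helper40.Licci.Assemble
import Pool.Agent.Helper40.Licci.Special

/-!
The local ring of the example and its regular sequences.
-/

namespace Pool.Agent.Helper40.Licci

open MvPolynomial RingTheory.Sequence IsLocalRing

instance fact7 : Fact (Nat.Prime 7) := ⟨by norm_num⟩

section MonomialSeq

variable {k : Type*} [CommRing k] {c : ℕ}

lemma range_pow_eq (e : Fin c → ℕ) (s : Set (Fin c)) :
    (fun v : Fin c => (X v ^ e v : MvPolynomial (Fin c) k)) '' s =
    (fun m => monomial m (1 : k)) '' ((fun v : Fin c => Finsupp.single v (e v)) '' s) := by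
  rw [← Set.image_comp]
  congr 1
  funext v
  simp [X_pow_eq_monomial]

lemma mem_pow_iff (e : Fin c → ℕ) (s : Set (Fin c)) (u : MvPolynomial (Fin c) k) :
    u ∈ Ideal.span ((fun v : Fin c => (X v ^ e v : MvPolynomial (Fin c) k)) '' s) ↔
      ∀ m ∈ u.support, ∃ v ∈ s, e v ≤ m v := by
  rw [range_pow_eq, mem_ideal_span_monomial_image]
  apply forall₂_congr
  intro m _
  constructor
  · rintro ⟨_, ⟨v, hv, rfl⟩, h⟩
    refine ⟨v, hv, ?_⟩
    have := h v
    simpa using this
  · rintro ⟨v, hv, h⟩
    refine ⟨_, ⟨v, hv, rfl⟩, ?_⟩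
    exact Finsupp.single_le_iff.mpr h

/-- Powers of distinct variables form a weakly regular sequence. -/
lemma wreg_pow (e : Fin c → ℕ) :
    WReg (fun v : Fin c => (X v ^ e v : MvPolynomial (Fin c) k)) := by
  intro i r hr
  rw [mem_pow_iff] at hr ⊢
  intro m hm
  have h1 : m + Finsupp.single i (e i) ∈ (r * X i ^ e i).support := by
    rw [mem_support_iff, X_pow_eq_monomial, coeff_mul_monomial, mul_one]
    exact mem_support_iff.mp hm
  obtain ⟨v, hv, h2⟩ := hr _ h1
  refine ⟨v, hv, ?_⟩
  have hne : i ≠ v := ne_of_gt hv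
  rw [Finsupp.add_apply, Finsupp.single_apply, if_neg hne, add_zero] at h2
  exact h2

end MonomialSeq

section ListConv

variable {R : Type*} [CommRing R]

lemma ofList_ofFn {c : ℕ} (α : Fin c → R) :
    Ideal.ofList (List.ofFn α) = Ideal.span (Set.range α) := by
  unfold Ideal.ofList
  congr 1
  ext x
  change x ∈ List.ofFn α ↔ x ∈ Set.range α
  rw [List.mem_ofFn]
  exact Iff.rfl

lemma isWeaklyRegular_ofFn {c : ℕ} (α : Fin c → R) (h : WReg α) :
    IsWeaklyRegular R (List.ofFn α) := by
  rw [isWeaklyRegular_iff_Fin]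
  intro i
  have hi : i.val < c := lt_of_lt_of_eq i.2 List.length_ofFn
  have hget : (List.ofFn α)[i] = α ⟨i.val, hi⟩ := by
    simp
  have htake : Ideal.ofList ((List.ofFn α).take i) =
      Ideal.span (α '' {j | j < ⟨i.val, hi⟩}) := by
    rw [ofList_take_eq]
    congr 1
    ext x
    constructor
    · rintro ⟨j, hj, rfl⟩
      have hj' : j.val < c := lt_of_lt_of_eq j.2 List.length_ofFn
      refine ⟨⟨j.val, hj'⟩, hj, ?_⟩
      simp
    · rintro ⟨j, hj, rfl⟩
      refine ⟨⟨j.val, by rw [List.length_ofFn]; exact j.2⟩, hj, ?_⟩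
      simp
  have key : ∀ x : R, (Submodule.Quotient.mk x :
      R ⧸ (Ideal.ofList ((List.ofFn α).take i) • (⊤ : Ideal R))) = 0
      ↔ x ∈ Ideal.ofList ((List.ofFn α).take i) := by
    intro x
    rw [Submodule.Quotient.mk_eq_zero]
    simp
  intro x y hxy
  obtain ⟨x, rfl⟩ := Submodule.Quotient.mk_surjective _ x
  obtain ⟨y, rfl⟩ := Submodule.Quotient.mk_surjective _ y
  rw [hget] at hxy
  change α ⟨i.val, hi⟩ • (Submodule.Quotient.mk x :
      R ⧸ (Ideal.ofList ((List.ofFn α).take i) • (⊤ : Ideal R)))
    = α ⟨i.val, hi⟩ • Submodule.Quotient.mk y at hxy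
  rw [← sub_eq_zero, ← smul_sub, ← Submodule.Quotient.mk_sub, ← Submodule.Quotient.mk_smul,
    key, htake, smul_eq_mul, mul_comm] at hxy
  rw [← sub_eq_zero, ← Submodule.Quotient.mk_sub, key, htake]
  exact h _ _ hxy

lemma coeffMem_of_isRegular_ofFn {c : ℕ} (α : Fin c → R) (h : IsWeaklyRegular R (List.ofFn α)) :
    CoeffMem α := by
  intro f hf i
  have hl : (List.ofFn α).length = c := List.length_ofFn
  have h1 := coeff_mem_of_isWeaklyRegular (List.ofFn α) h
    (fun j => f (Fin.cast hl j)) (by
      rw [← hf]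
      refine Fintype.sum_equiv (finCongr hl) _ _ ?_
      intro j
      simp
      rfl) (Fin.cast hl.symm i)
  rw [ofList_ofFn] at h1
  simpa using h1

end ListConv

section Loc

variable (c : ℕ)

/-- The polynomial ring. -/
abbrev PP := MvPolynomial (Fin c) (ZMod 7)

/-- The ideal of the origin. -/
noncomputable def org : Ideal (PP c) := RingHom.ker (constantCoeff : PP c →+* ZMod 7)

instance org_max : (org c).IsMaximal :=
  RingHom.ker_isMaximal_of_surjective _ (fun a => ⟨C a, constantCoeff_C _ a⟩)

instance org_prime : (org c).IsPrime := (org_max c).isPrime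

/-- The local ring of the affine space at the origin. -/
abbrev RR := Localization.AtPrime (org c)

instance : IsRegularRing (ZMod 7) := inferInstance

instance rr_regular : IsRegularLocalRing (RR c) := inferInstance

instance rr_noeth : IsNoetherianRing (RR c) := inferInstance

lemma mem_org (u : PP c) : u ∈ org c ↔ constantCoeff u = 0 := RingHom.mem_ker

lemma org_eq : org c = Ideal.span (Set.range (X : Fin c → PP c)) := by
  ext u
  have h0 : Set.range (X : Fin c → PP c) = X '' (Set.univ : Set (Fin c)) := by
    rw [Set.image_univ]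
  rw [mem_org, h0, mem_ideal_span_X_image]
  constructor
  · intro h m hm
    by_contra hcon
    push Not at hcon
    have hm0 : m = 0 := by
      ext v
      exact hcon v (Set.mem_univ v)
    rw [hm0, mem_support_iff] at hm
    exact hm h
  · intro h
    by_contra hne
    obtain ⟨v, _, hv⟩ := h 0 (mem_support_iff.mpr hne)
    exact hv rfl

/-- images of polynomials in the local ring -/
noncomputable abbrev toR : PP c →+* RR c := algebraMap (PP c) (RR c)

lemma isRegular_pow (e : Fin c → ℕ) (he : ∀ v, 0 < e v) :
    IsRegular (RR c) (List.ofFn (fun v => toR c (X v ^ e v))) := by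
  have h1 := isWeaklyRegular_ofFn _ (wreg_pow (k := ZMod 7) e)
  have h2 := h1.isRegular_of_isLocalization_of_mem (S := RR c) (org c) (by
    intro r hr
    rw [List.mem_ofFn] at hr
    obtain ⟨v, rfl⟩ := hr
    rw [mem_org, map_pow, constantCoeff_X, zero_pow (he v).ne'])
  rw [List.map_ofFn] at h2
  exact h2

lemma span_range_map (f : Fin c → PP c) :
    Ideal.span (Set.range (fun v => toR c (f v))) =
      (Ideal.span (Set.range f)).map (toR c) := by
  rw [Ideal.map_span, ← Set.range_comp]
  rfl

lemma params : Params (RR c) c (List.ofFn (fun v => toR c (X v))) where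
  reg := by
    have := isRegular_pow c (fun _ => 1) (fun _ => one_pos)
    simpa only [pow_one] using this
  span := by
    rw [ofList_ofFn, span_range_map, ← org_eq]
    exact Localization.AtPrime.map_eq_maximalIdeal
  len := List.length_ofFn

instance finite_res : Finite (RR c ⧸ maximalIdeal (RR c)) := by
  have e := IsLocalization.AtPrime.equivQuotMaximalIdeal (org c) (RR c)
  have h : Finite (PP c ⧸ org c) := by
    have e2 : (PP c ⧸ org c) ≃+* ZMod 7 :=
      RingHom.quotientKerEquivOfSurjective
        (f := (constantCoeff : PP c →+* ZMod 7)) (fun a => ⟨C a, constantCoeff_C _ a⟩)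
    exact Finite.of_equiv _ e2.symm.toEquiv
  exact Finite.of_equiv _ e.toEquiv

instance finite_res' : Finite (ResidueField (RR c)) := finite_res c

lemma toR_injective : Function.Injective (toR c) :=
  IsLocalization.injective (RR c) (Ideal.primeCompl_le_nonZeroDivisors (org c))

end Loc

end Pool.Agent.Helper40.Licci
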