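import Mathlib
import Pool.Agent.Helper40.Licci.LocalEx

/-!
The example: a Gorenstein ideal of deviation two which is not licci.
-/

namespace Pool.Agent.Helper40.Licci

open MvPolynomial RingTheory.Sequence IsLocalRing

section Pol

variable {c : ℕ}

lemma qT_row3 : ∀ s : Fin 16, qT 3 s - (if s = 0 then 1 else 0) = (0 : ZMod 7) := by decide +kernel
lemma qT_row0 : ∀ s : Fin 16, qT 0 s = (0 : ZMod 7) := by decide +kernel
lemma qT_row1 : ∀ s : Fin 16, qT 1 s = (0 : ZMod 7) := by decide +kernel
lemma lT_row0 : ∀ s : Fin 16, lT 0 s = (0 : ZMod 7) := by decide +kernel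
lemma lT_row1 : ∀ s : Fin 16, lT 1 s - (if s = 0 then 1 else 0) = (0 : ZMod 7) := by decide +kernel
lemma eT_row15 : ∀ s : Fin 16, (eM 0 * (eM 1 * (eM 2 * eM 3))) 15 s - (if s = 0 then 1 else 0)
    = (0 : ZMod 7) := by decide +kernel

lemma expo_zero : expo c 0 0 = 0 := by
  ext v
  rw [expo_apply]
  simp

lemma cf_zero_zero (u : PP c) : cf u 0 0 = constantCoeff u := by
  change coeff (expo c 0 0) u = constantCoeff u
  rw [expo_zero]
  rfl

lemma sum_delta (f g : Fin 16 → ZMod 7) (h : ∀ s, f s - (if s = 0 then 1 else 0) = 0) :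
    ∑ s, f s * g s = g 0 := by
  have h1 : ∀ s, f s * g s = if s = 0 then g s else 0 := by
    intro s
    rw [sub_eq_zero.mp (h s)]
    split_ifs <;> simp
  simp only [h1]
  simp

lemma coeff_XX (v p q : Fin c) (hpq : p ≠ q) (e : ℕ) (u : PP c) :
    coeff (Finsupp.single v e) (X p * (X q * u)) = 0 := by
  classical
  rw [coeff_X_mul']
  split_ifs with h1
  · rw [coeff_X_mul']
    split_ifs with h2
    · exfalso
      have hp : p = v := by
        have := Finsupp.support_single_subset h1
        simpa using this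
      subst hp
      have h3 : (Finsupp.single p e - Finsupp.single p 1 : Fin c →₀ ℕ) q ≠ 0 :=
        Finsupp.mem_support_iff.mp h2
      apply h3
      rw [Finsupp.tsub_apply, Finsupp.single_apply, Finsupp.single_apply, if_neg hpq, if_neg hpq]
      rfl
    · rfl
  · rfl

lemma vx_inj (hc : 8 ≤ c) {i j : Fin 4} (h : i ≠ j) : vx hc i ≠ vx hc j := by
  intro he
  apply h
  apply Fin.ext
  have h1 : (vx hc i).val = (vx hc j).val := congrArg Fin.val he
  exact h1

lemma vy_inj (hc : 8 ≤ c) {i j : Fin 4} (h : i ≠ j) : vy hc i ≠ vy hc j := by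
  intro he
  apply h
  apply Fin.ext
  have : 4 + i.val = 4 + j.val := congrArg Fin.val he
  omega

lemma vx_ne_vy (hc : 8 ≤ c) (i j : Fin 4) : vx hc i ≠ vy hc j := by
  intro he
  have : i.val = 4 + j.val := congrArg Fin.val he
  omega

lemma coeff_quad (x : Fin 4 → Fin c) (hx : ∀ i j, i ≠ j → x i ≠ x j) (v : Fin c) (e : ℕ)
    (u : PP c) : coeff (Finsupp.single v e) (quad (fun i => (X (x i) : PP c)) * u) = 0 := by
  have h : quad (fun i => (X (x i) : PP c)) * u
      = (X (x 0) * (X (x 1) * u) + X (x 2) * (X (x 3) * u))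
      + C 2 * (X (x 0) * (X (x 2) * u) + X (x 1) * (X (x 3) * u))
      + C 4 * (X (x 0) * (X (x 3) * u) + X (x 1) * (X (x 2) * u)) := by
    have e2 : (C 2 : PP c) = 2 := map_ofNat C 2
    have e4 : (C 4 : PP c) = 4 := map_ofNat C 4
    rw [e2, e4]
    unfold quad
    ring
  rw [h]
  simp only [coeff_add, coeff_C_mul]
  rw [coeff_XX _ _ _ (hx 0 1 (by decide)), coeff_XX _ _ _ (hx 2 3 (by decide)),
    coeff_XX _ _ _ (hx 0 2 (by decide)), coeff_XX _ _ _ (hx 1 3 (by decide)),
    coeff_XX _ _ _ (hx 0 3 (by decide)), coeff_XX _ _ _ (hx 1 2 (by decide))]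
  simp

lemma coeff_lin_lin (x y : Fin 4 → Fin c) (hxy : ∀ i j, x i ≠ y j) (v : Fin c) (e : ℕ)
    (u : PP c) : coeff (Finsupp.single v e)
      (lin (fun i => (X (x i) : PP c)) * (lin (fun i => (X (y i) : PP c)) * u)) = 0 := by
  have h : lin (fun i => (X (x i) : PP c)) * (lin (fun i => (X (y i) : PP c)) * u)
      = ∑ i, ∑ j, X (x i) * (X (y j) * u) := by
    simp only [Fin.sum_univ_four]
    unfold lin
    ring
  rw [h]
  simp only [coeff_sum]
  apply Finset.sum_eq_zero
  intro i _
  apply Finset.sum_eq_zero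
  intro j _
  exact coeff_XX _ _ _ (hxy i j) _ _

/-- Minimality of the generators, polynomial version. -/
theorem min_poly (hc : 8 ≤ c) (f : Fin c → PP c) (a b : PP c)
    (h : ∑ v, f v * alp v
      + a * (quad (fun i => X (vx hc i)) + quad (fun i => X (vy hc i)))
      + b * (lin (fun i => X (vx hc i)) * lin (fun i => X (vy hc i))) = 0) :
    (∀ v, constantCoeff (f v) = 0) ∧ constantCoeff a = 0 ∧ constantCoeff b = 0 := by
  have hmem : ∑ v, f v * alp v ∈ Ideal.span (Set.range (alp (c := c))) :=
    Ideal.sum_mem _ (fun v _ => Ideal.mul_mem_left _ _ (Ideal.subset_span ⟨v, rfl⟩))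
  have hcf := (mem_alp_iff_cf hc _).mp hmem
  have h' : ∑ v, f v * alp v
      + (quad (fun i => X (vx hc i)) * a + quad (fun i => X (vy hc i)) * a)
      + lin (fun i => X (vx hc i)) * (lin (fun i => X (vy hc i)) * b) = 0 := by
    rw [← h]; ring
  have hm : qT * cf a + cf a * qT.transpose + lT * (cf b * lT.transpose) = 0 := by
    have h1 := congrArg cf h'
    rw [cf_add, cf_add, cf_add, hcf, cf_quad_x, cf_quad_y, cf_lin_x, cf_lin_y] at h1
    have h0 : cf (0 : PP c) = 0 := by
      ext s t; exact coeff_zero _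
    rw [h0, zero_add] at h1
    exact h1
  refine ⟨?_, ?_, ?_⟩
  · intro v
    have h1 : coeff (Finsupp.single v (eexp v)) (∑ w, f w * alp w
      + (quad (fun i => X (vx hc i)) * a + quad (fun i => X (vy hc i)) * a)
      + lin (fun i => X (vx hc i)) * (lin (fun i => X (vy hc i)) * b)) = 0 := by
      rw [h']; exact coeff_zero _
    rw [coeff_add, coeff_add, coeff_add, coeff_quad _ (fun i j hij => vx_inj hc hij),
      coeff_quad _ (fun i j hij => vy_inj hc hij),
      coeff_lin_lin _ _ (fun i j => vx_ne_vy hc i j), coeff_sum, Finset.sum_eq_single v] at h1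
    · have h2 : coeff (Finsupp.single v (eexp v)) (f v * alp v) = coeff 0 (f v) := by
        unfold alp
        rw [X_pow_eq_monomial, coeff_mul_monomial', if_pos le_rfl, tsub_self, mul_one]
      rw [h2] at h1
      simpa [constantCoeff_eq] using h1
    · intro w _ hw
      unfold alp
      rw [X_pow_eq_monomial, coeff_mul_monomial', if_neg]
      intro hle
      rw [Finsupp.single_le_iff, Finsupp.single_apply, if_neg (Ne.symm hw)] at hle
      unfold eexp at hle
      split_ifs at hle <;> omega
    · intro hv; exact absurd (Finset.mem_univ _) hv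
  · have h1 := congrFun (congrFun hm 3) 0
    rw [Matrix.add_apply, Matrix.add_apply, Matrix.mul_apply, Matrix.mul_apply,
      Matrix.mul_apply] at h1
    rw [sum_delta _ _ qT_row3] at h1
    have h2 : ∑ j, cf a 3 j * qT.transpose j 0 = 0 := by
      apply Finset.sum_eq_zero
      intro j _
      rw [Matrix.transpose_apply, qT_row0, mul_zero]
    have h3 : ∑ j, lT 3 j * (cf b * lT.transpose) j 0 = 0 := by
      apply Finset.sum_eq_zero
      intro j _
      rw [Matrix.mul_apply]
      have : ∑ k, cf b j k * lT.transpose k 0 = 0 := by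
        apply Finset.sum_eq_zero
        intro k _
        rw [Matrix.transpose_apply, lT_row0, mul_zero]
      rw [this, mul_zero]
    rw [h2, h3, cf_zero_zero] at h1
    simpa using h1
  · have h1 := congrFun (congrFun hm 1) 1
    rw [Matrix.add_apply, Matrix.add_apply, Matrix.mul_apply, Matrix.mul_apply,
      Matrix.mul_apply] at h1
    rw [sum_delta _ _ lT_row1] at h1
    have h2 : ∑ j, cf a 1 j * qT.transpose j 1 = 0 := by
      apply Finset.sum_eq_zero
      intro j _
      rw [Matrix.transpose_apply, qT_row1, mul_zero]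
    have h3 : ∑ j, qT 1 j * cf a j 1 = 0 := by
      apply Finset.sum_eq_zero
      intro j _
      rw [qT_row1, zero_mul]
    have h4 : (cf b * lT.transpose) 0 1 = cf b 0 0 := by
      rw [Matrix.mul_apply]
      have : ∀ j, cf b 0 j * lT.transpose j 1 = lT 1 j * cf b 0 j := by
        intro j; rw [Matrix.transpose_apply, mul_comm]
      simp only [this]
      exact sum_delta _ _ lT_row1
    rw [h2, h3, h4, cf_zero_zero] at h1
    simpa using h1

/-- The full squarefree monomial is not in the complete intersection, even locally. -/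
theorem top_not_mem (hc : 8 ≤ c) (s : PP c) (hs : constantCoeff s ≠ 0) :
    s * ((X (vx hc 0) * X (vx hc 1) * X (vx hc 2) * X (vx hc 3))
      * (X (vy hc 0) * X (vy hc 1) * X (vy hc 2) * X (vy hc 3)))
      ∉ Ideal.span (Set.range (alp (c := c))) := by
  rw [mem_alp_iff_cf hc]
  intro h
  have h1 : s * ((X (vx hc 0) * X (vx hc 1) * X (vx hc 2) * X (vx hc 3))
      * (X (vy hc 0) * X (vy hc 1) * X (vy hc 2) * X (vy hc 3)))
      = X (vx hc 0) * (X (vx hc 1) * (X (vx hc 2) * (X (vx hc 3) *
        (X (vy hc 0) * (X (vy hc 1) * (X (vy hc 2) * (X (vy hc 3) * s))))))) := by ring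
  rw [h1] at h
  simp only [cf_X_x, cf_X_y] at h
  have h2 : (eM 0 * (eM 1 * (eM 2 * eM 3))) *
      (cf s * (eM 0 * (eM 1 * (eM 2 * eM 3))).transpose) = 0 := by
    rw [← h]
    simp only [Matrix.transpose_mul, Matrix.mul_assoc]
  have h3 := congrFun (congrFun h2 15) 15
  rw [Matrix.mul_apply, sum_delta _ _ eT_row15, Matrix.mul_apply] at h3
  have h4 : ∀ j, cf s 0 j * (eM 0 * (eM 1 * (eM 2 * eM 3))).transpose j 15
      = (eM 0 * (eM 1 * (eM 2 * eM 3))) 15 j * cf s 0 j := by
    intro j; rw [Matrix.transpose_apply, mul_comm]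
  simp only [h4] at h3
  rw [sum_delta _ _ eT_row15, cf_zero_zero] at h3
  exact hs h3

end Pol

end Pool.Agent.Helper40.Licci
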