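import Mathlib
import Pool.Agent.Helper40.Licci.Example

/-!
Final assembly of the non-licci example.
-/

namespace Pool.Agent.Helper40.Licci

open MvPolynomial RingTheory.Sequence IsLocalRing

section Fin

variable {c : ℕ} (hc : 8 ≤ c)

/-- the first four variables in the local ring -/
noncomputable def gx (i : Fin 4) : RR c := toR c (X (vx hc i))

/-- the next four variables in the local ring -/
noncomputable def gy (i : Fin 4) : RR c := toR c (X (vy hc i))

/-- the complete intersection in the local ring -/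
noncomputable def ar (v : Fin c) : RR c := toR c (alp v)

/-- first extra generator -/
noncomputable def g1 : RR c := quad (gx hc) + quad (gy hc)

/-- second extra generator -/
noncomputable def g2 : RR c := lin (gx hc) * lin (gy hc)

/-- the linked element -/
noncomputable def ww : RR c := quad (gx hc) - quad (gy hc)

/-- the ideal -/
noncomputable def II : Ideal (RR c) :=
  Ideal.span (Set.range (ar (c := c))) ⊔ Ideal.span {g1 hc, g2 hc}

lemma h7 (c : ℕ) : (7 : RR c) = 0 := by
  have h1 : (7 : RR c) = toR c (C (7 : ZMod 7)) := by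
    rw [map_ofNat, map_ofNat]
  have h2 : (7 : ZMod 7) = 0 := by decide
  rw [h1, h2, map_zero, map_zero]

lemma quad_map (x : Fin 4 → PP c) : toR c (quad x) = quad (fun i => toR c (x i)) := by
  unfold quad
  simp only [map_add, map_mul, map_ofNat]

lemma lin_map (x : Fin 4 → PP c) : toR c (lin x) = lin (fun i => toR c (x i)) := by
  unfold lin
  simp only [map_add]

lemma span_ar : Ideal.span (Set.range (ar (c := c))) =
    (Ideal.span (Set.range (alp (c := c)))).map (toR c) := span_range_map c alp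

lemma isRegular_ar : IsRegular (RR c) (List.ofFn (ar (c := c))) := by
  have := isRegular_pow c (eexp (c := c)) (by
    intro v; unfold eexp; split_ifs <;> omega)
  exact this

lemma alp_vx (i : Fin 4) : alp (vx hc i) = X (vx hc i) ^ 2 := by
  unfold alp eexp
  rw [if_pos]
  change i.val < 8
  omega

lemma alp_vy (i : Fin 4) : alp (vy hc i) = X (vy hc i) ^ 2 := by
  unfold alp eexp
  rw [if_pos]
  change 4 + i.val < 8
  omega

lemma gx_sq (i : Fin 4) : gx hc i ^ 2 ∈ Ideal.span (Set.range (ar (c := c))) := by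
  apply Ideal.subset_span
  refine ⟨vx hc i, ?_⟩
  unfold ar gx
  rw [alp_vx, map_pow]

lemma gy_sq (i : Fin 4) : gy hc i ^ 2 ∈ Ideal.span (Set.range (ar (c := c))) := by
  apply Ideal.subset_span
  refine ⟨vy hc i, ?_⟩
  unfold ar gy
  rw [alp_vy, map_pow]

lemma ww_mul (x : RR c) (hx : x ∈ II hc) :
    ww hc * x ∈ Ideal.span (Set.range (ar (c := c))) := by
  have hq1 : ww hc * g1 hc ∈ Ideal.span (Set.range (ar (c := c))) := by
    have h : ww hc * g1 hc = quad (gx hc) ^ 2 - quad (gy hc) ^ 2 := by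
      unfold ww g1; ring
    rw [h]
    exact Ideal.sub_mem _ (quad_sq_mem (h7 c) _ _ (gx_sq hc)) (quad_sq_mem (h7 c) _ _ (gy_sq hc))
  have hq2 : ww hc * g2 hc ∈ Ideal.span (Set.range (ar (c := c))) := by
    have h : ww hc * g2 hc = lin (gy hc) * (quad (gx hc) * lin (gx hc))
        - lin (gx hc) * (quad (gy hc) * lin (gy hc)) := by
      unfold ww g2; ring
    rw [h]
    exact Ideal.sub_mem _ (Ideal.mul_mem_left _ _ (quad_lin_mem (h7 c) _ _ (gx_sq hc)))
      (Ideal.mul_mem_left _ _ (quad_lin_mem (h7 c) _ _ (gy_sq hc)))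
  obtain ⟨y, hy, z, hz, rfl⟩ := Submodule.mem_sup.mp hx
  rw [mul_add]
  refine Ideal.add_mem _ (Ideal.mul_mem_left _ _ hy) ?_
  obtain ⟨a, b, rfl⟩ := Ideal.mem_span_pair.mp hz
  have h : ww hc * (a * g1 hc + b * g2 hc) = a * (ww hc * g1 hc) + b * (ww hc * g2 hc) := by ring
  rw [h]
  exact Ideal.add_mem _ (Ideal.mul_mem_left _ _ hq1) (Ideal.mul_mem_left _ _ hq2)

lemma mem_of_ww_mul (z : RR c) (hz : ww hc * z ∈ Ideal.span (Set.range (ar (c := c)))) :
    z ∈ II hc := by
  obtain ⟨u, s, rfl⟩ := IsLocalization.exists_mk'_eq (org c).primeCompl z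
  rw [span_ar] at hz
  have h1 : toR c ((quad (fun i => X (vx hc i)) - quad (fun i => X (vy hc i))) * u)
      ∈ (Ideal.span (Set.range (alp (c := c)))).map (toR c) := by
    have h2 : toR c ((quad (fun i => X (vx hc i)) - quad (fun i => X (vy hc i))) * u)
        = toR c s * (ww hc * IsLocalization.mk' (RR c) u s) := by
      rw [map_mul, map_sub, quad_map, quad_map]
      have h3 : toR c s * IsLocalization.mk' (RR c) u s = toR c u := by
        rw [mul_comm]; exact IsLocalization.mk'_spec _ _ _
      rw [← h3]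
      unfold ww gx gy
      ring
    rw [h2]
    exact Ideal.mul_mem_left _ _ hz
  rw [IsLocalization.algebraMap_mem_map_algebraMap_iff (org c).primeCompl] at h1
  obtain ⟨m, hm, h2⟩ := h1
  have h3 : (quad (fun i => X (vx hc i)) - quad (fun i => X (vy hc i))) * (m * u)
      ∈ Ideal.span (Set.range (alp (c := c))) := by
    have : (quad (fun i => X (vx hc i)) - quad (fun i => X (vy hc i))) * (m * u)
      = m * ((quad (fun i => X (vx hc i)) - quad (fun i => X (vy hc i))) * u) := by ring
    rw [this]; exact h2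
  obtain ⟨U, V, h4⟩ := ann_poly hc (m * u) h3
  have h5 := Ideal.mem_map_of_mem (toR c) h4
  rw [← span_ar] at h5
  have hle : Ideal.span (Set.range (ar (c := c))) ≤ II hc := le_sup_left
  have hg1 : g1 hc ∈ II hc := Ideal.mem_sup_right (Ideal.subset_span (by simp))
  have hg2 : g2 hc ∈ II hc := Ideal.mem_sup_right (Ideal.subset_span (by simp))
  have h6 : toR c (m * u) ∈ II hc := by
    have h7' : toR c (m * u) = toR c (m * u -
        (quad (fun i => X (vx hc i)) + quad (fun i => X (vy hc i))) * U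
      - lin (fun i => X (vx hc i)) * lin (fun i => X (vy hc i)) * V)
      + toR c U * g1 hc + toR c V * g2 hc := by
      unfold g1 g2 gx gy
      rw [map_sub, map_sub, map_mul (toR c) (_ + _) U, map_mul (toR c) (_ * _) V, map_add,
        map_mul (toR c) (lin _) (lin _), quad_map, quad_map, lin_map, lin_map]
      ring
    rw [h7']
    exact Ideal.add_mem _ (Ideal.add_mem _ (hle h5) (Ideal.mul_mem_left _ _ hg1))
      (Ideal.mul_mem_left _ _ hg2)
  have hum : IsUnit (toR c m) := IsLocalization.map_units (RR c) ⟨m, hm⟩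
  have hus : IsUnit (toR c s) := IsLocalization.map_units (RR c) s
  have h8 : toR c (m * u) = (toR c m * toR c s) * IsLocalization.mk' (RR c) u s := by
    have h3 : IsLocalization.mk' (RR c) u s * toR c s = toR c u := IsLocalization.mk'_spec _ _ _
    rw [map_mul, ← h3]; ring
  rw [h8] at h6
  exact (Ideal.unit_mul_mem_iff_mem _ (hum.mul hus)).mp h6

instance finite_ar : Finite (RR c ⧸ Ideal.span (Set.range (ar (c := c)))) := by
  have := (params c).finite (List.ofFn (ar (c := c))) List.length_ofFn isRegular_ar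
  rwa [ofList_ofFn] at this

lemma card_soc_ar : Nat.card (soc (RR c) (RR c ⧸ Ideal.span (Set.range (ar (c := c)))))
    = Nat.card (RR c ⧸ maximalIdeal (RR c)) := by
  have := (params c).card_soc (List.ofFn (ar (c := c))) List.length_ofFn isRegular_ar
  rwa [ofList_ofFn] at this

instance finite_II : Finite (RR c ⧸ II hc) :=
  Finite.of_surjective _ (fac_surjective (le_sup_left :
    Ideal.span (Set.range (ar (c := c))) ≤ II hc))

/-- Minimality of the generators in the local ring. -/
theorem min_loc (f : Fin c → RR c) (a b : RR c)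
    (h : ∑ v, f v * ar v + a * g1 hc + b * g2 hc = 0) :
    (∀ v, f v ∈ maximalIdeal (RR c)) ∧ a ∈ maximalIdeal (RR c) ∧ b ∈ maximalIdeal (RR c) := by
  let F : Fin c ⊕ Fin 2 → RR c := Sum.elim f ![a, b]
  obtain ⟨s, hs⟩ := IsLocalization.exist_integer_multiples_of_finite (org c).primeCompl F
  choose r hr using hs
  have hr' : ∀ i, toR c (r i) = toR c s * F i := by
    intro i
    have := hr i
    change toR c (r i) = (s : PP c) • F i at this
    rw [this, Algebra.smul_def]
  have hrel : ∑ v, r (Sum.inl v) * alp v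
      + r (Sum.inr 0) * (quad (fun i => X (vx hc i)) + quad (fun i => X (vy hc i)))
      + r (Sum.inr 1) * (lin (fun i => X (vx hc i)) * lin (fun i => X (vy hc i))) = 0 := by
    apply toR_injective c
    rw [map_zero, map_add, map_add, map_sum, map_mul, map_mul, map_add, map_mul, quad_map,
      quad_map, lin_map, lin_map, hr', hr']
    have h1 : ∀ v, toR c (r (Sum.inl v) * alp v) = toR c s * (f v * ar v) := by
      intro v
      rw [map_mul, hr']
      unfold ar
      change toR c s * f v * toR c (alp v) = _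
      ring
    simp only [h1]
    rw [← Finset.mul_sum]
    change toR c s * ∑ v, f v * ar v + toR c s * a * g1 hc + toR c s * b * g2 hc = 0
    have h2 : toR c s * ∑ v, f v * ar v + toR c s * a * g1 hc + toR c s * b * g2 hc
      = toR c s * (∑ v, f v * ar v + a * g1 hc + b * g2 hc) := by ring
    rw [h2, h, mul_zero]
  obtain ⟨h1, h2, h3⟩ := min_poly hc _ _ _ hrel
  have hsn : toR c s ∉ maximalIdeal (RR c) := by
    have hus : IsUnit (toR c s) := IsLocalization.map_units (RR c) s
    exact fun hh => (mem_maximalIdeal _).mp hh hus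
  have hconv : ∀ i, constantCoeff (r i) = 0 → F i ∈ maximalIdeal (RR c) := by
    intro i hi
    have h4 : toR c (r i) ∈ maximalIdeal (RR c) := by
      rw [IsLocalization.AtPrime.to_map_mem_maximal_iff (RR c) (org c)]
      exact (mem_org c _).mpr hi
    rw [hr' i] at h4
    exact ((maximalIdeal.isMaximal (RR c)).isPrime.mem_or_mem h4).resolve_left hsn
  exact ⟨fun v => hconv (Sum.inl v) (h1 v), hconv (Sum.inr 0) h2, hconv (Sum.inr 1) h3⟩

/-- The special syzygy. -/
theorem special_syz : ∃ f : Fin c → RR c, (∀ v, f v ∈ II hc) ∧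
    ∑ v, f v * ar v + (- (qbar (gx hc) * qbar (gy hc) * g1 hc)) * g1 hc
      + (4 * (el2 (gx hc) * el2 (gy hc) * g2 hc)) * g2 hc = 0 := by
  have hle : Ideal.span (Set.range (ar (c := c))) ≤ II hc := le_sup_left
  have hg2 : g2 hc ∈ II hc := Ideal.mem_sup_right (Ideal.subset_span (by simp))
  have h := special_mem (h7 c) (gx hc) (gy hc) (Ideal.span (Set.range (ar (c := c)))) (II hc)
    (gx_sq hc) (gy_sq hc) hle hg2
  have h' : (- (qbar (gx hc) * qbar (gy hc) * g1 hc)) * g1 hc
      + (4 * (el2 (gx hc) * el2 (gy hc) * g2 hc)) * g2 hc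
      ∈ II hc • Submodule.span (RR c) (Set.range (ar (c := c))) := h
  rw [Submodule.mem_ideal_smul_span_iff_exists_sum] at h'
  obtain ⟨a, ha, hsum⟩ := h'
  refine ⟨fun v => - a v, fun v => Ideal.neg_mem_iff _ |>.mpr (ha v), ?_⟩
  have hfin := Finsupp.sum_fintype a (fun i (z : RR c) => z • ar i) (fun i => zero_smul _ _)
  rw [hfin] at hsum
  have h2 : ∑ v, (- a v) * ar v = - ∑ v, a v • ar v := by
    rw [← Finset.sum_neg_distrib]
    exact Finset.sum_congr rfl (fun v _ => by rw [smul_eq_mul]; ring)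
  rw [h2, hsum]
  ring

/-- The special syzygy is not a Koszul syzygy modulo the complete intersection. -/
theorem special_nontrivial : ¬ ∃ t : RR c,
    (- (qbar (gx hc) * qbar (gy hc) * g1 hc)) - t * g2 hc ∈ Ideal.span (Set.range (ar (c := c))) ∧
    (4 * (el2 (gx hc) * el2 (gy hc) * g2 hc)) + t * g1 hc
      ∈ Ideal.span (Set.range (ar (c := c))) := by
  rintro ⟨t, h1, _⟩
  have hx := gx_sq hc
  have hy := gy_sq hc
  set K := Ideal.span (Set.range (ar (c := c))) with hK
  have e1 : quad (gx hc) * g2 hc ∈ K := by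
    have : quad (gx hc) * g2 hc = lin (gy hc) * (quad (gx hc) * lin (gx hc)) := by
      unfold g2; ring
    rw [this]; exact K.mul_mem_left _ (quad_lin_mem (h7 c) _ _ hx)
  have e2 : quad (gx hc) ^ 2 ∈ K := quad_sq_mem (h7 c) _ _ hx
  have ex := quad_qbar_sub_mem (h7 c) _ K hx
  have ey := quad_qbar_sub_mem (h7 c) _ K hy
  have e3 : (gx hc 0 * gx hc 1 * gx hc 2 * gx hc 3) * (gy hc 0 * gy hc 1 * gy hc 2 * gy hc 3)
      ∈ K := by
    have h2 := K.mul_mem_left (quad (gx hc)) h1
    have h3 : (gx hc 0 * gx hc 1 * gx hc 2 * gx hc 3) * (gy hc 0 * gy hc 1 * gy hc 2 * gy hc 3)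
      = - (quad (gx hc) * ((- (qbar (gx hc) * qbar (gy hc) * g1 hc)) - t * g2 hc))
        - t * (quad (gx hc) * g2 hc) - (qbar (gx hc) * qbar (gy hc)) * quad (gx hc) ^ 2
        + (gx hc 0 * gx hc 1 * gx hc 2 * gx hc 3)
          * (quad (gy hc) * qbar (gy hc) + gy hc 0 * gy hc 1 * gy hc 2 * gy hc 3)
        - (quad (gy hc) * qbar (gy hc))
          * (quad (gx hc) * qbar (gx hc) + gx hc 0 * gx hc 1 * gx hc 2 * gx hc 3) := by
      unfold g1; ring
    rw [h3]
    refine K.sub_mem (K.add_mem (K.sub_mem (K.sub_mem (K.neg_mem h2) (K.mul_mem_left _ e1))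
      (K.mul_mem_left _ e2)) (K.mul_mem_left _ ey)) (K.mul_mem_left _ ex)
  have e4 : toR c ((X (vx hc 0) * X (vx hc 1) * X (vx hc 2) * X (vx hc 3))
      * (X (vy hc 0) * X (vy hc 1) * X (vy hc 2) * X (vy hc 3)))
      ∈ (Ideal.span (Set.range (alp (c := c)))).map (toR c) := by
    rw [← span_ar, ← hK]
    simp only [map_mul]
    exact e3
  rw [IsLocalization.algebraMap_mem_map_algebraMap_iff (org c).primeCompl] at e4
  obtain ⟨m, hm, h2⟩ := e4
  refine top_not_mem hc m ?_ h2
  intro h0
  exact hm ((mem_org c m).mpr h0)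

lemma gx_mem_max (i : Fin 4) : gx hc i ∈ maximalIdeal (RR c) := by
  unfold gx
  rw [IsLocalization.AtPrime.to_map_mem_maximal_iff (RR c) (org c), mem_org, constantCoeff_X]

lemma gy_mem_max (i : Fin 4) : gy hc i ∈ maximalIdeal (RR c) := by
  unfold gy
  rw [IsLocalization.AtPrime.to_map_mem_maximal_iff (RR c) (org c), mem_org, constantCoeff_X]

lemma ar_mem_max (v : Fin c) : ar v ∈ maximalIdeal (RR c) := by
  unfold ar
  rw [IsLocalization.AtPrime.to_map_mem_maximal_iff (RR c) (org c), mem_org]
  unfold alp eexp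
  rw [map_pow, constantCoeff_X]
  split_ifs <;> simp

lemma quad_mem_max (x : Fin 4 → RR c) (hx : ∀ i, x i ∈ maximalIdeal (RR c)) :
    quad x ∈ maximalIdeal (RR c) := by
  unfold quad
  have hm : ∀ i j, x i * x j ∈ maximalIdeal (RR c) :=
    fun i j => Ideal.mul_mem_left _ _ (hx j)
  exact Ideal.add_mem _ (Ideal.add_mem _ (Ideal.add_mem _ (hm 0 1) (hm 2 3))
    (Ideal.mul_mem_left _ _ (Ideal.add_mem _ (hm 0 2) (hm 1 3))))
    (Ideal.mul_mem_left _ _ (Ideal.add_mem _ (hm 0 3) (hm 1 2)))

lemma II_le_max : II hc ≤ maximalIdeal (RR c) := by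
  unfold II
  rw [sup_le_iff, Ideal.span_le, Ideal.span_le]
  constructor
  · rintro _ ⟨v, rfl⟩
    exact ar_mem_max v
  · intro x hx
    rcases hx with rfl | hx
    · exact Ideal.add_mem _ (quad_mem_max _ (gx_mem_max hc)) (quad_mem_max _ (gy_mem_max hc))
    · rw [Set.mem_singleton_iff] at hx
      subst hx
      unfold g2 lin
      exact Ideal.mul_mem_right _ _ (Ideal.add_mem _ (Ideal.add_mem _ (Ideal.add_mem _
        (gx_mem_max hc 0) (gx_mem_max hc 1)) (gx_mem_max hc 2)) (gx_mem_max hc 3))

lemma II_ne_top : II hc ≠ ⊤ := by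
  intro h
  have h1 := II_le_max hc
  rw [h] at h1
  exact (maximalIdeal.isMaximal (RR c)).ne_top (top_le_iff.mp h1)

/-- The socle of `R/I` is one-dimensional. -/
theorem card_soc_II : Nat.card (soc (RR c) (RR c ⧸ II hc))
    = Nat.card (RR c ⧸ maximalIdeal (RR c)) := by
  apply le_antisymm
  · rw [← card_soc_ar (c := c)]
    have hw : ∀ x ∈ II hc, ww hc * x ∈ Ideal.span (Set.range (ar (c := c))) := ww_mul hc
    have hinj : Function.Injective (mulQ (ww hc) hw) := by
      rw [← LinearMap.ker_eq_bot, LinearMap.ker_eq_bot']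
      intro z hz
      obtain ⟨x, rfl⟩ := Submodule.Quotient.mk_surjective _ z
      rw [mulQ_mk, Submodule.Quotient.mk_eq_zero] at hz
      rw [Submodule.Quotient.mk_eq_zero]
      exact mem_of_ww_mul hc x hz
    refine Nat.card_le_card_of_injective (fun z => ⟨mulQ (ww hc) hw z.1, ?_⟩) ?_
    · have hz := z.2
      rw [Submodule.mem_torsionBySet_iff] at hz ⊢
      intro r
      have := hz r
      rw [← map_smul, this, map_zero]
    · intro z z' hzz
      apply Subtype.ext
      apply hinj
      exact congrArg (fun w => w.1) hzz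
  · have hne : Nontrivial (RR c ⧸ II hc) := Ideal.Quotient.nontrivial_iff.mpr (II_ne_top hc)
    obtain ⟨N, ⟨e⟩⟩ := exists_residue_submodule (R := RR c) (M := RR c ⧸ II hc)
    rw [← Nat.card_congr e.toEquiv]
    refine Nat.card_le_card_of_injective (fun z : N => ⟨z.1, ?_⟩) ?_
    · rw [Submodule.mem_torsionBySet_iff]
      rintro ⟨r, hr⟩
      change r • z.1 = 0
      have h1 : e (r • z) = 0 := by
        rw [map_smul]
        exact smul_quot_eq_zero hr _
      have h2 : r • z = 0 := e.map_eq_zero_iff.mp h1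
      exact congrArg Subtype.val h2
    · intro z z' hzz
      apply Subtype.ext
      exact congrArg (fun w => w.1) hzz

lemma one_lt_res : 1 < Nat.card (RR c ⧸ maximalIdeal (RR c)) := by
  have : Nontrivial (RR c ⧸ maximalIdeal (RR c)) :=
    Ideal.Quotient.nontrivial_iff.mpr (maximalIdeal.isMaximal (RR c)).ne_top
  exact Finite.one_lt_card

/-- The ideal is not licci. -/
theorem not_licci : ¬ IsLicci c (II hc) := by
  intro h
  have h1 := card_hom_of_isLicci (params c).goodRing h
  obtain ⟨f, hf, hrel⟩ := special_syz hc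
  have hfH := finite_hom_of_fg (R := RR c) (M := II hc) (Q := RR c ⧸ II hc)
  have hg1 : g1 hc ∈ II hc := Ideal.mem_sup_right (Ideal.subset_span (by simp))
  have hg2 : g2 hc ∈ II hc := Ideal.mem_sup_right (Ideal.subset_span (by simp))
  have h2 := card_pow_lt (coeffMem_of_isRegular_ofFn _ (isRegular_ar (c := c)).toIsWeaklyRegular)
    (g1 hc) (g2 hc) (II hc) rfl (le_of_eq card_soc_ar) (le_of_eq (card_soc_II hc)) hfH f _ _ hrel hf
    (Ideal.neg_mem_iff _ |>.mpr (Ideal.mul_mem_left _ _ hg1))
    (Ideal.mul_mem_left _ _ (Ideal.mul_mem_left _ _ hg2)) (special_nontrivial hc)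
  rw [h1] at h2
  exact lt_irrefl _ h2

/-- The ideal has exactly `c + 2` minimal generators. -/
theorem spanFinrank_II : (II hc).spanFinrank = c + 2 := by
  let G : Fin (c + 2) → RR c :=
    Fin.snoc (α := fun _ => RR c) (Fin.snoc (α := fun _ => RR c) ar (g1 hc)) (g2 hc)
  have hsum : ∀ v : Fin (c + 2) → RR c, Fintype.linearCombination (RR c) G v =
      ∑ i : Fin c, v i.castSucc.castSucc * ar i + v (Fin.last c).castSucc * g1 hc
        + v (Fin.last (c + 1)) * g2 hc := by
    intro v
    rw [Fintype.linearCombination_apply, Fin.sum_univ_castSucc, Fin.sum_univ_castSucc]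
    simp only [G, Fin.snoc_castSucc, Fin.snoc_last, smul_eq_mul]
  have hmem : ∀ v, Fintype.linearCombination (RR c) G v ∈ II hc := by
    intro v
    have hle : Ideal.span (Set.range (ar (c := c))) ≤ II hc := le_sup_left
    have hg1 : g1 hc ∈ II hc := Ideal.mem_sup_right (Ideal.subset_span (by simp))
    have hg2 : g2 hc ∈ II hc := Ideal.mem_sup_right (Ideal.subset_span (by simp))
    rw [hsum]
    exact Ideal.add_mem _ (Ideal.add_mem _ (Ideal.sum_mem _ (fun i _ =>
      Ideal.mul_mem_left _ _ (hle (Ideal.subset_span ⟨i, rfl⟩)))) (Ideal.mul_mem_left _ _ hg1))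
      (Ideal.mul_mem_left _ _ hg2)
  refine spanFinrank_of_cover (II hc) (IsNoetherian.noetherian _) (c + 2)
    (LinearMap.codRestrict (II hc) (Fintype.linearCombination (RR c) G) hmem) ?_ ?_
  · rintro ⟨x, hx⟩
    obtain ⟨y, hy, z, hz, hyz⟩ := Submodule.mem_sup.mp hx
    obtain ⟨f, hf⟩ := Ideal.mem_span_range_iff_exists_fun.mp hy
    obtain ⟨a, b, hab⟩ := Ideal.mem_span_pair.mp hz
    refine ⟨Fin.snoc (α := fun _ => RR c) (Fin.snoc (α := fun _ => RR c) f a) b, ?_⟩
    apply Subtype.ext
    change Fintype.linearCombination (RR c) G _ = x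
    rw [hsum]
    simp only [Fin.snoc_castSucc, Fin.snoc_last]
    rw [← hyz, ← hf, ← hab]
    ring
  · intro v hv
    have h1 : Fintype.linearCombination (RR c) G v = 0 :=
      congrArg Subtype.val (LinearMap.mem_ker.mp hv)
    rw [hsum] at h1
    obtain ⟨h2, h3, h4⟩ := min_loc hc _ _ _ h1
    rw [mem_smul_top_pi]
    intro i
    refine Fin.lastCases ?_ (fun i => ?_) i
    · exact h4
    · refine Fin.lastCases ?_ (fun i => ?_) i
      · exact h3
      · exact h2 i

theorem isPerfect_II : IsPerfectOfCodim (II hc) c := by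
  refine ⟨⟨II_ne_top hc, ⟨List.ofFn (ar (c := c)), List.length_ofFn, isRegular_ar, ?_⟩, ?_⟩, ?_⟩
  · rw [ofList_ofFn]; exact le_sup_left
  · intro rs h _
    exact (params c).length_le rs h
  · refine (params c).pd_eq (by omega) _ ?_
    rw [card_soc_II]
    exact one_lt_res

end Fin

/-- Every triplet `(c, 2, 1)` with `c ≥ 8` admits a non-licci perfect ideal. -/
theorem admitsNonLicci (c : ℕ) (hc : 8 ≤ c) : AdmitsNonLicci c 2 1 :=
  ⟨RR c, inferInstance, rr_regular c, II hc, isPerfect_II hc, spanFinrank_II hc,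
    (params c).hasType_one _ one_lt_res (card_soc_II hc), not_licci hc⟩

end Pool.Agent.Helper40.Licci
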